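import Pool.Agent.Work.MP_235410_co.Cert1

/-!
# The final check: no solution of the cube equations
-/

set_option autoImplicit false

namespace Pool.Agent.Work.MP235410

/-- a rectangle with natural coordinates -/
structure Bx where
  xl : ℕ
  xh : ℕ
  yl : ℕ
  yh : ℕ

/-- pieces of the block of the letter `a` in state `s` -/
def pl (a s : ℕ) : List Bx :=
  cond (Nat.beq a 0) [⟨0, 0, 0, 369⟩, ⟨0, 5032, 370, 370⟩, ⟨5033, 5033, 370, 424⟩]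
  (cond (Nat.beq a 2) [⟨0, 288, 0, 0⟩, ⟨289, 289, 0, 2885⟩, ⟨289, 342, 2886, 2886⟩]
  (cond (Nat.beq a 3) [⟨0, 296, 0, 0⟩, ⟨297, 297, 0, 4537⟩, ⟨297, 1466, 4538, 4538⟩]
  (cond (Nat.beq s 0) [⟨0, 989, 0, 0⟩, ⟨990, 990, 0, 11⟩, ⟨990, 1175, 12, 12⟩,
    ⟨1176, 1176, 12, 494⟩, ⟨1176, 3072, 495, 495⟩, ⟨3073, 3073, 495, 1605⟩]
  (cond (Nat.beq s 1) [⟨0, 989, 0, 0⟩, ⟨990, 990, 0, 14⟩, ⟨990, 1175, 15, 15⟩,
    ⟨1176, 1176, 15, 494⟩, ⟨1176, 3072, 495, 495⟩, ⟨3073, 3073, 495, 1605⟩]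
  (cond (Nat.beq s 2) [⟨0, 989, 0, 0⟩, ⟨990, 990, 0, 11⟩, ⟨990, 1175, 12, 12⟩,
    ⟨1176, 1176, 12, 497⟩, ⟨1176, 3072, 498, 498⟩, ⟨3073, 3073, 498, 1605⟩]
  [⟨0, 989, 0, 0⟩, ⟨990, 990, 0, 14⟩, ⟨990, 1175, 15, 15⟩,
    ⟨1176, 1176, 15, 497⟩, ⟨1176, 3072, 498, 498⟩, ⟨3073, 3073, 498, 1605⟩])))))

/-- bounding boxes of the blocks -/
def bb (a : ℕ) : Bx :=
  cond (Nat.beq a 0) ⟨0, 5033, 0, 425⟩ (cond (Nat.beq a 1) ⟨0, 3073, 0, 1606⟩
  (cond (Nat.beq a 2) ⟨0, 343, 0, 2886⟩ ⟨0, 1467, 0, 4538⟩))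

/-- residue `tx + K`, `K = 1200000`; `tx D + 1200000 = … - 32 * 9916` -/
def rX (k : ℕ) : ℕ :=
  Nat.add (Nat.add (Nat.add (Nat.mul 5033 (dX k)) (Nat.mul 3073 (dY k)))
    (Nat.add (Nat.mul 343 (dZ k)) (Nat.mul 1467 (dT k)))) 882688

/-- residue `ty + K` -/
def rY (k : ℕ) : ℕ :=
  Nat.add (Nat.add (Nat.add (Nat.mul 425 (dX k)) (Nat.mul 1606 (dY k)))
    (Nat.add (Nat.mul 2886 (dZ k)) (Nat.mul 4538 (dT k)))) 897440

/-- test for `r + a0 + a2 = K + 2 a1` -/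
def t1 (r l0 h0 l1 h1 l2 h2 : ℕ) : Bool :=
  and (Nat.ble (Nat.add r (Nat.add l0 l2)) (Nat.add 1200000 (Nat.mul 2 h1)))
    (Nat.ble (Nat.add 1200000 (Nat.mul 2 l1)) (Nat.add r (Nat.add h0 h2)))

/-- test for `r + a0 + 2 a3 = 3 K + 3 m` -/
def t3 (r l0 h0 l3 h3 lm hm : ℕ) : Bool :=
  and (Nat.ble (Nat.add r (Nat.add l0 (Nat.mul 2 l3))) (Nat.add 3600000 (Nat.mul 3 hm)))
    (Nat.ble (Nat.add 3600000 (Nat.mul 3 lm)) (Nat.add r (Nat.add h0 (Nat.mul 2 h3))))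

/-- two-coordinate version of `t1` -/
def T1 (r s : ℕ) (a b c : Bx) : Bool :=
  and (t1 r a.xl a.xh b.xl b.xh c.xl c.xh) (t1 s a.yl a.yh b.yl b.yh c.yl c.yh)

/-- two-coordinate version of `t3` -/
def T3 (r s : ℕ) (a d m : Bx) : Bool :=
  and (t3 r a.xl a.xh d.xl d.xh m.xl m.xh) (t3 s a.yl a.yh d.yl d.yh m.yl m.yh)

/-- parity test of a coordinate: if `a` and `c` are fixed then `r + a + c` is even -/
def p1 (r l0 h0 l2 h2 : ℕ) : Bool :=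
  or (or (ltb l0 h0) (ltb l2 h2)) (Nat.beq (Nat.mod (Nat.add r (Nat.add l0 l2)) 2) 0)

/-- divisibility by three test of a coordinate -/
def p3 (r l0 h0 l3 h3 : ℕ) : Bool :=
  or (or (ltb l0 h0) (ltb l3 h3))
    (Nat.beq (Nat.mod (Nat.add r (Nat.add l0 (Nat.mul 2 l3))) 3) 0)

/-- all divisibility tests -/
def pall (r1 s1 r2 s2 r3 s3 r4 s4 : ℕ) (a b c d : Bx) : Bool :=
  and (p1 r1 a.xl a.xh c.xl c.xh) (and (p1 s1 a.yl a.yh c.yl c.yh)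
  (and (p1 r2 b.xl b.xh d.xl d.xh) (and (p1 s2 b.yl b.yh d.yl d.yh)
  (and (p3 r3 a.xl a.xh d.xl d.xh) (and (p3 s3 a.yl a.yh d.yl d.yh)
  (and (p3 r4 d.xl d.xh a.xl a.xh) (p3 s4 d.yl d.yh a.yl a.yh)))))))

/-- the states that have to be considered for two letters -/
def sts (a c : ℕ) : List ℕ :=
  cond (or (Nat.beq a 1) (Nat.beq c 1)) [0, 1, 2, 3] [0]

/-- change of state caused by a second difference -/
def del (k : ℕ) : ℕ :=
  Nat.add (Nat.land (Nat.add (dZ k) (dT k)) 1) (Nat.mul 2 (Nat.land (dZ k) 1))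

/-- search for a solution: `true` if there is none -/
noncomputable def srch (r1 s1 r2 s2 r3 s3 r4 s4 a b c d u v : ℕ) : Bool :=
  allL (sts a c) fun p => allL (sts b d) fun q =>
    allL (pl a p) fun A => allL (pl b q) fun B =>
      or (not (and (T1 r1 s1 A B (bb c)) (T3 r4 s4 (bb d) A B)))
        (allL (pl c (Nat.xor p u)) fun C =>
          or (not (and (T1 r1 s1 A B C) (and (T1 r2 s2 B C (bb d)) (T3 r3 s3 A (bb d) C))))
            (allL (pl d (Nat.xor q v)) fun D =>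
              not (and (T1 r2 s2 B C D) (and (T3 r3 s3 A D C) (and (T3 r4 s4 D A B)
                (pall r1 s1 r2 s2 r3 s3 r4 s4 A B C D))))))

/-- box test of a triple -/
def bxt (k : ℕ) : Bool :=
  T1 (rX k) (rY k) (bb (lA k)) (bb (lB k)) (bb (lC k))

/-- final test of a pair of triples -/
noncomputable def fin2 (k m : ℕ) : Bool :=
  or (not (bxt m))
  (or (not (and (T3 (Nat.add (rX k) (Nat.mul 2 (rX m))) (Nat.add (rY k) (Nat.mul 2 (rY m)))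
      (bb (lA k)) (bb (lC m)) (bb (lC k)))
    (T3 (Nat.add (Nat.mul 2 (rX k)) (rX m)) (Nat.add (Nat.mul 2 (rY k)) (rY m))
      (bb (lC m)) (bb (lA k)) (bb (lB k)))))
  (srch (rX k) (rY k) (rX m) (rY m) (Nat.add (rX k) (Nat.mul 2 (rX m)))
    (Nat.add (rY k) (Nat.mul 2 (rY m))) (Nat.add (Nat.mul 2 (rX k)) (rX m))
    (Nat.add (Nat.mul 2 (rY k)) (rY m)) (lA k) (lB k) (lC k) (lC m) (del k) (del m)))

/-- final test of a row -/
noncomputable def chkF (i : ℕ) : Bool :=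
  or (not (bxt (key i))) (allL (row 3 i) fun t => fin2 (key i) (key t))

end Pool.Agent.Work.MP235410
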