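import Pool.Agent.Work.MP_235410_co.Sound2
import Pool.Agent.Work.MP_235410_co.Fin0

/-!
# Soundness of the final check
-/

set_option autoImplicit false

namespace Pool.Agent.Work.MP235410

/-- membership in a rectangle -/
def InBx (B : Bx) (x y : ℕ) : Prop := (B.xl ≤ x ∧ x ≤ B.xh) ∧ B.yl ≤ y ∧ y ≤ B.yh

/-- the state -/
def st (P R : ℕ) : ℕ := (P + R) % 2 + 2 * (P % 2)

theorem pt_piece {a : Fin 4} {P R : ℕ} {x y : ℤ} (hp : Pt a P R x y) :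
    ∃ X Y : ℕ, x = X ∧ y = Y ∧ InBx (bb a.val) X Y ∧ ∃ B ∈ pl a.val (st P R), InBx B X Y := by
  obtain ⟨pc, hpc, s, h0, h1, hx, hy⟩ := hp
  have hP : P % 2 < 2 := Nat.mod_lt _ (by norm_num)
  have hR : (P + R) % 2 < 2 := Nat.mod_lt _ (by norm_num)
  unfold st
  generalize hPP : P % 2 = p at *
  generalize hRR : (P + R) % 2 = r at *
  obtain ⟨S, rfl⟩ := Int.eq_ofNat_of_zero_le h0
  fin_cases a
  · simp only [runs, pcs, List.mem_cons, List.not_mem_nil, or_false] at hpc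
    have e1 : pl 0 (r + 2 * p) = [⟨0, 0, 0, 369⟩, ⟨0, 5032, 370, 370⟩, ⟨5033, 5033, 370, 424⟩] :=
      rfl
    have e2 : bb 0 = ⟨0, 5033, 0, 425⟩ := rfl
    rcases hpc with rfl | rfl | rfl <;> simp at h1 hx hy <;> subst hx <;> subst hy
    · refine ⟨0, S, by simp, by simp, ?_, ⟨0, 0, 0, 369⟩, ?_, ?_⟩
      · simp only [InBx, e2]; omega
      · simp [e1]
      · simp only [InBx]; omega
    · refine ⟨S, 370, by simp, by simp, ?_, ⟨0, 5032, 370, 370⟩, ?_, ?_⟩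
      · simp only [InBx, e2]; omega
      · simp [e1]
      · simp only [InBx]; omega
    · refine ⟨5033, 370 + S, by simp, by simp, ?_, ⟨5033, 5033, 370, 424⟩, ?_, ?_⟩
      · simp only [InBx, e2]; omega
      · simp [e1]
      · simp only [InBx]; omega
  · simp only [runs, pcs, hPP, hRR, List.mem_cons, List.not_mem_nil, or_false] at hpc
    have e2 : bb 1 = ⟨0, 3073, 0, 1606⟩ := rfl
    have e10 : pl 1 0 = [⟨0, 989, 0, 0⟩, ⟨990, 990, 0, 11⟩, ⟨990, 1175, 12, 12⟩,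
    ⟨1176, 1176, 12, 494⟩, ⟨1176, 3072, 495, 495⟩, ⟨3073, 3073, 495, 1605⟩] := rfl
    have e11 : pl 1 1 = [⟨0, 989, 0, 0⟩, ⟨990, 990, 0, 14⟩, ⟨990, 1175, 15, 15⟩,
    ⟨1176, 1176, 15, 494⟩, ⟨1176, 3072, 495, 495⟩, ⟨3073, 3073, 495, 1605⟩] := rfl
    have e12 : pl 1 2 = [⟨0, 989, 0, 0⟩, ⟨990, 990, 0, 11⟩, ⟨990, 1175, 12, 12⟩,
    ⟨1176, 1176, 12, 497⟩, ⟨1176, 3072, 498, 498⟩, ⟨3073, 3073, 498, 1605⟩] := rfl
    have e13 : pl 1 3 = [⟨0, 989, 0, 0⟩, ⟨990, 990, 0, 14⟩, ⟨990, 1175, 15, 15⟩,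
    ⟨1176, 1176, 15, 497⟩, ⟨1176, 3072, 498, 498⟩, ⟨3073, 3073, 498, 1605⟩] := rfl
    interval_cases p <;> interval_cases r <;>
      simp only [mul_zero, add_zero, mul_one, zero_add,
        Nat.reduceAdd, e10, e11, e12, e13, e2, List.mem_cons, List.not_mem_nil, or_false,
        exists_eq_or_imp, exists_eq_left, InBx] <;>
      rcases hpc with rfl | rfl | rfl | rfl | rfl | rfl <;> simp at h1 hx hy
    all_goals
      refine ⟨x.toNat, y.toNat, ?_, ?_, ?_, ?_⟩ <;> omega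
  · simp only [runs, pcs, List.mem_cons, List.not_mem_nil, or_false] at hpc
    have e1 : pl 2 (r + 2 * p) = [⟨0, 288, 0, 0⟩, ⟨289, 289, 0, 2885⟩, ⟨289, 342, 2886, 2886⟩] :=
      rfl
    have e2 : bb 2 = ⟨0, 343, 0, 2886⟩ := rfl
    rcases hpc with rfl | rfl | rfl <;> simp at h1 hx hy <;> subst hx <;> subst hy
    · refine ⟨S, 0, by simp, by simp, ?_, ⟨0, 288, 0, 0⟩, ?_, ?_⟩
      · simp only [InBx, e2]; omega
      · simp [e1]
      · simp only [InBx]; omega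
    · refine ⟨289, S, by simp, by simp, ?_, ⟨289, 289, 0, 2885⟩, ?_, ?_⟩
      · simp only [InBx, e2]; omega
      · simp [e1]
      · simp only [InBx]; omega
    · refine ⟨289 + S, 2886, by simp, by simp, ?_, ⟨289, 342, 2886, 2886⟩, ?_, ?_⟩
      · simp only [InBx, e2]; omega
      · simp [e1]
      · simp only [InBx]; omega
  · simp only [runs, pcs, List.mem_cons, List.not_mem_nil, or_false] at hpc
    have e1 : pl 3 (r + 2 * p) = [⟨0, 296, 0, 0⟩, ⟨297, 297, 0, 4537⟩, ⟨297, 1466, 4538, 4538⟩] :=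
      rfl
    have e2 : bb 3 = ⟨0, 1467, 0, 4538⟩ := rfl
    rcases hpc with rfl | rfl | rfl <;> simp at h1 hx hy <;> subst hx <;> subst hy
    · refine ⟨S, 0, by simp, by simp, ?_, ⟨0, 296, 0, 0⟩, ?_, ?_⟩
      · simp only [InBx, e2]; omega
      · simp [e1]
      · simp only [InBx]; omega
    · refine ⟨297, S, by simp, by simp, ?_, ⟨297, 297, 0, 4537⟩, ?_, ?_⟩
      · simp only [InBx, e2]; omega
      · simp [e1]
      · simp only [InBx]; omega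
    · refine ⟨297 + S, 4538, by simp, by simp, ?_, ⟨297, 1466, 4538, 4538⟩, ?_, ?_⟩
      · simp only [InBx, e2]; omega
      · simp [e1]
      · simp only [InBx]; omega

theorem t1_sound {r l0 h0 l1 h1 l2 h2 a0 a1 a2 : ℕ} (k0 : l0 ≤ a0 ∧ a0 ≤ h0)
    (k1 : l1 ≤ a1 ∧ a1 ≤ h1) (k2 : l2 ≤ a2 ∧ a2 ≤ h2) (he : r + a0 + a2 = 1200000 + 2 * a1) :
    t1 r l0 h0 l1 h1 l2 h2 = true := by
  unfold t1
  simp only [Bool.and_eq_true, Nat.ble_eq, Nat.add_eq, Nat.mul_eq]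
  omega

theorem t3_sound {r l0 h0 l3 h3 lm hm a0 a3 m : ℕ} (k0 : l0 ≤ a0 ∧ a0 ≤ h0)
    (k1 : l3 ≤ a3 ∧ a3 ≤ h3) (k2 : lm ≤ m ∧ m ≤ hm) (he : r + a0 + 2 * a3 = 3600000 + 3 * m) :
    t3 r l0 h0 l3 h3 lm hm = true := by
  unfold t3
  simp only [Bool.and_eq_true, Nat.ble_eq, Nat.add_eq, Nat.mul_eq]
  omega

theorem p1_sound {r l0 h0 l2 h2 a0 a1 a2 : ℕ} (k0 : l0 ≤ a0 ∧ a0 ≤ h0)
    (k2 : l2 ≤ a2 ∧ a2 ≤ h2) (he : r + a0 + a2 = 1200000 + 2 * a1) :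
    p1 r l0 h0 l2 h2 = true := by
  have e : p1 r l0 h0 l2 h2 =
    ((ltb l0 h0 || ltb l2 h2) || Nat.beq ((r + (l0 + l2)) % 2) 0) := rfl
  rw [e, Bool.or_eq_true, Bool.or_eq_true, ltb_eq, ltb_eq, Nat.beq_eq]
  omega

theorem p3_sound {r l0 h0 l3 h3 a0 a3 m : ℕ} (k0 : l0 ≤ a0 ∧ a0 ≤ h0)
    (k1 : l3 ≤ a3 ∧ a3 ≤ h3) (he : r + a0 + 2 * a3 = 3600000 + 3 * m) :
    p3 r l0 h0 l3 h3 = true := by
  have e : p3 r l0 h0 l3 h3 =
    ((ltb l0 h0 || ltb l3 h3) || Nat.beq ((r + (l0 + 2 * l3)) % 3) 0) := rfl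
  rw [e, Bool.or_eq_true, Bool.or_eq_true, ltb_eq, ltb_eq, Nat.beq_eq]
  by_cases g0 : l0 < h0
  · exact Or.inl (Or.inl g0)
  by_cases g3 : l3 < h3
  · exact Or.inl (Or.inr g3)
  right
  have : a0 = l0 := by omega
  have : a3 = l3 := by omega
  subst a0
  subst a3
  omega

theorem T1_sound {r s : ℕ} {A B C : Bx} {x0 y0 x1 y1 x2 y2 : ℕ} (h0 : InBx A x0 y0)
    (h1 : InBx B x1 y1) (h2 : InBx C x2 y2) (hx : r + x0 + x2 = 1200000 + 2 * x1)
    (hy : s + y0 + y2 = 1200000 + 2 * y1) : T1 r s A B C = true := by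
  unfold T1
  rw [Bool.and_eq_true]
  exact ⟨t1_sound h0.1 h1.1 h2.1 hx, t1_sound h0.2 h1.2 h2.2 hy⟩

theorem T3_sound {r s : ℕ} {A D M : Bx} {x0 y0 x3 y3 xm ym : ℕ} (h0 : InBx A x0 y0)
    (h3 : InBx D x3 y3) (hm : InBx M xm ym) (hx : r + x0 + 2 * x3 = 3600000 + 3 * xm)
    (hy : s + y0 + 2 * y3 = 3600000 + 3 * ym) : T3 r s A D M = true := by
  unfold T3
  rw [Bool.and_eq_true]
  exact ⟨t3_sound h0.1 h3.1 hm.1 hx, t3_sound h0.2 h3.2 hm.2 hy⟩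

theorem xor_spec : ∀ a b c d : Fin 2,
    ((a.val + c.val) % 2 + (b.val + d.val) % 2) % 2 + 2 * ((a.val + c.val) % 2) =
    Nat.xor ((a.val + b.val) % 2 + 2 * a.val) ((c.val + d.val) % 2 + 2 * c.val) := by decide

theorem st_step {P0 R0 P1 R1 P2 R2 k : ℕ} (hP : (P2 : ℤ) = (decD k).z + 2 * P1 - P0)
    (hR : (R2 : ℤ) = (decD k).t + 2 * R1 - R0) : st P2 R2 = Nat.xor (st P0 R0) (del k) := by
  have hP' : (P2 : ℤ) = ((dZ k : ℤ) - 32) + 2 * P1 - P0 := hP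
  have hR' : (R2 : ℤ) = ((dT k : ℤ) - 32) + 2 * R1 - R0 := hR
  have e1 : P2 % 2 = (P0 % 2 + dZ k % 2) % 2 := by omega
  have e2 : R2 % 2 = (R0 % 2 + dT k % 2) % 2 := by omega
  have e3 : del k = (dZ k % 2 + dT k % 2) % 2 + 2 * (dZ k % 2) := by
    have h1 : del k = ((dZ k + dT k) &&& 1) + 2 * (dZ k &&& 1) := rfl
    rw [h1, Nat.and_one_is_mod, Nat.and_one_is_mod, Nat.add_mod]
  have e4 : (P2 + R2) % 2 = (P2 % 2 + R2 % 2) % 2 := Nat.add_mod _ _ _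
  have e5 : (P0 + R0) % 2 = (P0 % 2 + R0 % 2) % 2 := Nat.add_mod _ _ _
  unfold st
  rw [e3, e4, e5, e1, e2]
  exact xor_spec ⟨P0 % 2, Nat.mod_lt _ (by norm_num)⟩ ⟨R0 % 2, Nat.mod_lt _ (by norm_num)⟩
    ⟨dZ k % 2, Nat.mod_lt _ (by norm_num)⟩ ⟨dT k % 2, Nat.mod_lt _ (by norm_num)⟩

theorem st_lt (P R : ℕ) : st P R < 4 := by unfold st; omega

theorem pl_indep {a : ℕ} (ha : a ≠ 1) (ha4 : a < 4) (s s' : ℕ) : pl a s = pl a s' := by
  interval_cases a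
  · rfl
  · exact absurd rfl ha
  · rfl
  · rfl

/-- choice of a state to be considered -/
theorem sts_spec {a c : ℕ} (ha4 : a < 4) (hc4 : c < 4) {P R : ℕ} (u : ℕ) :
    ∃ p ∈ sts a c, pl a p = pl a (st P R) ∧ pl c (Nat.xor p u) = pl c (Nat.xor (st P R) u) := by
  by_cases h1 : a = 1 ∨ c = 1
  · refine ⟨st P R, ?_, rfl, rfl⟩
    have : sts a c = [0, 1, 2, 3] := by
      unfold sts
      have : (Nat.beq a 1 || Nat.beq c 1) = true := by
        rw [Bool.or_eq_true, Nat.beq_eq, Nat.beq_eq]; exact h1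
      rw [this]; rfl
    rw [this]
    have := st_lt P R
    simp only [List.mem_cons, List.not_mem_nil, or_false]
    omega
  · rw [not_or] at h1
    refine ⟨0, ?_, pl_indep h1.1 ha4 _ _, pl_indep h1.2 hc4 _ _⟩
    unfold sts
    cases (Nat.beq a 1 || Nat.beq c 1) <;> simp

theorem srch_sound {r1 s1 r2 s2 r3 s3 r4 s4 a b c d u v : ℕ} (ha : a < 4) (hb : b < 4)
    (hc : c < 4) (hd : d < 4) {P0 R0 P1 R1 : ℕ} {x0 y0 x1 y1 x2 y2 x3 y3 : ℕ}
    (h : srch r1 s1 r2 s2 r3 s3 r4 s4 a b c d u v = true)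
    (hr3 : r3 = r1 + 2 * r2) (hs3 : s3 = s1 + 2 * s2) (hr4 : r4 = 2 * r1 + r2)
    (hs4 : s4 = 2 * s1 + s2)
    (k0 : ∃ B ∈ pl a (st P0 R0), InBx B x0 y0) (k1 : ∃ B ∈ pl b (st P1 R1), InBx B x1 y1)
    (k2 : ∃ B ∈ pl c (Nat.xor (st P0 R0) u), InBx B x2 y2)
    (k3 : ∃ B ∈ pl d (Nat.xor (st P1 R1) v), InBx B x3 y3)
    (m2 : InBx (bb c) x2 y2) (m3 : InBx (bb d) x3 y3)
    (e1 : r1 + x0 + x2 = 1200000 + 2 * x1) (e1' : s1 + y0 + y2 = 1200000 + 2 * y1)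
    (e2 : r2 + x1 + x3 = 1200000 + 2 * x2) (e2' : s2 + y1 + y3 = 1200000 + 2 * y2) : False := by
  obtain ⟨A, hA, kA⟩ := k0
  obtain ⟨B, hB, kB⟩ := k1
  obtain ⟨C, hC, kC⟩ := k2
  obtain ⟨D, hD, kD⟩ := k3
  have e3 : r3 + x0 + 2 * x3 = 3600000 + 3 * x2 := by omega
  have e3' : s3 + y0 + 2 * y3 = 3600000 + 3 * y2 := by omega
  have e4 : r4 + x3 + 2 * x0 = 3600000 + 3 * x1 := by omega
  have e4' : s4 + y3 + 2 * y0 = 3600000 + 3 * y1 := by omega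
  obtain ⟨p, hp, hp1, hp2⟩ := sts_spec ha hc (P := P0) (R := R0) u
  obtain ⟨q, hq, hq1, hq2⟩ := sts_spec hb hd (P := P1) (R := R1) v
  unfold srch at h
  rw [allL_iff] at h
  have h := h p hp
  rw [allL_iff] at h
  have h := h q hq
  rw [allL_iff] at h
  have h := h A (by rw [hp1]; exact hA)
  rw [allL_iff] at h
  have h := h B (by rw [hq1]; exact hB)
  rw [T1_sound kA kB m2 e1 e1', T3_sound m3 kA kB e4 e4'] at h
  have h : (allL (pl c (Nat.xor p u)) fun C =>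
          or (not (and (T1 r1 s1 A B C) (and (T1 r2 s2 B C (bb d)) (T3 r3 s3 A (bb d) C))))
            (allL (pl d (Nat.xor q v)) fun D =>
              not (and (T1 r2 s2 B C D) (and (T3 r3 s3 A D C) (and (T3 r4 s4 D A B)
                (pall r1 s1 r2 s2 r3 s3 r4 s4 A B C D)))))) = true := h
  rw [allL_iff] at h
  have h := h C (by rw [hp2]; exact hC)
  rw [T1_sound kA kB kC e1 e1', T1_sound kB kC m3 e2 e2', T3_sound kA m3 kC e3 e3'] at h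
  have h : (allL (pl d (Nat.xor q v)) fun D =>
              not (and (T1 r2 s2 B C D) (and (T3 r3 s3 A D C) (and (T3 r4 s4 D A B)
                (pall r1 s1 r2 s2 r3 s3 r4 s4 A B C D))))) = true := h
  rw [allL_iff] at h
  have h := h D (by rw [hq2]; exact hD)
  rw [T1_sound kB kC kD e2 e2', T3_sound kA kD kC e3 e3', T3_sound kD kA kB e4 e4'] at h
  have hp : pall r1 s1 r2 s2 r3 s3 r4 s4 A B C D = true := by
    unfold pall
    rw [p1_sound kA.1 kC.1 e1, p1_sound kA.2 kC.2 e1', p1_sound kB.1 kD.1 e2,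
      p1_sound kB.2 kD.2 e2', p3_sound kA.1 kD.1 e3, p3_sound kA.2 kD.2 e3',
      p3_sound kD.1 kA.1 e4, p3_sound kD.2 kA.2 e4']
    rfl
  rw [hp] at h
  exact absurd h (by decide)

theorem rX_eq (k : ℕ) : (rX k : ℤ) = tx (decD k) + 1200000 := by
  have h1 : rX k = 5033 * dX k + 3073 * dY k + (343 * dZ k + 1467 * dT k) + 882688 := rfl
  rw [h1]
  simp only [tx, decD]
  push_cast
  ring

theorem rY_eq (k : ℕ) : (rY k : ℤ) = ty (decD k) + 1200000 := by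
  have h1 : rY k = 425 * dX k + 1606 * dY k + (2886 * dZ k + 4538 * dT k) + 897440 := rfl
  rw [h1]
  simp only [ty, decD]
  push_cast
  ring

theorem final (hF : allN 1001 (fun i => chkF (Nat.succ i)) = true) {q : Q} (hC : InC q)
    (hg : q.g = 3) (hS : Sol q) : False := by
  obtain ⟨-, i1, i2, hi, hT1, hT2⟩ := hC
  rw [hg] at hi
  obtain ⟨P0, P1, P2, P3, R0, R1, R2, R3, x0, y0, x1, y1, x2, y2, x3, y3, hP2, hP3, hR2, hR3,
    t0, t1, t2, t3, e1, e1', e2, e2'⟩ := hS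
  obtain ⟨X0, Y0, rfl, rfl, m0, k0⟩ := pt_piece t0
  obtain ⟨X1, Y1, rfl, rfl, m1, k1⟩ := pt_piece t1
  obtain ⟨X2, Y2, rfl, rfl, m2, k2⟩ := pt_piece t2
  obtain ⟨X3, Y3, rfl, rfl, m3, k3⟩ := pt_piece t3
  have hF := allN_spec _ _ hF (i1 - 1) (by have := hT1.h1; have := hT1.h2; omega)
  rw [Nat.succ_eq_add_one, Nat.sub_add_cancel hT1.h1] at hF
  have r1 := rX_eq (key i1)
  have s1 := rY_eq (key i1)
  have r2 := rX_eq (key i2)
  have s2 := rY_eq (key i2)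
  rw [hT1.hD] at r1 s1
  rw [hT2.hD] at r2 s2
  have E1 : rX (key i1) + X0 + X2 = 1200000 + 2 * X1 := by omega
  have E1' : rY (key i1) + Y0 + Y2 = 1200000 + 2 * Y1 := by omega
  have E2 : rX (key i2) + X1 + X3 = 1200000 + 2 * X2 := by omega
  have E2' : rY (key i2) + Y1 + Y3 = 1200000 + 2 * Y2 := by omega
  have b1 : bxt (key i1) = true := by
    unfold bxt
    rw [hT1.ha, hT1.hb, hT1.hc]
    exact T1_sound m0 m1 m2 E1 E1'
  have b2 : bxt (key i2) = true := by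
    unfold bxt
    rw [hT2.ha, hT2.hb, hT2.hc]
    exact T1_sound m1 m2 m3 E2 E2'
  unfold chkF at hF
  rw [b1] at hF
  have hF : (allL (row 3 i1) fun t => fin2 (key i1) (key t)) = true := hF
  rw [allL_iff] at hF
  have hF := hF i2 hi
  unfold fin2 at hF
  rw [b2, hT1.ha, hT1.hb, hT1.hc, hT2.hc] at hF
  have g3 : T3 (Nat.add (rX (key i1)) (Nat.mul 2 (rX (key i2))))
      (Nat.add (rY (key i1)) (Nat.mul 2 (rY (key i2)))) (bb q.a.val) (bb q.d.val) (bb q.c.val)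
      = true := by
    refine T3_sound m0 m3 m2 ?_ ?_
    · simp only [Nat.add_eq, Nat.mul_eq]; omega
    · simp only [Nat.add_eq, Nat.mul_eq]; omega
  have g4 : T3 (Nat.add (Nat.mul 2 (rX (key i1))) (rX (key i2)))
      (Nat.add (Nat.mul 2 (rY (key i1))) (rY (key i2))) (bb q.d.val) (bb q.a.val) (bb q.b.val)
      = true := by
    refine T3_sound m3 m0 m1 ?_ ?_
    · simp only [Nat.add_eq, Nat.mul_eq]; omega
    · simp only [Nat.add_eq, Nat.mul_eq]; omega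
  rw [g3, g4] at hF
  have st2 : st P2 R2 = Nat.xor (st P0 R0) (del (key i1)) := by
    apply st_step (P1 := P1) (R1 := R1)
    · rw [hT1.hD]; exact hP2
    · rw [hT1.hD]; exact hR2
  have st3 : st P3 R3 = Nat.xor (st P1 R1) (del (key i2)) := by
    apply st_step (P1 := P2) (R1 := R2)
    · rw [hT2.hD]; exact hP3
    · rw [hT2.hD]; exact hR3
  rw [st2] at k2
  rw [st3] at k3
  exact srch_sound q.a.isLt q.b.isLt q.c.isLt q.d.isLt hF rfl rfl rfl rfl k0 k1 k2 k3 m2 m3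
    E1 E1' E2 E2'

end Pool.Agent.Work.MP235410
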