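import Pool.Agent.Work.MP_235410_co.Cert1

/-!
# Kernel evaluation: closure of the adjacency lists
-/

set_option autoImplicit false
set_option maxRecDepth 100000

namespace Pool.Agent.Work.MP235410

theorem kB0 : allN 1001 (fun i => chkB 0 (Nat.succ i)) = true := by decide +kernel

theorem kB1 : allN 1001 (fun i => chkB 1 (Nat.succ i)) = true := by decide +kernel

theorem kB2 : allN 1001 (fun i => chkB 2 (Nat.succ i)) = true := by decide +kernel

theorem kB3 : allN 1001 (fun i => chkB 3 (Nat.succ i)) = true := by decide +kernel

end Pool.Agent.Work.MP235410
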