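import Pool.Agent.Work.MP_235410_co.Defs

set_option autoImplicit false

namespace Pool.Agent.Work.MP235410

namespace Words

/-- comparison of two positions of the same list -/
theorem cmp {α : Type*} {p p' s s' : List α} {a a' : α} (e : p ++ a :: s = p' ++ a' :: s') :
    (p = p' ∧ a = a') ∨ (∃ r, p' = p ++ a :: r) ∨ (∃ r, p = p' ++ a' :: r) := by
  rcases List.append_eq_append_iff.1 e with ⟨c, h1, h2⟩ | ⟨c, h1, h2⟩
  · cases c with
    | nil =>
      left
      simp only [List.append_nil] at h1
      simp only [List.nil_append, List.cons.injEq] at h2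
      exact ⟨h1.symm, h2.1⟩
    | cons x c =>
      right; left
      simp only [List.cons_append, List.cons.injEq] at h2
      exact ⟨c, by rw [h1, h2.1]⟩
  · cases c with
    | nil =>
      left
      simp only [List.append_nil] at h1
      simp only [List.nil_append, List.cons.injEq] at h2
      exact ⟨h1, h2.1.symm⟩
    | cons x c =>
      right; right
      simp only [List.cons_append, List.cons.injEq] at h2
      exact ⟨c, by rw [h1, h2.1]⟩

/-- positions in an image under the morphism -/
theorem pos_flatMap : ∀ (l p s : List (Fin 4)) (a : Fin 4), l.flatMap h = p ++ a :: s →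
    ∃ p' a' s' j, l = p' ++ a' :: s' ∧ j < (h a').length ∧ p = p'.flatMap h ++ (h a').take j ∧
      a = ltr a' j := by
  intro l
  induction l with
  | nil =>
    intro p s a e
    simp at e
  | cons b t ih =>
    intro p s a e
    rw [List.flatMap_cons] at e
    rcases List.append_eq_append_iff.1 e with ⟨c, h1, h2⟩ | ⟨c, h1, h2⟩
    · obtain ⟨p', a', s', j, e1, e2, e3, e4⟩ := ih c s a h2
      refine ⟨b :: p', a', s', j, by rw [e1]; rfl, e2, ?_, e4⟩
      rw [h1, e3, List.flatMap_cons, List.append_assoc]
    · cases c with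
      | nil =>
        simp only [List.append_nil] at h1
        simp only [List.nil_append] at h2
        obtain ⟨p', a', s', j, e1, e2, e3, e4⟩ := ih [] s a (by rw [← h2]; rfl)
        refine ⟨b :: p', a', s', j, by rw [e1]; rfl, e2, ?_, e4⟩
        rw [List.flatMap_cons, List.append_assoc, ← e3, List.append_nil, h1]
      | cons x c =>
        simp only [List.cons_append, List.cons.injEq] at h2
        obtain ⟨rfl, h2⟩ := h2
        refine ⟨[], b, t, p.length, rfl, ?_, ?_, ?_⟩
        · rw [h1]; simp
        · rw [h1]; simp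
        · unfold ltr
          rw [h1]; simp

theorem cv_append (l l' : List (Fin 4)) : cv (l ++ l') =
    ⟨(cv l).x + (cv l').x, (cv l).y + (cv l').y, (cv l).z + (cv l').z, (cv l).t + (cv l').t⟩ := by
  unfold cv
  simp only [List.count_append, Nat.cast_add]

theorem cv_flatMap (l : List (Fin 4)) : cv (l.flatMap h) = mulM (cv l) := by
  induction l with
  | nil => rfl
  | cons b t ih =>
    rw [List.flatMap_cons, cv_append, ih]
    have e : b :: t = [b] ++ t := rfl
    rw [e, cv_append]
    fin_cases b <;> (apply V.ext <;> simp [cv, h, mulM] <;> try ring)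

theorem length_h (a : Fin 4) : 2 ≤ (h a).length ∧ (h a).length ≤ 4 := by
  fin_cases a <;> simp [h]

theorem length_flatMap (l : List (Fin 4)) : 2 * l.length ≤ (l.flatMap h).length := by
  induction l with
  | nil => simp
  | cons b t ih =>
    rw [List.flatMap_cons, List.length_append, List.length_cons]
    have := (length_h b).1
    omega

theorem length_take_h {a : Fin 4} {j : ℕ} (hj : j < (h a).length) :
    ((h a).take j).length = j := by
  rw [List.length_take]; omega

/-- a template of four positions of an iterate -/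
def tpl (p0 p1 p2 p3 : List (Fin 4)) (a0 a1 a2 a3 : Fin 4) : Q :=
  ⟨min 3 (p1.length - p0.length), a0, a1, a2, a3,
    comb ⟨0, 0, 0, 0⟩ (cv p0) (cv p1) (cv p2), comb ⟨0, 0, 0, 0⟩ (cv p1) (cv p2) (cv p3)⟩

theorem comb_child (p0 p1 p2 q0 q1 q2 : List (Fin 4)) :
    comb (mulM (comb ⟨0, 0, 0, 0⟩ (cv p0) (cv p1) (cv p2))) (cv q0) (cv q1) (cv q2) =
    comb ⟨0, 0, 0, 0⟩ (cv (p0.flatMap h ++ q0)) (cv (p1.flatMap h ++ q1))
      (cv (p2.flatMap h ++ q2)) := by
  simp only [cv_append, cv_flatMap]
  apply V.ext <;> simp only [comb, mulM] <;> ring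

theorem reach (n : ℕ) : ∀ (p0 p1 p2 p3 s0 s1 s2 s3 : List (Fin 4)) (a0 a1 a2 a3 : Fin 4),
    U n = p0 ++ a0 :: s0 → U n = p1 ++ a1 :: s1 → U n = p2 ++ a2 :: s2 → U n = p3 ++ a3 :: s3 →
    p0.length ≤ p1.length → Reach (tpl p0 p1 p2 p3 a0 a1 a2 a3) := by
  induction n with
  | zero =>
    intro p0 p1 p2 p3 s0 s1 s2 s3 a0 a1 a2 a3 e0 e1 e2 e3 hle
    have key : ∀ (p s : List (Fin 4)) (a : Fin 4), U 0 = p ++ a :: s → p = [] ∧ a = 0 := by
      intro p s a e
      cases p with
      | nil =>
        simp only [U, List.nil_append, List.cons.injEq] at e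
        exact ⟨rfl, e.1.symm⟩
      | cons x p => simp [U] at e
    obtain ⟨rfl, rfl⟩ := key _ _ _ e0
    obtain ⟨rfl, rfl⟩ := key _ _ _ e1
    obtain ⟨rfl, rfl⟩ := key _ _ _ e2
    obtain ⟨rfl, rfl⟩ := key _ _ _ e3
    exact Reach.root
  | succ n ih =>
    intro p0 p1 p2 p3 s0 s1 s2 s3 a0 a1 a2 a3 e0 e1 e2 e3 hle
    obtain ⟨p0', b0, s0', j0, f0, hj0, rfl, rfl⟩ := pos_flatMap (U n) p0 s0 a0 e0
    obtain ⟨p1', b1, s1', j1, f1, hj1, rfl, rfl⟩ := pos_flatMap (U n) p1 s1 a1 e1
    obtain ⟨p2', b2, s2', j2, f2, hj2, rfl, rfl⟩ := pos_flatMap (U n) p2 s2 a2 e2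
    obtain ⟨p3', b3, s3', j3, f3, hj3, rfl, rfl⟩ := pos_flatMap (U n) p3 s3 a3 e3
    rw [List.length_append, List.length_append, length_take_h hj0, length_take_h hj1] at hle
    have main : p0'.length ≤ p1'.length ∧ (p1'.length - p0'.length = 0 → j0 ≤ j1) ∧
        min 3 ((p1'.flatMap h).length + j1 - ((p0'.flatMap h).length + j0)) =
        gstep (min 3 (p1'.length - p0'.length)) (h b0).length j0 j1 := by
      have l0 := length_h b0
      have l1 := length_h b1
      rcases cmp (f0.symm.trans f1) with ⟨rfl, rfl⟩ | ⟨r, rfl⟩ | ⟨r, rfl⟩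
      · refine ⟨le_refl _, fun _ => by omega, ?_⟩
        simp only [gstep, Nat.sub_self, Nat.min_zero, if_true]
        omega
      · cases r with
        | nil =>
          have e1 : (p0' ++ [b0]).length - p0'.length = 1 := by simp
          have e2 : ((p0' ++ [b0]).flatMap h).length = (p0'.flatMap h).length + (h b0).length := by
            simp
          rw [e1, e2]
          refine ⟨by simp, fun h => by omega, ?_⟩
          simp only [gstep]
          norm_num
          omega
        | cons c r =>
          have lc := length_h c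
          have e1 : (p0' ++ b0 :: c :: r).length - p0'.length = r.length + 2 := by
            simp
          have e2 : ((p0' ++ b0 :: c :: r).flatMap h).length =
              (p0'.flatMap h).length + (h b0).length + (h c).length + (r.flatMap h).length := by
            simp only [List.flatMap_append, List.flatMap_cons, List.length_append]; omega
          rw [e1, e2]
          refine ⟨by simp, fun h => by omega, ?_⟩
          unfold gstep
          split_ifs <;> omega
      · exfalso
        have e2 : ((p1' ++ b1 :: r).flatMap h).length =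
            (p1'.flatMap h).length + (h b1).length + (r.flatMap h).length := by
          simp only [List.flatMap_append, List.flatMap_cons, List.length_append]; omega
        omega
    obtain ⟨m1, m2, m3⟩ := main
    have hr := ih p0' p1' p2' p3' s0' s1' s2' s3' b0 b1 b2 b3 f0 f1 f2 f3 m1
    have hs := Reach.step _ j0 j1 j2 j3 hr hj0 hj1 hj2 hj3 (by
      intro hg
      apply m2
      simp only [tpl] at hg
      omega)
    have he : tpl (p0'.flatMap h ++ (h b0).take j0) (p1'.flatMap h ++ (h b1).take j1)
        (p2'.flatMap h ++ (h b2).take j2) (p3'.flatMap h ++ (h b3).take j3)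
        (ltr b0 j0) (ltr b1 j1) (ltr b2 j2) (ltr b3 j3) =
        child (tpl p0' p1' p2' p3' b0 b1 b2 b3) j0 j1 j2 j3 := by
      unfold child
      simp only [tpl, psi, comb_child, List.length_append, length_take_h hj0, length_take_h hj1, m3]
    rw [he]
    exact hs

theorem tx_comb (u v x : V) : tx (comb ⟨0, 0, 0, 0⟩ u v x) = tx u - 2 * tx v + tx x := by
  simp only [tx, comb]; ring

theorem ty_comb (u v x : V) : ty (comb ⟨0, 0, 0, 0⟩ u v x) = ty u - 2 * ty v + ty x := by
  simp only [ty, comb]; ring

/-- the iterates extend each other -/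
theorem U_step (n : ℕ) : ∃ r, U (n + 1) = U n ++ r := by
  induction n with
  | zero => exact ⟨[0, 1], rfl⟩
  | succ n ih =>
    obtain ⟨r, hr⟩ := ih
    refine ⟨r.flatMap h, ?_⟩
    show (U (n + 1)).flatMap h = (U n).flatMap h ++ r.flatMap h
    rw [hr, List.flatMap_append]

theorem U_le {n m : ℕ} (hnm : n ≤ m) : ∃ r, U m = U n ++ r := by
  induction m, hnm using Nat.le_induction with
  | base => exact ⟨[], by simp⟩
  | succ m _ ih =>
    obtain ⟨r, hr⟩ := ih
    obtain ⟨r', hr'⟩ := U_step m
    exact ⟨r ++ r', by rw [hr', hr, List.append_assoc]⟩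

theorem length_U (n : ℕ) : n < (U n).length := by
  have : 2 ^ n ≤ (U n).length := by
    induction n with
    | zero => simp [U]
    | succ n ih =>
      have h1 := length_flatMap (U n)
      show 2 ^ (n + 1) ≤ ((U n).flatMap h).length
      rw [pow_succ]; omega
  exact lt_of_lt_of_le Nat.lt_two_pow_self this

theorem code_append (P R : ℕ) (l l' : List (Fin 4)) :
    code P R (l ++ l') = code P R l ++ code (P + l.count 2) (R + l.count 3) l' := by
  induction l generalizing P R with
  | nil => simp [code]
  | cons a l ih =>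
    rw [List.cons_append]
    show blk a P R ++ code _ _ (l ++ l') = (blk a P R ++ code _ _ l) ++ _
    rw [ih, List.append_assoc]
    congr 3
    · rw [List.count_cons]
      fin_cases a <;> simp
      omega
    · rw [List.count_cons]
      fin_cases a <;> simp
      omega

/-- number of zeros of a block -/
def z0 : Fin 4 → ℕ
  | 0 => 5033
  | 1 => 3073
  | 2 => 343
  | 3 => 1467

/-- number of ones of a block -/
def z1 : Fin 4 → ℕ
  | 0 => 425
  | 1 => 1606
  | 2 => 2886
  | 3 => 4538

theorem count_runs (b : Bool) (rs : List (Bool × ℕ)) :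
    (rs.flatMap fun r => List.replicate r.2 r.1).count b =
      (rs.map fun r => if r.1 = b then r.2 else 0).sum := by
  induction rs with
  | nil => rfl
  | cons x r ih =>
    rw [List.flatMap_cons, List.count_append, ih, List.map_cons, List.sum_cons,
      List.count_replicate]
    simp

theorem count_blk (a : Fin 4) (P R : ℕ) :
    (blk a P R).count false = z0 a ∧ (blk a P R).count true = z1 a := by
  have h1 : (P + R) % 2 < 2 := Nat.mod_lt _ (by norm_num)
  have h2 : P % 2 < 2 := Nat.mod_lt _ (by norm_num)
  unfold blk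
  rw [count_runs, count_runs]
  fin_cases a
  · simp [runs, z0, z1]
  · simp only [runs, z0, z1, List.map_cons, List.map_nil, List.sum_cons, List.sum_nil]
    simp
    omega
  · simp [runs, z0, z1]
  · simp [runs, z0, z1]

theorem length_blk (a : Fin 4) (P R : ℕ) : (blk a P R).length = z0 a + z1 a := by
  obtain ⟨h1, h2⟩ := count_blk a P R
  have h3 := List.count_true_add_count_false (blk a P R)
  omega

theorem z_le (a : Fin 4) : 0 < z0 a + z1 a ∧ z0 a + z1 a ≤ 6005 := by
  fin_cases a <;> simp [z0, z1]

theorem tx_cons (a : Fin 4) (l : List (Fin 4)) : tx (cv (a :: l)) = z0 a + tx (cv l) := by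
  have e : a :: l = [a] ++ l := rfl
  rw [e, cv_append]
  fin_cases a <;> (simp [tx, cv, z0]; ring)

theorem ty_cons (a : Fin 4) (l : List (Fin 4)) : ty (cv (a :: l)) = z1 a + ty (cv l) := by
  have e : a :: l = [a] ++ l := rfl
  rw [e, cv_append]
  fin_cases a <;> (simp [ty, cv, z1]; ring)

theorem count_code (l : List (Fin 4)) : ∀ P R : ℕ,
    ((code P R l).count false : ℤ) = tx (cv l) ∧ ((code P R l).count true : ℤ) = ty (cv l) := by
  induction l with
  | nil => intro P R; simp [code, tx, ty, cv]
  | cons a l ih =>
    intro P R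
    obtain ⟨h1, h2⟩ := count_blk a P R
    obtain ⟨h3, h4⟩ := ih (if a = 2 then P + 1 else P) (if a = 3 then R + 1 else R)
    rw [tx_cons, ty_cons]
    simp only [code, List.count_append]
    push_cast
    rw [h1, h2, h3, h4]
    exact ⟨rfl, rfl⟩

theorem pos_code (l : List (Fin 4)) : ∀ (P R t : ℕ), t < (code P R l).length →
    ∃ p a s j, l = p ++ a :: s ∧ j < (blk a (P + p.count 2) (R + p.count 3)).length ∧
      (code P R l).take t = code P R p ++ (blk a (P + p.count 2) (R + p.count 3)).take j := by
  induction l with
  | nil => intro P R t ht; simp [code] at ht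
  | cons b l ih =>
    intro P R t ht
    have hcode : code P R (b :: l) = blk b P R ++
        code (if b = 2 then P + 1 else P) (if b = 3 then R + 1 else R) l := rfl
    by_cases hb : t < (blk b P R).length
    · refine ⟨[], b, l, t, rfl, by simpa using hb, ?_⟩
      rw [hcode, List.take_append_of_le_length hb.le]
      simp [code]
    · rw [not_lt] at hb
      rw [hcode, List.length_append] at ht
      obtain ⟨p, a, s, j, h1, h2, h3⟩ := ih (if b = 2 then P + 1 else P)
        (if b = 3 then R + 1 else R) (t - (blk b P R).length) (by omega)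
      have e2 : (if b = 2 then P + 1 else P) + p.count 2 = P + (b :: p).count 2 := by
        rw [List.count_cons]
        by_cases h : b = 2
        · simp [h]; omega
        · simp [h]
      have e3 : (if b = 3 then R + 1 else R) + p.count 3 = R + (b :: p).count 3 := by
        rw [List.count_cons]
        by_cases h : b = 3
        · simp [h]; omega
        · simp [h]
      rw [e2, e3] at h2 h3
      refine ⟨b :: p, a, s, j, by rw [h1]; rfl, h2, ?_⟩
      rw [hcode, List.take_append, List.take_of_length_le hb, h3, ← List.append_assoc]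
      rfl

theorem pt_runs (rs : List (Bool × ℕ)) : ∀ (x y : ℤ) (j : ℕ),
    j < (rs.flatMap fun r => List.replicate r.2 r.1).length →
    ∃ pc ∈ pcs x y rs, ∃ s : ℤ, 0 ≤ s ∧ s < pc.l ∧
      x + (((rs.flatMap fun r => List.replicate r.2 r.1).take j).count false : ℕ) =
        (if pc.d then pc.x else pc.x + s) ∧
      y + (((rs.flatMap fun r => List.replicate r.2 r.1).take j).count true : ℕ) =
        (if pc.d then pc.y + s else pc.y) := by
  induction rs with
  | nil => intro x y j hj; simp at hj
  | cons bn r ih =>
    obtain ⟨b, n⟩ := bn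
    intro x y j hj
    rw [List.flatMap_cons] at hj ⊢
    by_cases hjn : j < n
    · refine ⟨⟨b, x, y, n⟩, by simp [pcs], j, by positivity,
        by show (j : ℤ) < (n : ℤ); exact_mod_cast hjn, ?_⟩
      rw [List.take_append_of_le_length (by simpa using hjn.le), List.take_replicate,
        min_eq_left hjn.le]
      cases b <;> simp [List.count_replicate]
    · rw [not_lt] at hjn
      rw [List.length_append, List.length_replicate] at hj
      obtain ⟨pc, hpc, s, h0, h1, h2, h3⟩ := ih (if b then x else x + n) (if b then y + n else y)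
        (j - n) (by omega)
      refine ⟨pc, by simp only [pcs, List.mem_cons]; exact Or.inr hpc, s, h0, h1, ?_⟩
      rw [List.take_append, List.take_of_length_le (by simpa using hjn), List.length_replicate,
        List.count_append, List.count_append, ← h2, ← h3]
      cases b <;> simp [List.count_replicate] <;> ring_nf

theorem pt_blk {a : Fin 4} {P R j : ℕ} (hj : j < (blk a P R).length) :
    Pt a P R (((blk a P R).take j).count false : ℕ) (((blk a P R).take j).count true : ℕ) := by
  obtain ⟨pc, hpc, s, h0, h1, h2, h3⟩ := pt_runs (runs a P R) 0 0 j hj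
  rw [zero_add] at h2 h3
  exact ⟨pc, hpc, s, h0, h1, h2, h3⟩

/-- the coded iterates -/
def W (m : ℕ) : List Bool := code 0 0 (U m)

theorem length_code (l : List (Fin 4)) : ∀ P R : ℕ,
    l.length ≤ (code P R l).length ∧ (code P R l).length ≤ 6005 * l.length ∧
      ((code P R l).length : ℤ) = tx (cv l) + ty (cv l) := by
  intro P R
  obtain ⟨h1, h2⟩ := count_code l P R
  have h3 := List.count_true_add_count_false (code P R l)
  have h4 : ((code P R l).length : ℤ) = tx (cv l) + ty (cv l) := by
    rw [← h1, ← h2, ← h3]; push_cast; ring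
  have h5 : ∀ l : List (Fin 4), (l.length : ℤ) ≤ tx (cv l) + ty (cv l) ∧
      tx (cv l) + ty (cv l) ≤ 6005 * l.length := by
    intro l
    induction l with
    | nil => simp [tx, ty, cv]
    | cons a l ih =>
      rw [tx_cons, ty_cons, List.length_cons]
      have := z_le a
      push_cast
      omega
  have h6 := h5 l
  refine ⟨by omega, by omega, h4⟩

theorem lt_length_W (m : ℕ) : m < (W m).length :=
  lt_of_lt_of_le (length_U m) (length_code (U m) 0 0).1

theorem W_le {n m : ℕ} (hnm : n ≤ m) : ∃ r, W m = W n ++ r := by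
  obtain ⟨r, hr⟩ := U_le hnm
  unfold W
  rw [hr, code_append]
  exact ⟨_, rfl⟩

theorem w_eq {m t : ℕ} (ht : t < (W m).length) : w t = (W m).getD t false := by
  show (W t).getD t false = _
  have ht' := lt_length_W t
  rcases le_total t m with h | h
  · obtain ⟨r, hr⟩ := W_le h
    rw [hr, List.getD_append _ _ _ _ ht']
  · obtain ⟨r, hr⟩ := W_le h
    rw [hr, List.getD_append _ _ _ _ ht]

theorem card_filter (m : ℕ) : ∀ t, t ≤ (W m).length →
    ((Finset.range t).filter (fun j => w j = true)).card = ((W m).take t).count true := by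
  intro t
  induction t with
  | zero => intro _; simp
  | succ t ih =>
    intro ht
    have ht' : t < (W m).length := ht
    rw [Finset.range_add_one, Finset.filter_insert, List.take_add_one, List.count_append,
      ← ih (by omega)]
    have h1 : w t = (W m)[t] := by
      rw [w_eq ht', List.getD_eq_getElem _ _ ht']
    rw [List.getElem?_eq_getElem ht', ← h1]
    by_cases h2 : w t = true
    · rw [if_pos h2, Finset.card_insert_of_notMem (by simp), h2]
      simp
    · rw [if_neg h2]
      have h3 : w t = false := by simpa using h2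
      rw [h3]
      simp

theorem card_Ico {a b : ℕ} (hab : a ≤ b) :
    ((Finset.Ico a b).filter (fun j => w j = true)).card +
      ((Finset.range a).filter (fun j => w j = true)).card =
      ((Finset.range b).filter (fun j => w j = true)).card := by
  rw [← Finset.card_union_of_disjoint, ← Finset.filter_union]
  · congr 2
    ext x
    simp only [Finset.mem_union, Finset.mem_Ico, Finset.mem_range]
    omega
  · rw [Finset.disjoint_left]
    intro x hx hx'
    simp only [Finset.mem_filter, Finset.mem_Ico, Finset.mem_range] at hx hx'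
    omega

/-- the data of a position -/
theorem pos_data {m t : ℕ} (ht : t < (W m).length) : ∃ (p s : List (Fin 4)) (a : Fin 4) (x y : ℕ),
    U m = p ++ a :: s ∧ Pt a (p.count 2) (p.count 3) x y ∧
    (((W m).take t).count true : ℤ) = ty (cv p) + y ∧
    (t : ℤ) - (((W m).take t).count true : ℤ) = tx (cv p) + x ∧
    x + y < 6005 ∧ x + y < z0 a + z1 a := by
  obtain ⟨p, a, s, j, h1, h2, h3⟩ := pos_code (U m) 0 0 t ht
  rw [zero_add, zero_add] at h2 h3
  have h3' : (W m).take t = code 0 0 p ++ (blk a (p.count 2) (p.count 3)).take j := h3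
  obtain ⟨c1, c2⟩ := count_code p 0 0
  have hlen := congrArg List.length h3'
  rw [List.length_take, List.length_append, List.length_take, min_eq_left ht.le,
    min_eq_left h2.le] at hlen
  have hj := List.count_true_add_count_false ((blk a (p.count 2) (p.count 3)).take j)
  rw [List.length_take, min_eq_left h2.le] at hj
  have hl := (length_code p 0 0).2.2
  have hb := length_blk a (p.count 2) (p.count 3)
  have hz := z_le a
  refine ⟨p, s, a, _, _, h1, pt_blk h2, ?_, ?_, by omega, by omega⟩
  · rw [h3', List.count_append]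
    push_cast
    rw [c2]
  · rw [h3', List.count_append]
    push_cast
    rw [c2]
    have : (t : ℤ) = ((code 0 0 p).length : ℤ) + j := by exact_mod_cast hlen
    rw [this, hl]
    have : (j : ℤ) = (((blk a (p.count 2) (p.count 3)).take j).count true : ℤ) +
        (((blk a (p.count 2) (p.count 3)).take j).count false : ℤ) := by exact_mod_cast hj.symm
    linarith

end Words

open Words in
theorem cube_sol (i n : ℕ) (hn : 18015 ≤ n)
    (h1 : ((Finset.Ico i (i + n)).filter (fun j => w j = true)).card =
      ((Finset.Ico (i + n) (i + 2 * n)).filter (fun j => w j = true)).card)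
    (h2 : ((Finset.Ico (i + n) (i + 2 * n)).filter (fun j => w j = true)).card =
      ((Finset.Ico (i + 2 * n) (i + 3 * n)).filter (fun j => w j = true)).card) :
    ∃ q : Q, Reach q ∧ q.g = 3 ∧ Sol q := by
  obtain ⟨m, hmdef⟩ : ∃ m, m = i + 3 * n := ⟨_, rfl⟩
  have hm := lt_length_W m
  have k1 := card_Ico (a := i) (b := i + n) (by omega)
  have k2 := card_Ico (a := i + n) (b := i + 2 * n) (by omega)
  have k3 := card_Ico (a := i + 2 * n) (b := i + 3 * n) (by omega)
  rw [card_filter m i (by omega), card_filter m (i + n) (by omega)] at k1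
  rw [card_filter m (i + n) (by omega), card_filter m (i + 2 * n) (by omega)] at k2
  rw [card_filter m (i + 2 * n) (by omega), card_filter m (i + 3 * n) (by omega)] at k3
  obtain ⟨p0, s0, a0, x0, y0, e0, q0, f0, g0, l0, m0⟩ := pos_data (m := m) (t := i) (by omega)
  obtain ⟨p1, s1, a1, x1, y1, e1, q1, f1, g1, l1, m1⟩ := pos_data (m := m) (t := i + n) (by omega)
  obtain ⟨p2, s2, a2, x2, y2, e2, q2, f2, g2, l2, m2⟩ :=
    pos_data (m := m) (t := i + 2 * n) (by omega)
  obtain ⟨p3, s3, a3, x3, y3, e3, q3, f3, g3, l3, m3⟩ :=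
    pos_data (m := m) (t := i + 3 * n) (by omega)
  push_cast at g0 g1 g2 g3
  have lc0 := length_code p0 0 0
  have lc1 := length_code p1 0 0
  -- the gap
  have gap : p0.length + 3 ≤ p1.length := by
    by_contra hlt
    rw [not_le] at hlt
    rcases cmp (e0.symm.trans e1) with ⟨h, h'⟩ | ⟨r, h⟩ | ⟨r, h⟩
    · rw [h] at f0 g0
      omega
    · have hr : r.length ≤ 1 := by
        rw [h, List.length_append, List.length_cons] at hlt
        omega
      have hh : cv p1 = cv (p0 ++ a0 :: r) := by rw [h]
      have t1 : tx (cv p1) + ty (cv p1) = tx (cv p0) + ty (cv p0) + (tx (cv (a0 :: r)) +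
          ty (cv (a0 :: r))) := by
        rw [hh, cv_append]; simp only [tx, ty]; ring
      have lr := length_code (a0 :: r) 0 0
      rw [List.length_cons] at lr
      omega
    · have hh : cv p0 = cv (p1 ++ a1 :: r) := by rw [h]
      have t1 : tx (cv p0) + ty (cv p0) = tx (cv p1) + ty (cv p1) + (tx (cv (a1 :: r)) +
          ty (cv (a1 :: r))) := by
        rw [hh, cv_append]; simp only [tx, ty]; ring
      rw [tx_cons, ty_cons] at t1
      have lr := length_code r 0 0
      omega
  refine ⟨tpl p0 p1 p2 p3 a0 a1 a2 a3,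
    reach m p0 p1 p2 p3 s0 s1 s2 s3 a0 a1 a2 a3 e0 e1 e2 e3 (by omega), ?_, ?_⟩
  · show min 3 (p1.length - p0.length) = 3
    omega
  · refine ⟨p0.count 2, p1.count 2, p2.count 2, p3.count 2, p0.count 3, p1.count 3, p2.count 3,
      p3.count 3, x0, y0, x1, y1, x2, y2, x3, y3, ?_, ?_, ?_, ?_, q0, q1, q2, q3, ?_, ?_, ?_, ?_⟩
    · simp only [tpl, comb, cv]; ring
    · simp only [tpl, comb, cv]; ring
    · simp only [tpl, comb, cv]; ring
    · simp only [tpl, comb, cv]; ring
    · show tx (comb _ _ _ _) + _ - _ + _ = 0
      rw [tx_comb]; omega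
    · show ty (comb _ _ _ _) + _ - _ + _ = 0
      rw [ty_comb]; omega
    · show tx (comb _ _ _ _) + _ - _ + _ = 0
      rw [tx_comb]; omega
    · show ty (comb _ _ _ _) + _ - _ + _ = 0
      rw [ty_comb]; omega

end Pool.Agent.Work.MP235410
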