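import Pool.Agent.Work.MP_235410_co.KA
import Pool.Agent.Work.MP_235410_co.KB
import Pool.Agent.Work.MP_235410_co.KF
import Pool.Agent.Work.MP_235410_co.Fin1
import Pool.Agent.Work.MP_235410_co.Words

/-!
# No long abelian cubes
-/

set_option autoImplicit false

namespace Pool.Agent.Work.MP235410

theorem chk : Chk := by
  refine ⟨kK, kA, ?_⟩
  intro g hg
  interval_cases g
  · exact kB0
  · exact kB1
  · exact kB2
  · exact kB3

/-- no template realised in the base word with distant positions has a solution -/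
theorem no_sol {q : Q} (hq : Reach q) (hg : q.g = 3) : ¬ Sol q := by
  intro hS
  obtain ⟨hD, hE, hC | hI | hI⟩ := closure chk hq
  · exact final kF hC hg hS
  · obtain ⟨P0, P1, P2, P3, R0, R1, R2, R3, x0, y0, x1, y1, x2, y2, x3, y3, hP2, hP3, hR2, hR3,
      t0, t1, t2, t3, e1, e1', e2, e2'⟩ := hS
    exact sol_not_irr hD t0 t1 t2 e1 e1' hI
  · obtain ⟨P0, P1, P2, P3, R0, R1, R2, R3, x0, y0, x1, y1, x2, y2, x3, y3, hP2, hP3, hR2, hR3,
      t0, t1, t2, t3, e1, e1', e2, e2'⟩ := hS
    exact sol_not_irr hE t1 t2 t3 e2 e2' hI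

/-- the word `w` has no abelian cube of period at least `18015` -/
theorem no_long_abelian_cube (i n : ℕ) (hn : 18015 ≤ n) :
    ¬ ((((Finset.Ico i (i + n)).filter (fun j => w j = true)).card =
            ((Finset.Ico (i + n) (i + 2 * n)).filter (fun j => w j = true)).card) ∧
         (((Finset.Ico (i + n) (i + 2 * n)).filter (fun j => w j = true)).card =
            ((Finset.Ico (i + 2 * n) (i + 3 * n)).filter (fun j => w j = true)).card)) := by
  rintro ⟨h1, h2⟩
  obtain ⟨q, hq, hg, hS⟩ := cube_sol i n hn h1 h2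
  exact no_sol hq hg hS

end Pool.Agent.Work.MP235410
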