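import Mathlib

/-!
# Containers for the closure certificate
-/

set_option autoImplicit false

namespace Pool.Agent.Work.MP235410

/-- binary tries of numbers -/
inductive BT : Type
  | lf (n : ℕ) : BT
  | nd (l r : BT) : BT

/-- binary tries of lists -/
inductive LT : Type
  | lf (n : List ℕ) : LT
  | nd (l r : LT) : LT

/-- look-up, least significant digit first -/
noncomputable def BT.get (t : BT) : ℕ → ℕ :=
  BT.rec (motive := fun _ => ℕ → ℕ) (fun n _ => n)
    (fun _ _ f g i => cond (Nat.beq (Nat.land i 1) 0) (f (Nat.shiftRight i 1))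
      (g (Nat.shiftRight i 1))) t

/-- look-up, least significant digit first -/
noncomputable def LT.get (t : LT) : ℕ → List ℕ :=
  LT.rec (motive := fun _ => ℕ → List ℕ) (fun n _ => n)
    (fun _ _ f g i => cond (Nat.beq (Nat.land i 1) 0) (f (Nat.shiftRight i 1))
      (g (Nat.shiftRight i 1))) t

end Pool.Agent.Work.MP235410
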