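import Pool.Agent.Work.MP_235410_co.Cert0

/-!
# Certificate data (generated)
-/

set_option autoImplicit false
set_option maxRecDepth 100000

namespace Pool.Agent.Work.MP235410

/-- adjacency lists of gap class 0 -/
noncomputable def rowT0 : LT :=
(.nd (.nd (.nd (.nd (.nd (.lf [])
(.nd (.nd (.lf [])
(.nd (.nd (.nd (.lf [171,181,194,205,210,230])
(.lf []))
(.lf []))
(.lf [])))
(.lf [])))
(.nd (.nd (.lf [])
(.nd (.nd (.nd (.nd (.lf [120,124,125,133,134,142,153,160,164])
(.lf []))
(.lf []))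
(.lf []))
(.lf [])))
(.nd (.nd (.nd (.lf [])
(.nd (.lf [])
(.nd (.lf [397,398,405,408,412,415,419,423])
(.lf []))))
(.lf []))
(.nd (.nd (.nd (.nd (.lf [119,125,128,132,135,143,147,154])
(.lf []))
(.lf []))
(.lf []))
(.lf [])))))
(.nd (.nd (.nd (.lf [])
(.nd (.nd (.nd (.nd (.lf [121,125,131,132,135,138,144,157,164])
(.lf []))
(.lf []))
(.lf []))
(.nd (.lf [])
(.nd (.lf [])
(.nd (.lf [])
(.lf [959,962,970,982,984,994,997]))))))
(.lf []))
(.nd (.lf [])
(.nd (.nd (.nd (.lf [])
(.nd (.nd (.lf [])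
(.lf [613,617,619,626,629,639]))
(.nd (.lf [431,440,445,452,453,456,462])
(.lf []))))
(.lf []))
(.lf [])))))
(.nd (.nd (.nd (.nd (.lf [])
(.nd (.lf [])
(.nd (.lf [])
(.nd (.lf [])
(.nd (.lf [])
(.lf [943,968,981,983,993,996]))))))
(.lf []))
(.lf []))
(.nd (.nd (.nd (.nd (.nd (.lf [])
(.nd (.nd (.lf [])
(.lf [520,537,552,572,581,591]))
(.lf [])))
(.lf []))
(.lf []))
(.nd (.nd (.lf [])
(.nd (.lf [])
(.nd (.lf [])
(.nd (.lf [])
(.lf [883,884,906,907,918,919,920,929,932,933])))))
(.lf [])))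
(.nd (.nd (.nd (.nd (.lf [])
(.nd (.lf [])
(.nd (.lf [319,328,339,344,356,357])
(.lf []))))
(.lf []))
(.nd (.nd (.lf [])
(.nd (.nd (.lf [])
(.lf [720,733,735,736,737,749,750]))
(.lf [])))
(.lf [])))
(.nd (.lf [])
(.nd (.nd (.nd (.nd (.lf [172,181,194,208,228,238])
(.lf []))
(.lf []))
(.lf []))
(.lf [])))))))
(.nd (.nd (.nd (.nd (.nd (.lf [])
(.nd (.nd (.nd (.nd (.lf [3,13,21,29,30,42,51,63,69,88,101])
(.lf []))
(.lf []))
(.lf []))
(.nd (.nd (.nd (.lf [247,258,269,287,291,308,313])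
(.lf []))
(.lf []))
(.lf []))))
(.lf []))
(.nd (.lf [])
(.nd (.nd (.nd (.lf [])
(.nd (.nd (.lf [])
(.lf [606,607,622,629,632,637]))
(.lf [])))
(.lf []))
(.nd (.nd (.nd (.nd (.lf [124,131,134,146,162])
(.lf []))
(.lf []))
(.lf []))
(.lf [])))))
(.nd (.nd (.lf [])
(.nd (.nd (.nd (.lf [])
(.nd (.lf [])
(.nd (.lf [323,334,340,342,343,351,355,362,369,374])
(.lf []))))
(.nd (.nd (.nd (.lf [176,215,223])
(.lf []))
(.lf []))
(.lf [])))
(.lf [])))
(.nd (.nd (.nd (.nd (.lf [])
(.nd (.lf [])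
(.nd (.lf [325,340,350,351,367,388])
(.lf []))))
(.lf []))
(.lf []))
(.nd (.nd (.nd (.nd (.nd (.lf [1,7,24,33,45,71,85,103])
(.lf []))
(.lf []))
(.lf []))
(.lf []))
(.nd (.nd (.lf [])
(.nd (.lf [])
(.nd (.lf [])
(.lf [764,782,799,815,820,830,841]))))
(.lf []))))))
(.nd (.nd (.nd (.nd (.nd (.nd (.nd (.nd (.lf [1,6,7,24,33,45,65])
(.lf []))
(.lf []))
(.lf []))
(.lf []))
(.nd (.nd (.lf [])
(.nd (.nd (.lf [])
(.lf [646,665,668,675,686,687]))
(.nd (.lf [498,499,511,512])
(.lf []))))
(.nd (.lf [])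
(.nd (.lf [])
(.nd (.lf [])
(.lf [957,967,971,982,983,987,994,995,996]))))))
(.nd (.nd (.nd (.nd (.nd (.lf [3,7,19,29,33,36,40,56,57,59,62,80,85,97])
(.lf []))
(.lf []))
(.lf []))
(.lf []))
(.lf [])))
(.nd (.nd (.nd (.lf [])
(.nd (.lf [])
(.nd (.lf [])
(.nd (.lf [])
(.lf [852,854,859,867,869,876])))))
(.lf []))
(.nd (.nd (.lf [])
(.nd (.lf [])
(.nd (.lf [])
(.nd (.lf [])
(.lf [889,899,903,916,928])))))
(.nd (.nd (.nd (.nd (.lf [120,125,130,133,137,142,147,149])
(.lf []))
(.lf []))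
(.lf []))
(.lf [])))))
(.nd (.nd (.nd (.nd (.nd (.nd (.nd (.lf [3,12,13,29,35,51,75,104])
(.lf []))
(.lf []))
(.lf []))
(.nd (.lf [])
(.nd (.lf [])
(.nd (.lf [])
(.lf [850,863,867,869,874,875,876])))))
(.nd (.nd (.lf [])
(.nd (.lf [])
(.nd (.lf [475,481,488,489,496,497,500,503,508,509])
(.lf []))))
(.lf [])))
(.nd (.nd (.lf [])
(.nd (.lf [])
(.nd (.lf [])
(.nd (.lf [])
(.lf [899,909,910,919,920,922,931,932,935])))))
(.lf [])))
(.nd (.nd (.lf [])
(.nd (.nd (.lf [])
(.nd (.nd (.lf [])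
(.lf [709,713,723,727,735,736,737,739,742,749,750]))
(.lf [])))
(.lf [])))
(.nd (.nd (.nd (.lf [])
(.nd (.lf [])
(.nd (.lf [435,442,450,451,460])
(.lf []))))
(.lf []))
(.lf [])))))))

/-- adjacency lists of gap class 1 -/
noncomputable def rowT1 : LT :=
(.nd (.nd (.nd (.nd (.nd (.nd (.nd (.nd (.lf [])
(.nd (.nd (.lf [338,350,367,369,388])
(.lf []))
(.lf [])))
(.lf []))
(.nd (.lf [])
(.nd (.lf [])
(.nd (.nd (.lf [])
(.lf [899,909,910,919,920,922,931,932,935]))
(.lf [])))))
(.lf []))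
(.nd (.lf [])
(.nd (.nd (.nd (.nd (.nd (.lf [3,13,21,29,30,42,51,63,69,88,101])
(.lf []))
(.lf []))
(.nd (.lf [])
(.nd (.lf [])
(.lf [667,676,689]))))
(.lf []))
(.lf []))))
(.nd (.nd (.nd (.nd (.nd (.lf [])
(.nd (.nd (.lf [319,328,344,354,368])
(.lf []))
(.lf [])))
(.lf []))
(.nd (.nd (.lf [])
(.nd (.lf [])
(.nd (.lf [])
(.lf [713,723,735,736,739,749]))))
(.lf [])))
(.nd (.nd (.lf [])
(.nd (.nd (.lf [])
(.nd (.lf [12,27,49,78,109])
(.lf [])))
(.lf [])))
(.nd (.nd (.nd (.lf [])
(.nd (.lf [])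
(.lf [204,222])))
(.lf []))
(.lf []))))
(.nd (.nd (.nd (.lf [])
(.nd (.lf [])
(.nd (.lf [])
(.nd (.lf [709,727,735,736,737,742,749,750])
(.lf [])))))
(.lf []))
(.nd (.lf [])
(.nd (.lf [])
(.nd (.lf [])
(.nd (.nd (.lf [])
(.lf [19,57,80,97]))
(.lf []))))))))
(.nd (.nd (.nd (.nd (.nd (.lf [])
(.nd (.lf [])
(.nd (.nd (.lf [613,617,619,626,629,639])
(.lf []))
(.nd (.lf [665,675,687])
(.lf [])))))
(.lf []))
(.nd (.nd (.lf [])
(.nd (.lf [])
(.nd (.nd (.lf [674,685])
(.lf []))
(.lf []))))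
(.nd (.lf [])
(.nd (.nd (.nd (.lf [])
(.lf [431,440,445,452,453,456,462]))
(.lf []))
(.lf [])))))
(.nd (.nd (.lf [])
(.nd (.lf [])
(.nd (.nd (.lf [])
(.nd (.lf [171,181,194,205,210,230])
(.lf [])))
(.lf []))))
(.nd (.nd (.nd (.lf [])
(.nd (.nd (.lf [431,438,440,448])
(.lf []))
(.nd (.lf [])
(.lf [655,674,685]))))
(.lf []))
(.nd (.nd (.lf [])
(.nd (.lf [])
(.nd (.lf [606,607,622,629,632,637])
(.lf []))))
(.lf [])))))
(.nd (.nd (.nd (.lf [])
(.nd (.lf [])
(.nd (.lf [])
(.nd (.nd (.lf [711,721,733,734,737,748])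
(.lf [889,899,903,916,928]))
(.lf [])))))
(.nd (.nd (.lf [])
(.nd (.nd (.lf [])
(.nd (.lf [3,9,19,21,40,57,80])
(.lf [])))
(.lf [])))
(.nd (.lf [])
(.nd (.nd (.lf [])
(.nd (.lf [170])
(.lf [])))
(.lf [])))))
(.nd (.nd (.nd (.nd (.nd (.lf [])
(.nd (.lf [])
(.lf [12,27,49])))
(.nd (.lf [])
(.nd (.lf [])
(.lf [613,629,634,637,639]))))
(.nd (.nd (.lf [])
(.nd (.lf [1,7,24,33,45,71,85,103])
(.lf [])))
(.lf [])))
(.nd (.lf [])
(.nd (.lf [])
(.nd (.nd (.lf [])
(.lf [959,962,970,982,984,994,997]))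
(.lf [])))))
(.nd (.lf [])
(.nd (.nd (.nd (.lf [])
(.nd (.lf [])
(.lf [247,258,269,287,291,308,313])))
(.lf []))
(.lf [])))))))
(.nd (.nd (.nd (.nd (.nd (.nd (.nd (.nd (.nd (.lf [3,12,13,29,35,51,75,104])
(.lf []))
(.lf []))
(.lf []))
(.lf []))
(.nd (.nd (.nd (.nd (.lf [7,25,36,46,67,72])
(.lf []))
(.lf []))
(.lf []))
(.nd (.lf [])
(.nd (.nd (.lf [])
(.lf [899,921,922,934,935]))
(.lf [])))))
(.nd (.lf [])
(.nd (.lf [])
(.nd (.nd (.lf [])
(.nd (.lf [204,222])
(.lf [])))
(.lf [])))))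
(.nd (.nd (.nd (.lf [])
(.nd (.nd (.lf [])
(.nd (.lf [])
(.lf [253,258,264,278,283,299,305])))
(.nd (.nd (.lf [])
(.lf [771,784,802,822,843]))
(.lf []))))
(.nd (.lf [])
(.nd (.nd (.nd (.lf [])
(.lf [319,328,330,339,344,356,359,380]))
(.lf []))
(.lf []))))
(.lf [])))
(.nd (.nd (.nd (.nd (.lf [])
(.nd (.lf [])
(.nd (.nd (.lf [])
(.lf [764,782,799,815,820,830,841]))
(.lf []))))
(.nd (.lf [])
(.nd (.nd (.nd (.lf [])
(.lf [323,334,342,343,355,374]))
(.lf []))
(.lf []))))
(.nd (.nd (.lf [])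
(.nd (.nd (.nd (.lf [172,178,201,203])
(.lf []))
(.lf []))
(.lf [])))
(.nd (.nd (.lf [])
(.nd (.nd (.lf [519,532,544,561,580,600])
(.lf []))
(.lf [])))
(.nd (.nd (.nd (.lf [])
(.lf [435,442,450,451,460]))
(.lf []))
(.lf [])))))
(.nd (.nd (.nd (.nd (.lf [])
(.nd (.lf [])
(.nd (.lf [])
(.lf [613,617,619,626,629,639]))))
(.nd (.lf [])
(.nd (.nd (.lf [646,668,675])
(.lf []))
(.lf []))))
(.nd (.nd (.nd (.nd (.lf [119,125,128,132,135,143,147,154])
(.lf []))
(.lf []))
(.lf []))
(.nd (.lf [])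
(.nd (.nd (.lf [])
(.lf [957,967,971,982,983,987,994,995,996]))
(.lf [])))))
(.nd (.lf [])
(.nd (.lf [])
(.nd (.nd (.nd (.lf [323,334,340,342,343,351,355,362,369])
(.lf []))
(.lf []))
(.lf [])))))))
(.nd (.nd (.nd (.nd (.nd (.nd (.lf [])
(.nd (.lf [])
(.nd (.lf [])
(.lf [519,532,561,580,600]))))
(.nd (.nd (.lf [])
(.nd (.lf [3,19,29,40,57,59,62,80])
(.lf [])))
(.nd (.lf [])
(.nd (.lf [668,675,686])
(.lf [])))))
(.nd (.nd (.lf [])
(.nd (.lf [])
(.nd (.lf [])
(.lf [720,733,735,736,737,749,750]))))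
(.nd (.nd (.lf [])
(.nd (.lf [120,125,130,133,137,142,147,149])
(.lf [])))
(.nd (.nd (.lf [])
(.lf [893,912,918,924,929,930]))
(.lf [])))))
(.nd (.nd (.nd (.lf [])
(.nd (.nd (.lf [435,442,450,460])
(.lf []))
(.lf [])))
(.nd (.lf [])
(.nd (.nd (.lf [])
(.lf [852,854,859,867,869,876]))
(.lf []))))
(.nd (.nd (.lf [])
(.nd (.lf [])
(.nd (.lf [541,546,557,572,576,596])
(.lf []))))
(.lf []))))
(.nd (.nd (.lf [])
(.nd (.nd (.lf [])
(.nd (.nd (.lf [520,537,552,572,581,591])
(.lf []))
(.lf [])))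
(.nd (.nd (.nd (.lf [])
(.lf [397,405,408,412,415,419,423]))
(.lf []))
(.lf []))))
(.lf [])))
(.nd (.nd (.nd (.nd (.nd (.nd (.nd (.lf [7,19,33,36,56,85])
(.lf []))
(.lf []))
(.nd (.nd (.lf [398,405,408,415,423])
(.lf []))
(.lf [])))
(.nd (.nd (.nd (.lf [176,215,223])
(.lf []))
(.lf []))
(.lf [])))
(.nd (.nd (.lf [])
(.nd (.lf [])
(.nd (.lf [])
(.lf [705,714,721,724,733,734,737,740,742,748,754]))))
(.nd (.nd (.nd (.lf [247,257,260,270,288,292,314])
(.lf []))
(.lf []))
(.lf []))))
(.nd (.nd (.nd (.lf [])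
(.nd (.lf [])
(.nd (.lf [])
(.lf [668,675,686,687]))))
(.nd (.nd (.lf [])
(.nd (.lf [120,124,125,133,134,142,153,160,164])
(.lf [])))
(.nd (.nd (.lf [])
(.lf [848,852,874]))
(.lf []))))
(.nd (.lf [])
(.nd (.nd (.nd (.lf [319,328,339,344,356,357])
(.lf []))
(.lf []))
(.lf [])))))
(.nd (.nd (.nd (.nd (.lf [])
(.nd (.nd (.lf [397,401])
(.lf []))
(.lf [])))
(.lf []))
(.nd (.nd (.nd (.lf [])
(.nd (.lf [])
(.lf [171,181,194,205,210,230])))
(.lf []))
(.lf [])))
(.nd (.nd (.nd (.nd (.lf [])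
(.nd (.lf [])
(.lf [124,131,134,146,162])))
(.lf []))
(.nd (.nd (.lf [])
(.nd (.lf [124,131,134,146,162])
(.lf [])))
(.nd (.nd (.lf [])
(.lf [883,884,906,907,918,919,920,929,932,933]))
(.lf []))))
(.nd (.lf [])
(.nd (.nd (.nd (.lf [])
(.lf [475,481,488,489,496,497,500,503,508,509]))
(.lf []))
(.lf [])))))))))

/-- adjacency lists of gap class 2 -/
noncomputable def rowT2 : LT :=
(.nd (.nd (.nd (.nd (.nd (.nd (.nd (.lf [])
(.nd (.nd (.nd (.lf [])
(.lf [204,222]))
(.lf []))
(.nd (.lf [])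
(.nd (.lf [674,685])
(.lf [])))))
(.nd (.nd (.nd (.nd (.lf [])
(.lf [3,19,40,57,80]))
(.lf []))
(.nd (.lf [])
(.nd (.lf [])
(.lf [711,721,733,734,737,748]))))
(.lf [])))
(.nd (.lf [])
(.nd (.nd (.lf [])
(.nd (.nd (.lf [541,546,557,572,576,596])
(.lf []))
(.lf [])))
(.nd (.nd (.lf [])
(.nd (.lf [172,178,201,203])
(.lf [])))
(.nd (.lf [])
(.nd (.lf [910,919,920,931,932])
(.lf [])))))))
(.nd (.nd (.nd (.lf [])
(.nd (.nd (.lf [])
(.nd (.lf [3,13,21,29,30,42,51,63,69,88,101])
(.lf [])))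
(.lf [])))
(.nd (.lf [])
(.nd (.lf [])
(.nd (.lf [])
(.nd (.lf [852,863,864,867,869,871,873,875,876])
(.lf []))))))
(.nd (.nd (.lf [])
(.nd (.nd (.nd (.lf [172,181,194,210,230])
(.lf [252,257,263,275,277,282,284,304]))
(.nd (.lf [119,125,128,132,135,143,147,154])
(.lf [])))
(.nd (.lf [])
(.nd (.lf [])
(.lf [893,912,918,924,929,930])))))
(.nd (.nd (.lf [])
(.nd (.lf [])
(.nd (.lf [613,617,619,626,629,639])
(.lf []))))
(.nd (.nd (.nd (.lf [323,334,340,342,343,351,355,362,369])
(.lf []))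
(.lf []))
(.lf []))))))
(.nd (.nd (.nd (.nd (.lf [])
(.nd (.nd (.nd (.lf [])
(.lf [170]))
(.lf []))
(.lf [])))
(.nd (.nd (.lf [])
(.nd (.nd (.lf [])
(.lf [655,674,685]))
(.lf [])))
(.nd (.nd (.lf [])
(.nd (.lf [127,143])
(.lf [])))
(.lf []))))
(.nd (.nd (.nd (.nd (.nd (.lf [])
(.lf [1,7,24,33,45,71,103]))
(.lf []))
(.nd (.lf [])
(.nd (.lf [])
(.lf [674,685]))))
(.nd (.nd (.nd (.lf [])
(.lf [253,258,264,278,283,299,305]))
(.nd (.lf [])
(.lf [323,334,343,355,374])))
(.lf [])))
(.nd (.lf [])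
(.nd (.lf [])
(.nd (.lf [])
(.nd (.lf [889,899,903,916,928])
(.lf [])))))))
(.nd (.nd (.lf [])
(.nd (.lf [])
(.nd (.nd (.lf [])
(.nd (.lf [])
(.lf [475,481,488,489,496,497,500,503,508,509])))
(.lf []))))
(.nd (.nd (.nd (.lf [])
(.nd (.nd (.lf [])
(.lf [613,629,634,637,639]))
(.lf [])))
(.lf []))
(.nd (.nd (.nd (.nd (.lf [])
(.lf [171,181,194,205,210,230]))
(.lf []))
(.lf []))
(.nd (.nd (.nd (.lf [323,334,342,343,355,374])
(.lf []))
(.nd (.lf [247,257,260,270,288,292,314])
(.lf [])))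
(.nd (.lf [])
(.nd (.lf [957,967,982,983,987,995,996])
(.lf [])))))))))
(.nd (.nd (.nd (.nd (.nd (.nd (.lf [])
(.nd (.nd (.lf [332,335,346,361,383])
(.lf []))
(.lf [])))
(.nd (.lf [])
(.nd (.lf [])
(.nd (.lf [])
(.lf [765,800,809,816,831])))))
(.nd (.nd (.nd (.nd (.lf [])
(.lf [6,17,31,54]))
(.lf []))
(.nd (.nd (.lf [488,496,497,508,509])
(.lf [668,675,686]))
(.lf [])))
(.nd (.nd (.lf [])
(.nd (.lf [121,131,138,153,166])
(.lf [])))
(.nd (.lf [])
(.nd (.lf [])
(.lf [971,982,983,994,995]))))))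
(.nd (.nd (.nd (.lf [])
(.nd (.nd (.lf [442,450,451,460])
(.lf []))
(.lf [])))
(.lf []))
(.lf [])))
(.nd (.nd (.nd (.lf [])
(.nd (.nd (.lf [])
(.nd (.lf [18,28,66,69,99,101])
(.lf [])))
(.nd (.lf [])
(.nd (.lf [])
(.lf [852,854,859,867,869,876])))))
(.nd (.nd (.nd (.nd (.lf [124,131,134,146,162])
(.lf []))
(.lf []))
(.lf []))
(.lf [])))
(.lf [])))
(.nd (.nd (.nd (.nd (.nd (.lf [])
(.nd (.nd (.lf [397,405,408,412,415,423])
(.lf []))
(.lf [])))
(.lf []))
(.lf []))
(.nd (.nd (.lf [])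
(.nd (.nd (.lf [])
(.nd (.lf [])
(.lf [338,350,367,369,388])))
(.nd (.lf [])
(.nd (.lf [])
(.lf [899,909,919,922,931,935])))))
(.nd (.nd (.lf [])
(.nd (.lf [])
(.nd (.lf [522,525,535,547,562,566,587])
(.lf []))))
(.lf []))))
(.nd (.nd (.nd (.nd (.lf [])
(.nd (.nd (.lf [400,406])
(.lf []))
(.lf [])))
(.lf []))
(.nd (.nd (.lf [])
(.nd (.nd (.lf [])
(.lf [713,723,735,736,739,749]))
(.lf [])))
(.lf [])))
(.nd (.nd (.nd (.nd (.nd (.lf [6,8,17,31,47,54,60,68,92])
(.lf []))
(.lf []))
(.lf []))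
(.lf []))
(.lf []))))))
(.nd (.nd (.nd (.nd (.nd (.lf [])
(.nd (.lf [])
(.nd (.lf [])
(.nd (.lf [])
(.nd (.lf [774,792])
(.lf []))))))
(.nd (.lf [])
(.nd (.nd (.nd (.nd (.lf [])
(.lf [120,125,133,142]))
(.lf []))
(.nd (.nd (.lf [])
(.lf [705,714,721,724,733,734,737,740,742,748,754]))
(.lf [])))
(.nd (.lf [])
(.nd (.lf [])
(.nd (.lf [899,921,922,934,935])
(.lf [])))))))
(.nd (.nd (.nd (.nd (.lf [])
(.nd (.nd (.lf [397,401])
(.lf []))
(.lf [])))
(.lf []))
(.nd (.lf [])
(.nd (.lf [])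
(.nd (.lf [])
(.nd (.lf [848,852,874])
(.lf []))))))
(.nd (.lf [])
(.nd (.lf [])
(.nd (.nd (.lf [])
(.nd (.lf [])
(.lf [519,532,544,561])))
(.lf []))))))
(.nd (.nd (.nd (.nd (.nd (.lf [])
(.nd (.nd (.lf [325,340,351,369])
(.lf []))
(.lf [])))
(.nd (.nd (.nd (.lf [204,222])
(.lf []))
(.lf []))
(.lf [])))
(.nd (.lf [])
(.nd (.nd (.nd (.lf [253,258,264,278,299])
(.lf []))
(.nd (.lf [])
(.lf [444,450,453,459,463])))
(.nd (.lf [])
(.nd (.lf [])
(.lf [952,968,981,983,985,987,993,996,999]))))))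
(.nd (.nd (.nd (.nd (.nd (.lf [12,27,49,78,109])
(.lf []))
(.lf []))
(.lf []))
(.lf []))
(.lf [])))
(.nd (.nd (.nd (.nd (.nd (.nd (.lf [1,7,24,45,85])
(.lf []))
(.lf []))
(.lf []))
(.lf []))
(.nd (.nd (.nd (.nd (.lf [])
(.lf [124,131,134,146,162]))
(.lf []))
(.nd (.nd (.lf [])
(.lf [709,727,735,736,737,742,749,750]))
(.lf [])))
(.lf [])))
(.nd (.nd (.nd (.nd (.nd (.lf [9,21,57])
(.lf [12,27,49]))
(.lf []))
(.lf []))
(.lf []))
(.nd (.lf [])
(.nd (.nd (.nd (.lf [319,328,344,354,368])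
(.lf []))
(.lf []))
(.nd (.lf [])
(.nd (.lf [959,962,970,982,984,994,997])
(.lf [])))))))))
(.nd (.nd (.nd (.nd (.nd (.nd (.nd (.nd (.lf [3,19,29,40,57,59,80])
(.lf []))
(.lf []))
(.nd (.nd (.lf [319,328,330,339,344,356,359,380])
(.lf []))
(.nd (.lf [])
(.lf [522,535,547,562]))))
(.lf []))
(.nd (.nd (.lf [])
(.nd (.nd (.lf [])
(.lf [667,676,689]))
(.lf [])))
(.nd (.nd (.lf [])
(.nd (.lf [])
(.lf [435,442,450,451,460])))
(.lf []))))
(.nd (.nd (.nd (.lf [])
(.nd (.nd (.lf [431,438,440,448])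
(.lf []))
(.lf [])))
(.nd (.nd (.lf [])
(.nd (.lf [7,25,36,46,67,72])
(.lf [])))
(.lf [])))
(.nd (.nd (.nd (.nd (.lf [120,130,137,147,149])
(.lf []))
(.lf []))
(.lf []))
(.lf []))))
(.nd (.lf [])
(.nd (.nd (.nd (.lf [])
(.nd (.nd (.lf [])
(.lf [613,617,619,626,629,639]))
(.lf [])))
(.nd (.nd (.lf [])
(.nd (.lf [])
(.lf [405,408,412,415,419,423])))
(.nd (.lf [])
(.nd (.lf [764,782,799,815,820,830,841])
(.lf [])))))
(.lf []))))
(.nd (.nd (.nd (.nd (.nd (.nd (.nd (.lf [])
(.lf [19,29,40,59,62]))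
(.lf []))
(.nd (.lf [])
(.nd (.lf [])
(.lf [613,617,619,626,629,639]))))
(.lf []))
(.nd (.lf [])
(.nd (.nd (.lf [])
(.nd (.lf [176,215,223])
(.lf [])))
(.lf []))))
(.nd (.nd (.lf [])
(.nd (.lf [])
(.nd (.nd (.lf [649,673,683])
(.lf []))
(.lf []))))
(.lf [])))
(.nd (.nd (.nd (.nd (.lf [])
(.nd (.nd (.lf [])
(.lf [541,546,557,572,576,596]))
(.lf [])))
(.lf []))
(.nd (.nd (.lf [])
(.nd (.lf [])
(.nd (.lf [519,532,544,561,580,600])
(.lf []))))
(.lf [])))
(.nd (.nd (.lf [])
(.nd (.lf [])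
(.nd (.nd (.lf [709,727,735,742,749])
(.lf []))
(.lf []))))
(.nd (.nd (.nd (.nd (.lf [171,181,194,205,210,230])
(.lf []))
(.nd (.lf [7,19,33,36,56,85])
(.lf [])))
(.nd (.lf [])
(.nd (.lf [])
(.lf [771,784,802,822,843]))))
(.lf []))))))))

/-- adjacency lists of gap class 3 -/
noncomputable def rowT3 : LT :=
(.nd (.nd (.nd (.nd (.nd (.nd (.nd (.nd (.nd (.nd (.lf [])
(.lf [956,962,967,974,985,989,994]))
(.nd (.lf [764,767,768,773,775,778,782,785,787,795,799,804,810,815,820,822,827,832,835,841,842])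
(.lf [1,6,7,8,17,31,45,47,54,60,65,68,71,92,96,98,103,112])))
(.nd (.nd (.lf [319,323,325,327,328,330,331,334,338,339,340,342,343,344,348,350,351,354,355,356,357,358,359,365,367,368,369,374,376,379,380,386,388,389,393,396])
(.lf [471,475,478,483,486]))
(.nd (.lf [243,248,258,269,271,287,291,308,313])
(.lf [522,539,542,555,558,559,572,573,574,575,577,580,585,591,595,598,600]))))
(.nd (.nd (.nd (.lf [180,181,203,208,228])
(.lf [175,188,198,212,214,222,232,240]))
(.nd (.lf [12,14,26,53,62,76,95])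
(.lf [243,247,254,256,264,265,269,279,283,284,297,305])))
(.nd (.nd (.lf [607,612,622,629,632,635,637,643])
(.lf []))
(.nd (.lf [653,656,658,661,665,666,675,677,680,687,691,692])
(.lf [760,766,773,799,820,841])))))
(.nd (.nd (.nd (.nd (.lf [4,12,14,19,22,29,40,43,49,52,59,62,67,73,78,87,100,109])
(.lf [16,18,19,32,40,55,57,62,67,77,80,84,93,97,100,106,108,115]))
(.nd (.lf [889,891,899,903,916,928])
(.lf [128,153,164,166])))
(.nd (.nd (.lf [469,471,475,476,478,481,482,489,493,500,506,508])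
(.lf [678,690]))
(.nd (.lf [])
(.lf [697,705,714,721,724,737,740,742,744,754]))))
(.nd (.nd (.nd (.lf [243,245,247,248,254,258,269,271,287,291,297,308,313,318])
(.lf []))
(.nd (.lf [123,141,147,152,161])
(.lf [397,401,405,408,412,415,423])))
(.nd (.nd (.lf [695,702,709,720,727,735,742,744,749])
(.lf [884,887,896,897,902,906,907,910,919,920,925,927,932,939]))
(.nd (.lf [])
(.lf [956,962,967,974,985,989,994]))))))
(.nd (.nd (.nd (.nd (.nd (.lf [3,4,19,22,29,36,40,43,57,59,61,62,64,67,77,80,87,100,106,108])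
(.lf [3,21,29,30,42,43,48,51,63,69,75,77,80,88,89,101,104,108,111,116]))
(.nd (.lf [848,861,867,870,877])
(.lf [18,32,55,77,84,93,106,115])))
(.nd (.nd (.lf [431,438,440,448,456])
(.lf [517,528,542,549,566,569,585]))
(.nd (.lf [323,332,334,335,343,346,355,358,361,371,374,383,391])
(.lf [606,616,620,622,625,629,632]))))
(.nd (.nd (.nd (.lf [170,172,176,180,181,194,198,210,230])
(.lf [245,261,276,284,318]))
(.nd (.lf [1,7,23,24,33,34,37,44,45,58,61,70,71,82,102,103])
(.lf [323,325,326,334,336,340,342,343,351,355,358,369])))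
(.nd (.nd (.lf [653,655,656,685])
(.lf [852,863,864,867,869,871,873,875,876,880]))
(.nd (.lf [694,719,730,732])
(.lf [896,906,913,921,922,925,931,934,935,940])))))
(.nd (.nd (.nd (.nd (.lf [120,124,125,126,128,133,134,142,153,156,164])
(.lf []))
(.nd (.lf [949,964,975,976,979,986,998])
(.lf [203,238])))
(.nd (.nd (.lf [517,518,524,526,527,528,534,537,539,541,542,546,548,549,555,557,559,564,566,567,568,569,572,575,577,582,585,586,588,595,603])
(.lf [696,697,705,711,714,715,721,724,733,734,737,740,742,748,754]))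
(.nd (.lf [525,547,566,587])
(.lf [791,809,811,831]))))
(.nd (.nd (.nd (.lf [249,272])
(.lf []))
(.nd (.lf [172,174,178,185,197,201,203,220,235,238])
(.lf [468,470,475,477,479,481,483,486,487,496,497,499,509,510,512])))
(.nd (.nd (.lf [709,727,735,742,749])
(.lf [941,947,956,957,959,962,964,966,967,970,971,975,976,978,979,980,982,983,992,994,995,996]))
(.nd (.lf [884,885,887,888,891,897,899,902,907,909,910,915,919,920,927])
(.lf [])))))))
(.nd (.nd (.nd (.nd (.nd (.nd (.lf [18,28,66,69,89,99,101])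
(.lf [1,7,45,65,71,96,103]))
(.nd (.lf [849,850,852,853,863,864,865,867,869,871,873,875,876,880])
(.lf [18,32,55,93])))
(.nd (.nd (.lf [403])
(.lf []))
(.nd (.lf [])
(.lf [633,642]))))
(.nd (.nd (.nd (.lf [])
(.lf [243,244,245,251,252,253,254,259,261,264,273,276,291,293,295,297,301]))
(.nd (.lf [3,15,21,29,30,42,43,48,51,53,63,69,75,77,80,88,89,101,104,108,111,116])
(.lf [243,245,247,248,254,258,269,271,287,291,297,308,313,318])))
(.nd (.nd (.lf [])
(.lf [771,784,802,821,822,824,842,843]))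
(.nd (.lf [695,697,705,706,711,714,721,724,733,734,737,740,742,744,748,754])
(.lf [852,864,871,873,875,880])))))
(.nd (.nd (.nd (.nd (.lf [120,124,126,128,130,131,134,137,146,147,149,162])
(.lf [124,126,131,134,146,162]))
(.nd (.lf [887,888,889,891,899,902,903,910,916,920,928])
(.lf [177,190,201,203,208,210,217,228,230,238])))
(.nd (.nd (.lf [475,481,486,489,500])
(.lf [648,651,658,661,663,665,668,670,673,675,682,686,687]))
(.nd (.lf [468,470,474,475,477,483,488,492,496,497,502,505,508,509,516])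
(.lf [694,719,730,732]))))
(.nd (.nd (.nd (.lf [])
(.lf [325,326,331,336,340,342,351,355,369,371,374,375,391,393]))
(.nd (.lf [])
(.lf [457])))
(.nd (.nd (.lf [712,722,735])
(.lf [947,949,956,957,964,966,967,975,976,978,979,980,982,983,986,988,992,995,996,998,1001]))
(.nd (.lf [850,852,863,864,867,869,871,873,874,875,876])
(.lf [952,960,976,991,998]))))))
(.nd (.nd (.nd (.nd (.nd (.lf [3,13,15,29,48,51,53,75,77,80,88,104,108,111])
(.lf []))
(.nd (.lf [918,929,930])
(.lf [120,123,125,133,142,168])))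
(.nd (.nd (.lf [427,429,434,435])
(.lf []))
(.nd (.lf [397,400,401,406,424])
(.lf [663,667,670,673,676,680,689,692]))))
(.nd (.nd (.nd (.lf [172,180,181,194])
(.lf [244,245,250,252,254,257,259,261,263,273,275,276,277,282,284,291,293,294,296,297,298,304,312,313,315]))
(.nd (.lf [123,125,128,132,135,143,144,147,154,157,161])
(.lf [332,342,346,355,371,374,375,381,391])))
(.nd (.nd (.lf [])
(.lf [896,906,913,925,931,940]))
(.nd (.lf [])
(.lf [918,929,930])))))
(.nd (.nd (.nd (.nd (.lf [123,128])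
(.lf [176,184,189]))
(.nd (.lf [941,944,947,949,952,953,957,964,968,971,977,978,983,985,987,990,992,999])
(.lf [172,173,178,180,182,201,203,217,235,238])))
(.nd (.nd (.lf [518,527,528,539,549,568,577,588])
(.lf [768,773,826,845]))
(.nd (.lf [604,607,613,614,617,619,634,637,641])
(.lf [763,764,780,782,785,795,797,799,814,815,818,819,820,830,835,839,840,841]))))
(.nd (.nd (.nd (.lf [323,326,331,334,336,342,343,355,358,371,374,391,393])
(.lf [426,429,435,443,451,454,455,465]))
(.nd (.lf [243,247,254,256,264,265,269,275,279,283,284,296,297,305])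
(.lf [566,585,587,601])))
(.nd (.nd (.lf [763,770,773,780,785,791,795,797,814,818,819,839,840])
(.lf [12,49,78,87,90,109,117]))
(.lf [])))))))
(.nd (.nd (.nd (.nd (.nd (.nd (.nd (.lf [3,16,18,19,28,32,40,55,57,77,80,84,93,97,106,115])
(.lf [941,948,958,965,977,990]))
(.nd (.lf [759,763,770,779,791,796,807,811,825,828])
(.lf [])))
(.nd (.nd (.lf [328,330,344,354,357,359,368,379,380])
(.lf [518,522,524,525,535,547,558,561,562,566,573,577,578,580,584,587,590,592,597,598,600,601]))
(.nd (.lf [243,246,247,253,256,258,264,269,278,283,287,291,293,297,299,305,308,313,316])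
(.lf []))))
(.nd (.nd (.nd (.lf [172,182,195,203,206,211,238])
(.lf [170,172,173,174,178,180,182,185,197,201,203,212,217,220,235,236,238]))
(.nd (.lf [18,28])
(.lf [252,257,263,275,277,282,284,304])))
(.nd (.lf [])
(.nd (.lf [653,658,661,665,666,675,687])
(.lf [863,864,867,869,871,875,876])))))
(.nd (.nd (.nd (.nd (.lf [119,125,128,135,143,154,161])
(.lf [120,128,130,137,146,147,149,153,160,161,162,164,166]))
(.nd (.lf [926,938])
(.lf [120,124,125,128,133,134,142,153,156,164])))
(.nd (.nd (.lf [467,469,470,475,476,479,481,482,483,487,488,489,493,496,497,498,500,503,506,508,509,511])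
(.lf [658,661,665,675,687]))
(.nd (.lf [])
(.lf [699,713,716,723,736,739,742,745,752,754]))))
(.nd (.nd (.nd (.lf [243,247,253,256,258,264,269,275,283,293,296,305])
(.lf [324,330,352,363]))
(.nd (.lf [123,127,128,143])
(.lf [])))
(.nd (.nd (.lf [695,705,706,714,724,740,744])
(.lf [889,891,899,903,916,928]))
(.nd (.lf [871,879])
(.lf [941,945,959,962,965,970,977,982,984,985,987,997,999]))))))
(.nd (.nd (.nd (.nd (.nd (.lf [18,28])
(.lf [23,24,44,45,47,65,70,71,85,96,102,103]))
(.nd (.lf [896,906,911,912,923,924,926,936,937])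
(.lf [])))
(.nd (.lf [])
(.nd (.lf [324,330,352,363])
(.lf [655,664,677,685,691]))))
(.nd (.nd (.nd (.lf [170,175,176,198,214,222])
(.lf [243,246,256,264,269,283,287,291,293,297,305,308,313,316]))
(.nd (.lf [4,12,16,19,22,27,29,40,43,49,59,62,64,67,87,90,97,100,107])
(.lf [319,325,328,330,331,338,339,340,342,344,348,350,351,354,355,356,358,365,367,368,369,371,374,376,384,386,388,389,391,393,396])))
(.nd (.nd (.lf [644,646,649,651,658,661,663,665,667,668,675,686,688])
(.lf [848,850,852,856,861,863,867,869,870,874,875,877,881]))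
(.nd (.lf [768,773,815,817,835,837,842])
(.lf [912,924,937])))))
(.nd (.nd (.nd (.nd (.lf [129,136])
(.lf [120,125,130,133,137,142,147,149,153,156,164,168]))
(.nd (.lf [945,956,959,962,967,970,982,994])
(.lf [175,188,198,212,214,222,232,240])))
(.nd (.nd (.lf [519,521,532,533,537,545,552,554,561,570,574,578,580,589,593,597,600])
(.lf [699,709,716,726,728,729,735,736,737,743,746,749,750]))
(.nd (.lf [])
(.lf [770,776,791,792,809,811,814,822,824,825,831,836,842,843,844]))))
(.nd (.nd (.nd (.lf [245,268])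
(.lf []))
(.nd (.lf [203])
(.lf [549,566,569,585])))
(.nd (.nd (.lf [757,762,776,794,808,822,824,829,842,843])
(.lf [941,947,952,960,964,971,976,978,983,991,992,998]))
(.nd (.lf [889,891,899,903,916,928])
(.lf [])))))))
(.nd (.nd (.nd (.nd (.nd (.nd (.lf [1,3,7,10,18,19,24,25,32,33,37,40,45,47,55,57,61,71,77,80,91,93,103,106,108])
(.lf [9,16,17,21,22,33,39,43,56,57,59,62,64,77,78,80,85,87,90,95,96,106,107,108,118]))
(.nd (.lf [849,853,864,865,871,879])
(.lf [22,36,43,61])))
(.nd (.nd (.lf [399,404])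
(.lf [525,547,566,587]))
(.nd (.lf [247,249,255,257,260,270,272,288,296,317])
(.lf []))))
(.nd (.nd (.nd (.lf [180,181,203,208,228])
(.lf [247,255]))
(.nd (.lf [3,18,19,32,40,55,57,77,80,93,106,108])
(.lf [242,252,257,263,275,277,282,284,304,318])))
(.nd (.nd (.lf [644,646,647,668,675,686])
(.lf [863,864,867,869,871,875,876,879]))
(.nd (.lf [695,699,701,702,709,713,716,717,720,723,727,729,730,736,737,742,745,746,752])
(.lf [])))))
(.nd (.nd (.nd (.nd (.lf [121,122,131,138,140,157])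
(.lf []))
(.nd (.lf [941,945,949,956,959,962,964,967,970,976,979,982,984,997])
(.lf [176,184,189])))
(.nd (.nd (.lf [518,519,520,522,524,525,532,534,535,537,542,544,545,547,552,558,561,562,566,570,572,573,574,577,580,585,587,589,590,591,593,598,600,601])
(.lf [741,753]))
(.nd (.lf [566,585,587])
(.lf [701,705,716,728,729,737,741,743,746,753]))))
(.nd (.nd (.nd (.lf [245,247,256,268,269,275,296])
(.lf [397,401,412,419,420]))
(.nd (.lf [180,208,210,228,230])
(.lf [467,468,469,470,471,479,481,483,487,488,496,497,498,499,503,511,512])))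
(.nd (.nd (.lf [695,699,701,702,709,713,716,720,723,727,736,737,739,742,744,745,752])
(.lf [942,945,946,959,962,970,982,984,994,997]))
(.nd (.lf [884,892,896,897,906,907,918,919,920,929,932,933,940])
(.lf []))))))
(.nd (.nd (.nd (.nd (.nd (.lf [4,6,8,11,17,20,31,41,47,54,60,68,92])
(.lf []))
(.nd (.lf [883,885,887,896,897,902,907,910,915,918,920,927,929])
(.lf [127,143])))
(.nd (.nd (.lf [426,435,443,454,465])
(.lf [625,629,634,637,639,641,643]))
(.nd (.lf [431,438,440,448,456])
(.lf [644,649,651,663,673,683]))))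
(.nd (.nd (.nd (.lf [242,247,252,257,260,263,270,275,277,282,284,288,292,304,314])
(.lf [319,328,330,344,354,357,359,365,368,379,380,384,386,396]))
(.nd (.lf [128,131,153,157,164,166])
(.lf [413,415,421,423])))
(.nd (.nd (.lf [646,653,658,666,667,668,670,675,676,680,682,686,689,692])
(.lf [911,923,926,936]))
(.nd (.lf [759,763,770,779,791,796,807,809,811,825,828,831])
(.lf [])))))
(.nd (.nd (.nd (.nd (.lf [170,176,189,215,223])
(.lf [170,172,175,176,177,179,185,188,190,192,194,198,204,205,207,210,212,214,217,222,224,226,230,232,235,236,238]))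
(.nd (.lf [])
(.lf [247,257,260,270,288,292,314])))
(.nd (.nd (.lf [])
(.lf [770,776,791,792,809,811,814,822,824,825,831,836,842,843,844]))
(.nd (.lf [613,625,629,634,637,639])
(.lf [773,795,815,817,822,824,835,837,842,843]))))
(.nd (.nd (.nd (.lf [323,325,326,331,336,338,340,342,343,350,351,362,369,376,382,393])
(.lf []))
(.nd (.lf [242,243,247,248,252,254,255,257,258,260,263,265,270,271,275,277,279,282,284,288,292,296,300,304,314,317])
(.lf [])))
(.nd (.nd (.lf [757,759,762,770,774,776,791,792,794,808,809,811,814,822,824,825,829,831,836,842,843,844])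
(.lf [4,12,17,27,39,43,49,56,57,59,62,64,77,78,80,85,87,90,95,96,106,107,108]))
(.nd (.lf [941,944,947,949,952,957,964,965,968,971,976,977,978,979,983,985,987,992,999])
(.lf [])))))))))
(.nd (.nd (.nd (.nd (.nd (.nd (.nd (.nd (.lf [23,34,44,58,82])
(.lf []))
(.nd (.lf [763,767,768,770,773,780,785,791,795,797,814,815,817,818,819,826,835,837,839,840,845])
(.lf [3,21,29,30,42,43,48,51,63,69,75,77,80,88,89,101,104,108,111,116])))
(.nd (.nd (.lf [323,334,343,355,358,374])
(.lf [467,485,493,495]))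
(.nd (.lf [243,245,247,248,254,258,269,271,287,291,297,308,313,318])
(.lf []))))
(.nd (.nd (.nd (.lf [204,222,240])
(.lf [173,180,182,203,238]))
(.nd (.lf [7,25,36,46,67,97])
(.lf [245,254,318])))
(.nd (.nd (.lf [604,607,613,614,617,619,634,637,641])
(.lf [759,763,770,779,791,796,807,809,811,825,828,831]))
(.nd (.lf [648,653,663,666,667,670,673,676,680,682,689,692])
(.lf [763,765,780,785,797,800,809,811,814,816,819,825,831,834,840,844])))))
(.nd (.nd (.nd (.nd (.lf [2,14,38,53,76])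
(.lf [8,31,45,47,65,68,71,96,98,103,112]))
(.nd (.lf [])
(.lf [120,123,125,133,137,142,147,149,153,156,164,168])))
(.nd (.nd (.lf [467,469,470,471,476,479,481,482,483,487,488,489,493,497,500,503,506])
(.lf [644,646,647,668,675,688]))
(.nd (.lf [])
(.lf [698,713,722,735,738,751]))))
(.nd (.nd (.nd (.lf [245,261,276,284,318])
(.lf []))
(.nd (.lf [121,125,128,131,132,135,138,144,147,153,157,164,166])
(.lf [])))
(.nd (.nd (.lf [695,697,702,709,711,714,720,721,733,736,744,750])
(.lf [893,912,918,924,929,930]))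
(.nd (.lf [848,850,852,854,863,869,874,881])
(.lf [941,947,952,964,971,978,983,985,987,992,999]))))))
(.nd (.nd (.nd (.nd (.nd (.lf [4,6,8,12,14,17,20,27,31,41,47,49,52,54,60,68,73,78,92,109])
(.lf [18,32,55]))
(.nd (.lf [])
(.lf [156,168])))
(.nd (.nd (.lf [434,442,454,465])
(.lf [544,559,564,572,574,580,584,591,598,600]))
(.lf [])))
(.nd (.nd (.nd (.lf [170,174,176,185,197,198,220])
(.lf [243,248,258,269,271,287,291,308,313]))
(.nd (.lf [4,12,14,19,22,27,29,40,43,49,52,59,62,67,73,78,87,90,100,109,117])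
(.lf [323,338,343,350,351,358,362,367,369,376,388])))
(.nd (.nd (.lf [653,656,666,677,691])
(.lf [852,854,859,867,869,876]))
(.nd (.lf [728,743])
(.lf [884,897,906,907,912,919,924,932,937])))))
(.nd (.nd (.nd (.nd (.lf [126])
(.lf [123,127,143]))
(.nd (.lf [])
(.lf [198,212,214,232])))
(.nd (.nd (.lf [518,522,524,525,535,542,547,558,562,566,573,577,580,585,587,590,598,600,601])
(.lf [694,719,730,732]))
(.nd (.lf [522,534,539,542,555,558,564,573,575,577,580,582,585,595,598,603])
(.lf []))))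
(.nd (.nd (.nd (.lf [])
(.lf [448,456]))
(.nd (.lf [])
(.lf [579,581,599])))
(.nd (.nd (.lf [759,770,791,811,825,844])
(.lf [941,947,949,956,957,959,962,964,966,967,970,975,976,978,979,980,982,983,992,994,995,996]))
(.nd (.lf [893,912,918,924,929,930])
(.lf [])))))))
(.nd (.nd (.nd (.nd (.nd (.nd (.lf [12,14,26,53,62,76,95])
(.lf [3,13,18,28,29,42,48,51,63,66,69,75,77,80,88,89,99,101,104,108,111,116]))
(.nd (.lf [])
(.lf [24,44,45,47,65,70,71,85,96,102,103])))
(.nd (.nd (.lf [398,400,405,406,408,413,421,424])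
(.lf []))
(.nd (.lf [])
(.lf [613,634,637]))))
(.nd (.nd (.nd (.lf [])
(.lf [243,247,254,256,264,265,269,279,283,284,297,305]))
(.nd (.lf [3,12,13,18,28,29,35,48,51,66,69,75,80,88,89,99,101,111,118])
(.lf [243,244,245,247,252,253,254,256,257,259,261,262,263,264,268,269,273,275,276,277,281,282,284,291,293,294,295,296,297,303,304,312,313,315])))
(.nd (.nd (.lf [])
(.lf [764,767,774,775,778,785,787,791,792,795,804,807,809,810,811,822,824,825,827,831,832,842,843]))
(.nd (.lf [])
(.lf [852,859,867,869,876])))))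
(.nd (.nd (.nd (.nd (.lf [124,128,131,133,134,142,153,156,160,164])
(.lf []))
(.nd (.lf [943,957,961,968,981,993])
(.lf [170,176,198])))
(.nd (.nd (.lf [517,519,524,526,528,534,535,537,539,541,542,546,548,549,551,555,557,559,564,566,567,572,574,575,576,577,580,582,585,586,590,591,595,596,598,601,603])
(.lf [695,702,709,720,727,735,736,737,742,749,750,752,756]))
(.nd (.lf [517,518,527,528,539,542,549,566,568,569,577,585,588])
(.lf [700,709,710,717,727,730,735,742,744,749]))))
(.nd (.nd (.nd (.lf [241,243,245,248,251,253,256,258,259,262,264,268,271,273,278,281,283,291,301,303,312])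
(.lf []))
(.nd (.lf [172,180,181,194,210,230])
(.lf [471,475,481,482,486,488,489,493,496,497,500,503,506,508,509])))
(.nd (.nd (.lf [])
(.lf [941,944,957,967,968,982,987,995]))
(.lf [])))))
(.nd (.nd (.nd (.nd (.nd (.lf [1,10,25,37,61,91])
(.lf []))
(.nd (.lf [896,906,926,938])
(.lf [])))
(.nd (.nd (.lf [427,431,434,438,440])
(.lf [607,622,629,632,637,643]))
(.nd (.lf [])
(.lf [658,661,665,675,687]))))
(.nd (.nd (.nd (.lf [243,244,245,252,253,254,257,259,261,263,264,273,275,276,277,282,284,293,297,304])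
(.lf [241,253,258,264,278]))
(.nd (.lf [120,125,133,137,142,149])
(.lf [])))
(.nd (.nd (.lf [])
(.lf [883,897,907,911,918,920,923,926,933,936,938]))
(.nd (.lf [761,768,773,775,783,793,815,817,835,837,842])
(.lf [904,914,917])))))
(.nd (.nd (.nd (.nd (.lf [122,140])
(.lf [172,180,181,194,210,230]))
(.nd (.lf [949,964,975,976,979,986,998])
(.lf [])))
(.nd (.nd (.lf [566,585,587])
(.lf []))
(.nd (.lf [606,613,620,625,643])
(.lf []))))
(.nd (.nd (.nd (.lf [327,341,353,365,384])
(.lf [427,431,438,440,444,445,448,450,453,455,456,459]))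
(.lf []))
(.nd (.nd (.lf [802,809,811,821,822,824,831,843])
(.lf [1,37,61,67,97,100]))
(.nd (.lf [947,949,956,957,964,967,975,976,979,982,983,986,995,996,998])
(.lf []))))))))
(.nd (.nd (.nd (.nd (.nd (.nd (.nd (.lf [3,5,13,29,42,48,51,69,77,88,101,108,116])
(.lf [12,14,16,22,26,33,53,56,62,76,78,82,85,90,95,107,113]))
(.nd (.lf [849,853,863,864,865,867,869,873,875,876,880])
(.lf [3,7,19,25,36,40,46,57,61,67,72,77,80,91,97,106,108])))
(.nd (.nd (.lf [398,400,405,406,408,413,421,424])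
(.lf [534,548,559,567,572,574,591,593]))
(.nd (.lf [])
(.lf [607,622,629,632,634,637,641,643]))))
(.nd (.nd (.nd (.lf [])
(.lf [170,176,185,197,198,212,220]))
(.nd (.lf [1,3,7,16,19,29,32,40,45,55,57,59,62,67,71,77,80,82,84,85,97,100,103,113,115,118])
(.lf [249,272])))
(.nd (.nd (.lf [607,609,612,616,620,622,625,631,632,635,640])
(.lf [759,791,809,811,828,831]))
(.nd (.lf [646,658,668,670,675,682,686])
(.lf [871,879])))))
(.nd (.nd (.nd (.nd (.lf [129,136])
(.lf []))
(.nd (.lf [893,912,924,929])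
(.lf [])))
(.nd (.nd (.lf [467,469,476,479,481,482,487,489,493,503,506])
(.lf [672,684]))
(.nd (.lf [])
(.lf [696,697,705,711,714,715,721,724,733,734,737,740,742,748,754]))))
(.nd (.nd (.nd (.lf [])
(.lf [319,330,344,357,359,380]))
(.nd (.lf [170,176,179,190,198,205,226])
(.lf [426,435,443])))
(.nd (.nd (.lf [695,696,697,706,709,711,714,715,720,721,724,727,734,737,740,742,744,754])
(.lf [883,884,885,889,891,896,897,899,901,903,907,909,910,915,916,918,919,920,922,927,928,931,932,933,935,938]))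
(.nd (.lf [848,849,856,861,863,867,870,873,874,875,877,880])
(.lf [941,948,958,965,977,990]))))))
(.nd (.nd (.nd (.nd (.nd (.lf [3,7,16,19,29,32,33,36,40,46,55,56,57,59,61,62,67,72,77,80,82,84,85,100,106,113,115,118])
(.lf [4,6,12,14,16,19,22,24,27,29,33,40,43,45,49,52,59,62,65,67,71,87,90,96,97,100,103,107,117]))
(.nd (.lf [891,899,921,922,934,935])
(.lf [121,125,128,131,132,135,138,144,147,157,159])))
(.nd (.nd (.lf [432,445])
(.lf [633]))
(.nd (.lf [319,322,330,337,344,349,356,357,359,372,380,385])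
(.lf [644,647,649,668,673,675,683,686,688]))))
(.nd (.nd (.nd (.lf [])
(.lf [244,245,247,250,252,254,256,257,259,261,263,269,273,275,276,277,282,284,291,293,294,295,296,297,298,304,312,313,315]))
(.nd (.lf [9,16,19,21,22,32,40,43,55,57,62,67,77,80,84,97,100,106,108,115])
(.lf [348,350,354,358,365,367,368,369,376,384,386,388,389])))
(.nd (.nd (.lf [649,673,683])
(.lf [849,853,864,865]))
(.nd (.lf [757,767,768,773,778,787,799,808,810,815,817,820,826,829,832,835,837,841,842,845])
(.lf [885,899,901,909,915,919,922,925,927,935,938,939])))))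
(.nd (.nd (.nd (.nd (.lf [127,143])
(.lf [170,172,174,176,178,182,183,186,189,191,195,203,206,211,215,220,223,225,227]))
(.nd (.lf [])
(.lf [170,172,174,177,178,181,185,190,194,197,201,203,212,217,220,224,235,236,238])))
(.nd (.nd (.lf [547,561,566,578,580,587,597,600])
(.lf [808,822,824,829,842,843]))
(.nd (.lf [518,522,524,542,544,558,573,577,580,584,585,590,598,600,601])
(.lf []))))
(.nd (.nd (.nd (.lf [243,245,247,248,254,258,269,271,291,313,318])
(.lf []))
(.nd (.lf [170,174,176,185,197,198,212,217,220,236])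
(.lf [566,585,587,601])))
(.nd (.nd (.lf [782,799,815,820,835,841])
(.lf [12,17,26,33,39,56,78,85,90,96,107]))
(.nd (.lf [892])
(.lf [])))))))
(.nd (.nd (.nd (.nd (.nd (.nd (.lf [1,18,23,32,34,37,44,55,58,61,77,82,84,93,106,115])
(.lf [1,6,7,8,17,31,45,47,54,60,65,68,71,92,96,98,103,112]))
(.nd (.lf [848,850,852,854,874,881])
(.lf [4,14,52,59,87,90,117])))
(.nd (.nd (.lf [397,400,401,406,424])
(.lf []))
(.nd (.lf [319,328,330,344,354,357,359,365,368,379,380,384,386])
(.lf [625,629,637,639,643]))))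
(.nd (.nd (.nd (.lf [170,203])
(.lf [243,245,247,248,252,254,257,258,263,269,271,275,277,282,284,287,291,297,304,308,313,318]))
(.nd (.lf [23,24,44,45,47,65,70,71,85,96,102,103])
(.lf [])))
(.nd (.nd (.lf [645,646,658,666,670,674,682,685])
(.lf [871,879]))
(.nd (.lf [695,709,720,727,735,742,749])
(.lf [850,854])))))
(.nd (.nd (.nd (.nd (.lf [121,131,138,153,166])
(.lf [121,125,128,131,132,135,138,144,147,153,157,164,166]))
(.nd (.lf [943,957,961,968,981,993])
(.lf [170,172,178,201,203,238])))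
(.nd (.nd (.lf [522,539,542,549,555,558,564,566,569,573,575,577,580,585,595,598])
(.lf [695,699,709,713,716,720,723,727,735,736,739,742,745,749,752,754]))
(.lf [])))
(.nd (.nd (.nd (.lf [])
(.lf [400,406,412,419,420,424]))
(.nd (.lf [])
(.lf [467,485,493,495])))
(.nd (.nd (.lf [695,696,705,706,709,711,714,715,720,721,724,727,733,734,735,740,742,744,748,749])
(.lf [941,945,956,959,962,965,967,970,974,977,982,984,985,987,989,994,997,999]))
(.nd (.lf [912,924,937])
(.lf []))))))
(.nd (.nd (.nd (.nd (.nd (.lf [1,7,31,45,71,103,112])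
(.lf [3,7,13,22,25,36,43,46,51,61,67,72,75,80,91,97,104,111]))
(.lf []))
(.nd (.nd (.lf [])
(.lf [644,647,658,661,665,666,668,669,675,677,680,686,687,692]))
(.nd (.lf [])
(.lf [644,671]))))
(.nd (.nd (.nd (.lf [245,268])
(.lf [323,338,343,350,351,358,362,367,369,376,388]))
(.nd (.lf [124,126,128,131,133,134,142,146,153,156,162,164,166])
(.lf [])))
(.nd (.nd (.lf [701,702,717,727,730,735,736,737,742,749,750,752])
(.lf [891,899,921,922,934,935]))
(.nd (.lf [779,807,825,838])
(.lf [947,957,964,966,975,976,978,979,980,986,988,992,998,1001])))))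
(.nd (.nd (.nd (.nd (.lf [170,172,180,181,194,210,230])
(.lf [170,172,177,179,181,185,190,192,194,205,207,210,217,224,226,230,235,236,238]))
(.nd (.lf [941,943,944,947,952,957,961,964,968,969,971,978,981,983,985,987,992,996,999])
(.lf [297])))
(.nd (.nd (.lf [607,612,613,614,629,634,635,637,639,643])
(.lf [765,770,776,787,791,792,800,809,810,811,814,816,822,824,825,831,832,836,842,843,844]))
(.nd (.lf [])
(.lf [759,791,809,811,828,831]))))
(.nd (.nd (.nd (.lf [323,331,333,338,340,343,350,351,362,367,369,376,384,388])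
(.lf []))
(.nd (.lf [245,268])
(.lf [])))
(.nd (.nd (.lf [757,763,780,785,787,791,797,808,809,810,811,814,819,822,824,831,832,834,840,842,843])
(.lf [8,47,60,65,68,92,96,98]))
(.nd (.lf [945,959,962,970,982])
(.lf []))))))))))
(.nd (.nd (.nd (.nd (.nd (.nd (.nd (.nd (.nd (.lf [3,12,14,15,21,26,30,42,43,48,53,62,63,69,76,95,101])
(.lf []))
(.nd (.lf [757,759,762,763,770,774,776,779,791,792,794,796,807,809,811,814,824,825,828,831,836,844])
(.lf [3,13,51,75,80,104,111])))
(.nd (.nd (.lf [321,335,347])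
(.lf [467,468,470,474,475,483,484,488,492,494,496,497,502,505,507,508,509,516]))
(.nd (.lf [])
(.lf [559,564,572,574,580,591,598]))))
(.nd (.nd (.nd (.lf [172,174,178,185,197,201,203,220,235])
(.lf [170,172,174,176,178,184,185,189,197,198,201,203,212,214,220,232,235,238]))
(.nd (.lf [23,34,44,58,82])
(.lf [247,255])))
(.nd (.nd (.lf [])
(.lf [763,764,780,782,785,795,797,799,814,815,818,819,820,830,835,839,840,841]))
(.nd (.lf [673,683])
(.lf [791,807,809,811,825,831])))))
(.nd (.nd (.nd (.nd (.lf [7,15,22,25,29,36,46,48,53,61,67,72,77,88,91,108])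
(.lf [6,24,33,45,47,65,71,96,103]))
(.lf []))
(.nd (.nd (.lf [468,470,474,475,477,483,502,516])
(.lf [655,658,661,664,665,666,675,677,680,685,687,691,692]))
(.nd (.lf [])
(.lf [698,702,709,712,713,722,727,735,736,737,738,742,749,750,751]))))
(.nd (.nd (.nd (.lf [247,256,269,275,296,297])
(.lf [323,332,334,343,346,355,358,371,374,391]))
(.nd (.lf [122,140])
(.lf [427,429,434,435,464])))
(.nd (.nd (.lf [])
(.lf [883,884,891,897,903,907,916,918,920,921,922,925,928,929,933,934,935,939,940]))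
(.nd (.lf [757,759,762,764,767,770,775,776,778,785,787,791,792,794,795,804,809,810,811,814,822,824,825,827,831,832,836,842,843,844])
(.lf [942,946,970,982,984,994,997]))))))
(.nd (.nd (.nd (.nd (.nd (.lf [5,7,25,36,42,46,67,69,72,91,97,101])
(.lf [17,22,33,56,78,85,96,107]))
(.nd (.lf [850,852,854,859,863,867,869,873,875,876,880])
(.lf [3,22,40,47,62,67,100])))
(.nd (.lf [])
(.nd (.lf [319,320,328,329,330,339,344,354,356,359,365,368,379,380,384,386,396])
(.lf [606,613,625]))))
(.nd (.nd (.nd (.lf [])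
(.lf [243,245,251,253,258,259,262,264,268,273,281,283,291,295,301,303,305,312]))
(.nd (.lf [5,42,69,101])
(.lf [319,326,330,343,344,352,357,358,359,380])))
(.nd (.nd (.lf [])
(.lf [850,852,863,864,867,869,871,873,875,876,880]))
(.nd (.lf [694,712,718,722,729,731,735,745,747])
(.lf [885,889,891,896,899,903,915,916,926,927,928,938])))))
(.nd (.nd (.nd (.nd (.lf [120,123,125,133,137,142,149,168])
(.lf [120,123,125,133,137,142,147,149,153,156,164,168]))
(.nd (.lf [941,944,948,956,957,958,965,967,968,977,982,987,990,995])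
(.lf [172,177,181,185,190,194,205,210,224,230,238])))
(.nd (.nd (.lf [534,544,546,563,572,574,579,583,584,591,593,598])
(.lf [696,697,709,711,715,721,727,734,735,737,742,749]))
(.nd (.lf [])
(.lf [773,808,815,817,829,835,837]))))
(.nd (.nd (.nd (.lf [243,245,247,248,254,258,269,271,291,313,318])
(.lf [426,428,435,438,442,443,444,450,453,454,459,460,463,465,466]))
(.nd (.lf [170,176,177,179,185,190,192,198,205,207,217,226,235,236])
(.lf [469,475,476,481,482,489,493,500,503,504,506,508])))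
(.nd (.nd (.lf [768,773,826,845])
(.lf [941,948,958,965,977,990]))
(.nd (.lf [887,891,899,903,910,916,920,921,922,927,928,934,935])
(.lf [])))))))
(.nd (.nd (.nd (.nd (.nd (.nd (.lf [12,19,27,29,40,49,59,62,67,78,100,109])
(.lf [3,16,19,40,57,67,80,97,100]))
(.nd (.lf [848,850,861,863,867,869,870,874,875,876,877])
(.lf [])))
(.nd (.nd (.lf [397,401,405,408,412,415,419,423])
(.lf [519,521,532,533,544,561,584]))
(.nd (.lf [247,256,269,275,296])
(.lf []))))
(.nd (.nd (.nd (.lf [])
(.lf [243,245,247,250,252,254,255,257,260,261,263,265,270,275,276,277,279,280,282,284,288,292,296,300,302,304,314,317,318]))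
(.nd (.lf [17,22,33,39,56,78,85,96,107])
(.lf [243,246,256,264,269,283,287,291,293,297,305,308,313,316])))
(.nd (.nd (.lf [604,607,613,614,617,619,629,634,637,639,641])
(.lf [773,784,802,808,815,817,821,822,829,835,837,842,843]))
(.nd (.lf [741,753])
(.lf [873,880])))))
(.nd (.nd (.nd (.nd (.lf [123,141,152])
(.lf [123,141,152]))
(.nd (.lf [941,944,945,949,956,957,959,962,964,967,968,970,974,975,976,979,982,983,984,985,986,987,989,994,995,996,997,998])
(.lf [170,172,174,176,178,183,185,186,189,191,197,201,206,215,220,223,225,227,235])))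
(.nd (.nd (.lf [])
(.lf [741,753]))
(.nd (.lf [557,572,576,596])
(.lf [694,718,729,731,745,747]))))
(.nd (.nd (.nd (.lf [])
(.lf [327,328,330,344,348,354,357,359,365,368,379,380,384,386,396]))
(.nd (.lf [170])
(.lf [427,429,434,435,442,450,451,452,453,455,460,462,463])))
(.nd (.nd (.lf [])
(.lf [956,962,967,974,985,989,994]))
(.nd (.lf [848,850,852,854,856,861,863,867,869,870,874,875,877,881])
(.lf [977,990]))))))
(.nd (.nd (.nd (.nd (.nd (.lf [12,14,17,22,26,33,39,53,56,62,76,78,85,95,96,107])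
(.lf [4,12,16,22,24,27,43,44,45,47,49,59,64,65,67,70,71,85,87,90,96,97,100,102,103,107]))
(.nd (.lf [884,892,896,897,906,907,919,932])
(.lf [124,131,134])))
(.nd (.nd (.lf [427,431,434,438,440,442,444,448,450,459])
(.lf [613,625,629,634,637,639,643]))
(.nd (.lf [404,407])
(.lf [653,655,674,685]))))
(.nd (.nd (.nd (.lf [170,175,176,177,185,190,198,214,222])
(.lf [242,247,249,252,255,257,260,263,270,272,275,277,282,284,288,296,304,317,318]))
(.lf []))
(.nd (.nd (.lf [644,647,648,653,654,661,666,667,668,669,670,676,680,682,689,692])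
(.lf [884,907,912,918,920,924,929,933,937,940]))
(.nd (.lf [])
(.lf [883,885,891,896,897,907,910,915,918,919,920,927,931,932,933])))))
(.nd (.nd (.nd (.nd (.lf [124,126,128,131,133,134,142,146,153,156,160,162,164])
(.lf [174,176,183,189,215,220,223]))
(.nd (.lf [941,942,945,946,949,956,959,962,964,965,967,970,976,977,979,982,984,990,997])
(.lf [170,172,178,201,203,206,220,225,227,238])))
(.nd (.nd (.lf [522,534,539,542,546,555,558,563,564,572,573,574,575,577,579,580,582,583,585,591,593,595,598,603])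
(.lf [787,791,809,810,811,831,832]))
(.nd (.lf [633])
(.lf [763,779,796,807,825]))))
(.nd (.nd (.nd (.lf [319,320,328,329,330,339,344,354,356,359,365,368,379,380,384,386,396])
(.lf [441,447,457]))
(.nd (.lf [245,261,276,284])
(.lf [521,533,584])))
(.nd (.nd (.lf [779,807,825,838])
(.lf []))
(.nd (.lf [941,944,956,957,962,965,967,968,974,977,982,985,987,989,990,994,995])
(.lf []))))))))
(.nd (.nd (.nd (.nd (.nd (.nd (.nd (.lf [6,8,17,31,47,54,60,68,92,112])
(.lf [18,28,66,69,99,101]))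
(.nd (.lf [850,852,854,859,863,867,869,871,872,875,876,878,879])
(.lf [4,12,14,16,19,22,27,29,40,49,52,59,62,67,87,90,97,100,107,117])))
(.nd (.nd (.lf [325,326,331,332,336,338,340,342,346,350,351,355,371,374,381,391,393])
(.lf []))
(.nd (.lf [245,261,276,284,318])
(.lf [523,557,576,596]))))
(.nd (.nd (.nd (.lf [170,176,179,190,192,198,205,207,226])
(.lf [221]))
(.nd (.lf [1,6,7,8,17,31,45,47,54,60,65,68,71,92,96,103,112])
(.lf [243,245,251,253,258,259,262,264,268,273,281,283,291,295,301,303,312])))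
(.nd (.nd (.lf [606,607,612,613,614,620,635,643])
(.lf [763,768,773,780,782,785,795,797,799,808,814,815,817,818,819,820,822,824,829,835,837,839,840,841,842,843]))
(.nd (.lf [645,646,653,658,661,666,669,670,674,677,680,682,685])
(.lf [848,850,852,863,869,874,881])))))
(.nd (.nd (.nd (.nd (.lf [121,131,138,153,166])
(.lf [125,128,132,135,143,144,147,154,157,159,161]))
(.nd (.lf [887,891,892,899,902,910,920,921,922,927,934,935])
(.lf [])))
(.nd (.nd (.lf [468,470,474,475,477,483,502,516])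
(.lf [644,646,649,651,663,668,670,673,675,682,683,686]))
(.nd (.lf [471,475,478,481,483,486,489,500])
(.lf [701,716,717,727,729,730,737,742,746,752]))))
(.nd (.nd (.nd (.lf [241,243,245,247,251,253,256,258,259,262,264,268,269,273,278,281,283,291,297,301,303,305])
(.lf [325,326,331,336,338,340,342,348,350,351,354,355,358,365,367,368,369,371,374,376,384,386,388,389,391,393]))
(.nd (.lf [172,182,195,203,206,211,225])
(.lf [427,428,438,444,448,450,452,453,456,462,463])))
(.nd (.nd (.lf [])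
(.lf [892,904,914,917]))
(.nd (.lf [872,878])
(.lf [941,943,944,957,961,968,981,983,993,996]))))))
(.nd (.nd (.nd (.nd (.nd (.lf [1,6,7,8,17,19,29,31,40,45,47,54,59,60,62,67,68,71,92,100,103,112])
(.lf [1,23,34,37,44,58,61,82]))
(.nd (.lf [884,885,887,889,891,897,899,902,903,907,909,910,915,916,919,920,927,928])
(.lf [])))
(.nd (.nd (.lf [426,435,443])
(.lf [522,534,539,542,549,555,558,564,566,569,573,575,577,580,582,585,587,595,598,601,603]))
(.nd (.lf [325,326,331,336,338,340,342,350,351,355,369,371,374,391,393])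
(.lf [678,690]))))
(.nd (.nd (.nd (.lf [170,172,174,176,178,185,189,197,201,215,220,235])
(.lf [250,259,276,294,295,298,315]))
(.nd (.lf [2,14,38,53,76])
(.lf [330])))
(.nd (.nd (.lf [646,658])
(.lf []))
(.nd (.lf [757,759,762,770,774,776,791,792,794,809,811,814,822,824,825,831,836,842,843,844])
(.lf [899,921,934])))))
(.nd (.nd (.nd (.nd (.lf [120,123,124,125,133,142,153,156,160])
(.lf []))
(.nd (.lf [945,956])
(.lf [173,180,182,203,238])))
(.nd (.nd (.lf [519,520,521,533,534,537,544,545,552,570,574,589,593,598])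
(.lf [694,700,710,717,719,727,730,732,744]))
(.nd (.lf [])
(.lf [767,768,787,799,810,815,817,820,832,835,841]))))
(.nd (.nd (.nd (.lf [294,295,315])
(.lf [427,428,429,438,444,448,450,451,452,453,454,455,456,459,462,463,465]))
(.nd (.lf [177,185,190])
(.lf [534,544,572,574,591,593,598])))
(.nd (.nd (.lf [757,761,763,765,768,773,775,780,783,785,793,797,800,808,809,811,814,815,816,817,819,822,824,831,834,835,837,840,842,843])
(.lf [3,19,40,55,57,61,62,67,77,80,84,91,93,97,100,106,115]))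
(.lf []))))))
(.nd (.nd (.nd (.nd (.nd (.nd (.lf [24,44,47,70,85,102])
(.lf [18,28,66,69,89,99,101]))
(.nd (.lf [848,849,852,853,856,861,863,864,865,867,870,873,874,875,877,880,881])
(.lf [])))
(.nd (.nd (.lf [403,409])
(.lf [534,539,541,546,555,557,564,572,575,576,577,580,582,594,595,596,598,603]))
(.nd (.lf [323,325,331,334,338,340,342,343,350,351,355,362,367,369,374,376,382,388,393])
(.lf [629,637,639,643]))))
(.nd (.nd (.nd (.lf [170,171,172,176,177,181,185,190,194,197,198,205,210,212,224,230])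
(.lf []))
(.nd (.lf [11])
(.lf [241,253,258,264,278])))
(.nd (.nd (.lf [644,645,647,653,654,661,666,668,669,674,677,685])
(.lf [848,850,852,863,869,872,874,878,881]))
(.lf []))))
(.nd (.nd (.nd (.nd (.lf [121,123,125,128,131,132,135,138,144,147,157])
(.lf [126,134,146,153,162,164,166]))
(.nd (.lf [941,943,944,952,953,957,961,968,969,977,981,983,990,993,996])
(.lf [172,180,181,194])))
(.nd (.nd (.lf [561,578,580,597,600])
(.lf [698,701,702,713,717,722,727,730,735,737,738,742,751,752]))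
(.nd (.lf [526,559,572,574,591])
(.lf [757,764,782,787,799,808,810,815,820,822,824,830,832,835,841,842,843]))))
(.nd (.nd (.nd (.lf [244,252,257,259,261,263,273,275,276,277,282,284,304])
(.lf []))
(.nd (.lf [170,174,176,185,197,198,212,214,220,232,235])
(.lf [471,475,478,483,486])))
(.nd (.nd (.lf [])
(.lf [941,943,944,949,952,957,961,964,965,968,969,976,977,979,981,983,985,987,993,996,999]))
(.nd (.lf [883,897,907,918,920,926,933,938])
(.lf []))))))
(.nd (.nd (.nd (.nd (.nd (.lf [6,9,16,21,22,23,24,32,33,43,44,45,47,55,57,65,71,77,96,103])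
(.lf [4,14,52,59,87,90,117]))
(.nd (.lf [])
(.lf [121,128,131,135,138,144,147,153,157,164,166])))
(.nd (.nd (.lf [431,438,440])
(.lf [606,616,620,622,625,629,632]))
(.nd (.lf [426,434,435,442,443])
(.lf [648,651,658,661,663,665,670,673,675,687]))))
(.nd (.nd (.nd (.lf [264,278,283,299,305,316])
(.lf []))
(.nd (.lf [127,143])
(.lf [397,401,412,419,420])))
(.nd (.nd (.lf [])
(.lf [887,888,899,902,910,919,920,921,931,932,934]))
(.nd (.lf [763,770,773,780,785,791,795,797,814,818,819,839,840])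
(.lf [883,893,902,911,915,926])))))
(.nd (.nd (.nd (.nd (.lf [172,176,178,184,189,201,203])
(.lf [172,174,178,185,197,201,203,220,235,238]))
(.nd (.lf [942,945,946,959,962,970,982,984,997])
(.lf [243,244,251,252,253,259,261,264,273,276,291,293,295,301])))
(.nd (.nd (.lf [607,609,616,620,622,625,631,632,640])
(.lf [767,768,773,787,799,810,815,817,820,832,835,841]))
(.nd (.lf [610,634,641])
(.lf [763,780,782,785,795,797,799,814,815,818,819,820,822,824,835,839,840,841,842,843]))))
(.nd (.nd (.nd (.lf [319,326,328,330,331,336,342,344,354,355,357,359,368,371,374,379,380,391,393])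
(.lf [467,468,469,470,471,475,478,479,481,483,486,487,488,489,496,497,498,499,500,503,508,509,511,512]))
(.nd (.lf [252,257,263,275,277,282,284,304])
(.lf [539,541,546,555,557,572,575,576,577,594,595,596])))
(.nd (.nd (.lf [757,767,768,773,778,808,815,817,826,829,835,837,842,845])
(.lf [18,28,66,69,89,99,101]))
(.nd (.lf [941,942,945,946,949,956,959,962,964,967,970,976,979,982,984,997])
(.lf [])))))))))
(.nd (.nd (.nd (.nd (.nd (.nd (.nd (.nd (.lf [1,4,7,16,22,24,43,44,45,47,64,65,70,71,85,90,96,102,103,118])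
(.lf [941,947,964,971,978,983,992]))
(.nd (.lf [757,762,768,773,776,794,802,808,815,817,821,822,824,829,835,837,842,843])
(.lf [1,7,23,24,44,45,65,70,71,85,96,102,103])))
(.nd (.nd (.lf [320,323,325,328,329,330,338,340,343,348,350,351,354,362,365,368,369,376,379,382,384,386,396])
(.lf [468,470,475,477,479,481,483,486,487,488,492,496,497,499,502,505,508,509,510,512,516]))
(.nd (.lf [])
(.lf [525,534,544,558,561,572,573,574,577,578,580,584,590,591,592,593,597,598,600,601]))))
(.nd (.nd (.nd (.lf [170,172,176,178,198,201,203])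
(.lf [177,185,190,221]))
(.nd (.lf [4,9,16,21,22,32,43,55,57,59,64,77,87,90,118])
(.lf [243,245,246,247,251,253,256,258,259,262,264,268,269,273,278,281,283,287,291,293,295,297,299,301,303,305,308,312,313])))
(.nd (.nd (.lf [610])
(.lf []))
(.nd (.lf [644,646,647,651,658,661,663,665,667,668,670,673,675])
(.lf [881])))))
(.nd (.nd (.nd (.nd (.lf [23,44,47])
(.lf [119,123,125,128,132,135,143,144,147,154,157,161]))
(.nd (.lf [884,885,887,888,891,892,897,899,901,902,907,909,910,915,919,920,922,927,935,938])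
(.lf [])))
(.nd (.nd (.lf [])
(.lf [645,653,661,663,666,667,669,670,673,674,676,677,680,682,685,689,692]))
(.nd (.lf [467,469,479,487,498,503,511])
(.lf [728,742,743,752,754]))))
(.nd (.nd (.nd (.lf [264,278,283,299,305,316])
(.lf []))
(.nd (.lf [120,123,125,128,130,133,137,142,147,149,153,156,164,168])
(.lf [427,428,429,431,438,440,444,448,450,451,452,453,455,459,462,463])))
(.nd (.nd (.lf [709,714,720,733])
(.lf [896,897,906,919,932]))
(.nd (.lf [849,850,852,853,861,863,864,865,867,869,870,871,873,875,876,877,880])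
(.lf [941,949,964,965,976,977,979,985,987,999]))))))
(.nd (.nd (.nd (.nd (.nd (.lf [4,9,12,16,21,22,27,32,43,49,55,57,59,64,77,87,90,107])
(.lf [11]))
(.nd (.lf [848,850,852,854,856,861,863,867,869,870,873,874,875,876,877,880,881])
(.lf [124,126,128,131,134,146,153,162,164,166])))
(.nd (.nd (.lf [426,427,429,431,434,435,438,440,443,451,455])
(.lf []))
(.nd (.lf [327,341,353,365,384])
(.lf [644,647,658,661,665,668,669,675,677,680,686]))))
(.nd (.nd (.nd (.lf [])
(.lf [243,245,247,248,254,258,269,271,287,291,297,308,313,318]))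
(.nd (.lf [7,22,25,36,46,61,67,72,91,97])
(.lf [])))
(.nd (.nd (.lf [])
(.lf [863,867,869,873,875,876,880]))
(.nd (.lf [757,762,776,794,808,822,824,829,842,843])
(.lf [884,907,918,920,929,933,940])))))
(.nd (.nd (.nd (.nd (.lf [120,128,130,137,147,149])
(.lf []))
(.nd (.lf [])
(.lf [170,174,176,185,197,198,212,214,220,232,235])))
(.nd (.nd (.lf [526,548,559,567,572,574,591])
(.lf [694,712,718,722,729,731,735,745,747]))
(.nd (.lf [524,526,534,537,539,541,546,548,555,557,559,564,567,572,575,576,577,582,586,594,595,596,603])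
(.lf [773,842]))))
(.nd (.nd (.nd (.lf [246,247,256,269,287,297])
(.lf []))
(.nd (.lf [173,180,182,203,238])
(.lf [541,546,557,572,576,596])))
(.nd (.nd (.lf [757,763,767,768,770,773,778,780,785,787,791,795,797,799,808,809,810,811,814,815,817,818,819,820,829,831,832,835,837,839,840,841,842])
(.lf [977,990]))
(.nd (.lf [884,896,897,906,907,919,932])
(.lf [])))))))
(.nd (.nd (.nd (.nd (.nd (.nd (.lf [28,50,74])
(.lf [8,47,60,65,68,92,96,98]))
(.nd (.lf [])
(.lf [5,21,30,42,69,89,101])))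
(.nd (.nd (.lf [])
(.lf [519,534,552,570,572,574,584,591,593]))
(.nd (.lf [])
(.lf [625,643]))))
(.nd (.nd (.nd (.lf [180])
(.lf [242,243,245,247,250,252,254,257,260,263,265,270,275,277,279,280,282,284,288,292,296,300,302,304,314,317,318]))
(.nd (.lf [1,6,7,24,33,45,47,65,71,96,103])
(.lf [244,245,250,252,254,257,259,261,263,273,275,276,277,282,284,291,293,294,295,296,297,298,304,312,313,315])))
(.nd (.nd (.lf [645,646,653,656,658,665,666,670,674,675,677,679,682,685,687,691,693])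
(.lf []))
(.nd (.lf [694,699,700,713,716,723,728,735,736,739,743,745,749])
(.lf [863,867,869,873,875,876,880])))))
(.nd (.nd (.nd (.nd (.lf [120,123,124,125,133,142,147,153,156,160,161])
(.lf [121,122,128,131,135,138,140,144,147,153,157,164,166]))
(.nd (.lf [942,945,946,959,962,970,982,984,994,997])
(.lf [172,178,182,186,191,195,203,206,211,220,225,227])))
(.nd (.nd (.lf [534])
(.lf [697,705,711,714,721,724,733,734,737,740,742,744,748,754]))
(.nd (.lf [534,544,546,548,559,563,567,572,574,579,583,584,591,593,598])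
(.lf [699,709,716,726,729,735,736,737,746,749,750]))))
(.nd (.nd (.nd (.lf [])
(.lf [400,406,413,415,421,423,424]))
(.nd (.lf [203])
(.lf [467,468,469,470,471,475,479,481,483,486,487,488,489,496,497,499,500,503,508,509,512])))
(.nd (.nd (.lf [694,699,700,702,713,716,723,728,736,739,743,744])
(.lf [985,987,999]))
(.nd (.lf [891,899,921,922,934,935])
(.lf []))))))
(.nd (.nd (.nd (.nd (.nd (.lf [3,19,40,57,77,80,97,106,108])
(.lf [2,14,22,36,38,43,53,61,76]))
(.nd (.lf [883,884,892,897,907,918,920,929,933,940])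
(.lf [121,122,126,131,135,138,140,144,147,153,157,164,166])))
(.nd (.nd (.lf [])
(.lf [629,637,639,643]))
(.nd (.lf [])
(.lf [672,684]))))
(.nd (.nd (.nd (.lf [247,255])
(.lf [247,256,269,275,296]))
(.nd (.lf [129,136])
(.lf [400,406,413,415,421,423])))
(.nd (.nd (.lf [])
(.lf [912,924,937]))
(.nd (.lf [763,764,767,768,775,778,780,782,785,787,795,797,799,804,810,814,815,818,819,820,822,827,832,835,839,840,841,842])
(.lf [885,889,891,896,899,903,910,915,916,919,920,927,928,931,932])))))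
(.nd (.nd (.nd (.nd (.lf [120,123,124,125,128,133,134,142,153,156,164,168])
(.lf []))
(.nd (.lf [941,943,944,952,957,961,968,969,981,983,985,987,996,999])
(.lf [170,176,185,197,198,212,220])))
(.nd (.nd (.lf [])
(.lf [773,842]))
(.nd (.lf [607,609,616,620,622,625,631,632,640])
(.lf []))))
(.nd (.nd (.nd (.lf [324,326,328,332,339,342,344,346,352,355,356,357,363,371,372,374,381,391])
(.lf [468,470,474,475,477,483,492,502,505,516]))
(.nd (.lf [247,255])
(.lf [519,534,552,570,572,574,584,591,593])))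
(.nd (.nd (.lf [768,773,808,815,817,829,835,837])
(.lf [3,7,18,25,28,29,36,42,46,48,51,63,66,67,69,72,75,77,80,88,89,91,97,99,101,104,108,111]))
(.nd (.lf [985,987,999])
(.lf []))))))))
(.nd (.nd (.nd (.nd (.nd (.nd (.nd (.lf [3,15,17,21,22,30,33,39,42,43,48,53,56,63,69,78,85,96,101,107])
(.lf [1,9,16,21,22,32,37,43,55,57,59,61,67,77,87,90,97,100,118]))
(.nd (.lf [848,850,852,854,859,863,867,869,874,875,876,881])
(.lf [6,12,16,24,27,33,45,49,59,65,67,71,87,96,97,100,103,107])))
(.nd (.nd (.lf [397,401])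
(.lf [525,547,566,585,587,601]))
(.nd (.lf [250,259,276,294,295,298,315])
(.lf [604,619,626,629,634,639,641]))))
(.nd (.nd (.nd (.lf [170,176,184,189,215])
(.lf [177,185,190]))
(.nd (.lf [2,3,12,13,14,29,35,38,51,53,75,76,80,104,111])
(.lf [243,248,258,269,271,287,291,308,313])))
(.nd (.nd (.lf [])
(.lf [757,767,778,782,799,808,815,820,822,824,829,835,841,842,843]))
(.nd (.lf [695,702,709,711,714,720,733,736,744,750,756])
(.lf [848,852,864,871,873,874,875,881])))))
(.nd (.nd (.nd (.nd (.lf [127,143])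
(.lf []))
(.nd (.lf [884,896,897,906,907,918,919,929,930,932])
(.lf [121,128,131,138,144,157,159,164])))
(.nd (.nd (.lf [])
(.lf [644,671]))
(.nd (.lf [467,468,469,470,471,475,477,479,481,482,483,486,487,488,489,492,493,496,497,499,500,503,505,506,512])
(.lf [696,697,709,711,715,721,727,734,735,737,742,749]))))
(.nd (.nd (.nd (.lf [242,243,247,248,252,255,257,258,260,263,270,271,275,277,282,284,288,292,304,314])
(.lf []))
(.nd (.lf [170,174,176,183,184,189,215,220,223])
(.lf [431,438,440,445,448,453,455,456])))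
(.nd (.nd (.lf [699,701,709,711,716,726])
(.lf [941,944,957,965,967,968,977,982,987,989,990,995,1000]))
(.nd (.lf [850,852,854,859,863,867,869,873,875,876,880])
(.lf [947,956,957,959,962,964,966,967,970,975,976,978,979,980,982,983,992,994,995,996]))))))
(.nd (.nd (.nd (.nd (.nd (.lf [2,12,14,29,35,38,51,53,75,76,104])
(.lf [7,18,25,32,36,46,55,61,67,72,91,93,97]))
(.nd (.lf [887,891,903,910,916,920,921,922,927,928,934,935])
(.lf [125,128,132,135,143,144,147,154,157,159,161])))
(.nd (.nd (.lf [])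
(.lf [604,613,619,626,629,634,637,639,641]))
(.nd (.lf [409])
(.lf [648,653,661,669,670,677,680,682]))))
(.nd (.nd (.nd (.lf [172,177,181,190,194,201,217,224,238])
(.lf []))
(.nd (.lf [120,126,128,130,134,137,146,147,149,160,161,162])
(.lf [330])))
(.nd (.nd (.lf [644,649,651,663])
(.lf [848,850,852,854,859,863,867,869,874,876,881]))
(.nd (.lf [787,791,809,810,811,831,832])
(.lf [887,902,910,920,925,927,939])))))
(.nd (.nd (.nd (.nd (.lf [124,126,128,131,133,134,142,146,153,156,162,164])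
(.lf [170,176,179,190,198,205,226]))
(.nd (.lf [])
(.lf [221])))
(.nd (.nd (.lf [549,566,569,585])
(.lf [757,759,762,770,774,776,791,792,794,809,811,814,822,824,825,831,836,842,843,844]))
(.lf [])))
(.nd (.nd (.nd (.lf [330])
(.lf [426,435,443]))
(.nd (.lf [])
(.lf [548,559,567,572,574,591])))
(.nd (.nd (.lf [758,759,763,764,767,768,769,770,775,778,779,780,782,785,787,790,791,796,797,799,804,807,809,810,811,812,814,815,819,820,822,825,827,828,830,831,832,833,835,840,841,842])
(.lf [18,28,66,69,99,101]))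
(.nd (.lf [883,884,885,891,897,899,901,907,909,915,918,919,920,922,926,927,933,935,938])
(.lf [])))))))
(.nd (.nd (.nd (.nd (.nd (.nd (.lf [1,7,23,24,33,44,45,70,71,102,103])
(.lf [3,13,51,75,80,104,111]))
(.nd (.lf [849,853,863,864,865,873,880])
(.lf [6,45,65,71,103])))
(.nd (.nd (.lf [397,401,405,408,412,415,419,423])
(.lf [539,541,546,555,557,572,575,576,577,594,595,596]))
(.nd (.lf [321,335,347])
(.lf [612,635]))))
(.nd (.nd (.nd (.lf [])
(.lf [243,245,246,247,251,253,256,258,259,262,264,268,269,273,278,281,283,287,291,293,295,297,299,301,303,305,308,312,313]))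
(.nd (.lf [18,32,55,77,84,93,106,115])
(.lf [359,379,380,396])))
(.nd (.nd (.lf [658,665,680,686])
(.lf [872,878]))
(.nd (.lf [695,697,702,709,711,714,720,721,733,736,742,750,752,754])
(.lf [849,853,864,865])))))
(.nd (.nd (.nd (.nd (.lf [119,123,125,128,131,132,135,141,143,144,147,152,154,157,161,164,165,167])
(.lf [124,126,131,134,142,146,153,156,160,162,164,166]))
(.nd (.lf [956,962,965,967,974,977,985,989,990,994])
(.lf [170,172,177,179,185,190,192,194,205,207,210,217,224,226,230,235,236,238])))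
(.nd (.nd (.lf [541,546,557,572,576,596])
(.lf [695,697,701,702,709,711,714,716,717,720,721,727,729,730,733,736,737,742,746,750,752,754]))
(.nd (.lf [519,520,534,537,544,545,552,570,572,574,589,591,593,598])
(.lf []))))
(.nd (.nd (.nd (.lf [243,247,253,256,264,269,275,293,296])
(.lf []))
(.nd (.lf [170,175,176,188,198,204,212,214,222,232,240])
(.lf [467,474,484,492,494,507])))
(.nd (.nd (.lf [])
(.lf [941,943,944,952,957,961,968,981,983,985,987,993,996,999]))
(.nd (.lf [911,923,926,936])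
(.lf []))))))
(.nd (.nd (.nd (.nd (.nd (.lf [5,21,30,42,69,89,101])
(.lf []))
(.nd (.lf [889,899,903,916,928])
(.lf [126,134,146,153,162,164,166])))
(.nd (.nd (.lf [])
(.lf [679,693]))
(.nd (.lf [426,429,435,443,451,454,455,465])
(.lf [695,697,702,709,711,720,721,727,733,735,736,737,742,749,750,752]))))
(.nd (.nd (.nd (.lf [244,252,257,259,261,263,273,275,276,277,282,284,304])
(.lf [323,326,328,330,334,343,344,352,354,355,357,358,359,365,368,371,374,379,380,384,386,391]))
(.nd (.lf [124,126,128,131,133,134,142,146,153,156,160,162,164])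
(.lf [400,406,412,419,420,424])))
(.nd (.nd (.lf [695,699,701,709,713,716,720,723,727,729,736,737,742,745,746])
(.lf [885,893,899,901,909,912,915,918,919,922,924,925,927,929,930,931,935,938,939]))
(.nd (.lf [757,762,768,773,776,794,808,815,817,822,824,829,835,837,842,843])
(.lf [989,1000])))))
(.nd (.nd (.nd (.nd (.lf [172,181,194])
(.lf [170,174,176,185,197,198,212,214,220,232,235]))
(.nd (.lf [16,22,33,56,78,82,85,107,113])
(.lf [243,245,247,250,252,254,257,260,261,263,265,270,275,276,277,279,280,282,284,288,292,296,300,302,304,314,317,318])))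
(.nd (.nd (.lf [625,629,637,639])
(.lf []))
(.nd (.lf [])
(.lf [784,802,821,822,824,842,843]))))
(.nd (.nd (.nd (.lf [322,330,337,349,356,372,385])
(.lf [467,468,469,470,471,479,481,482,483,487,488,489,493,496,497,498,499,500,503,506,511,512]))
(.nd (.lf [244,252,257,259,261,263,273,275,276,277,282,284,304])
(.lf [])))
(.nd (.nd (.lf [758,769,770,780,790,791,807,809,812,825,833])
(.lf [9,16,21,22,43,57,59,62,64,77,80,87,90,95,106,108,118]))
(.nd (.lf [941,943,944,952,957,961,968,969,981,983,985,987,993,996,999])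
(.lf [])))))))))))

end Pool.Agent.Work.MP235410
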