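import Pool.Agent.Work.MP_235410_co.Data1
import Pool.Agent.Work.MP_235410_co.Data2
import Pool.Agent.Work.MP_235410_co.Data3

/-!
# The closure check
-/

set_option autoImplicit false

namespace Pool.Agent.Work.MP235410

/-- Data of a letter of an image: position, contributions to the packed triple at the three
places, and the constants for the relevance tests. -/
structure Ent where
  j : ℕ
  c0 : ℕ
  c1 : ℕ
  c2 : ℕ
  u1 : ℕ
  w1 : ℕ
  u2 : ℕ
  w2 : ℕ

/-- entries of the letter 0 -/
def ent0 : List Ent := [⟨0, 0, 1065220, 0, 109128, 99975, 111274, 99026⟩,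
  ⟨1, 1, 1065218, 1, 118230, 109077, 121274, 109026⟩,
  ⟨2, 16777218, 68174080, 268435458, 126031, 118179, 125527, 119565⟩]
/-- entries of the letter 1 -/
def ent1 : List Ent := [⟨0, 0, 1065220, 0, 109128, 99975, 111274, 99026⟩,
  ⟨1, 33554433, 135282946, 536870913, 114508, 109077, 110662, 102202⟩,
  ⟨2, 16781313, 68165890, 268439553, 122314, 114462, 108883, 102921⟩]
/-- entries of the letter 2 -/
def ent2 : List Ent := [⟨0, 33554432, 135282948, 536870912, 105406, 99975, 100662, 92202⟩,
  ⟨1, 50335744, 202383620, 805310464, 115418, 105360, 94036, 82348⟩]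
/-- entries of the letter 3 -/
def ent3 : List Ent := [⟨0, 33554432, 135282948, 536870912, 105406, 99975, 100662, 92202⟩,
  ⟨1, 50335744, 202383620, 805310464, 115418, 105360, 94036, 82348⟩,
  ⟨2, 33820672, 134750468, 537137152, 120791, 115360, 85612, 77152⟩,
  ⟨3, 17047552, 67633412, 268705792, 128597, 120745, 83833, 77871⟩]

/-- entries of a letter -/
def ent (a : ℕ) : List Ent :=
  cond (Nat.beq a 0) ent0 (cond (Nat.beq a 1) ent1 (cond (Nat.beq a 2) ent2 ent3))

/-- `List.all`, by recursor -/
noncomputable def allL {α : Type} (l : List α) (f : α → Bool) : Bool :=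
  List.rec true (fun x _ ih => and (f x) ih) l

/-- disjunction of numbers over a list, by recursor -/
noncomputable def orL {α : Type} (l : List α) (f : α → ℕ) : ℕ :=
  List.rec 0 (fun x _ ih => Nat.lor (f x) ih) l

/-- bounded quantifier, by recursor -/
noncomputable def allN (n : ℕ) (f : ℕ → Bool) : Bool :=
  Nat.rec true (fun k ih => and (f k) ih) n

/-- packed triple -/
noncomputable def key (i : ℕ) : ℕ := keyT.get i
/-- packed child indices -/
noncomputable def chd (i : ℕ) : ℕ := chT.get i
/-- digit of the packed child indices -/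
def ch (n p q r : ℕ) : ℕ :=
  Nat.land (Nat.shiftRight n (Nat.mul 10 (Nat.add (Nat.mul 16 p) (Nat.add (Nat.mul 4 q) r)))) 1023

def lA (k : ℕ) : ℕ := Nat.land (Nat.shiftRight k 24) 3
def lB (k : ℕ) : ℕ := Nat.land (Nat.shiftRight k 26) 3
def lC (k : ℕ) : ℕ := Nat.land (Nat.shiftRight k 28) 3
def dX (k : ℕ) : ℕ := Nat.land k 63
def dY (k : ℕ) : ℕ := Nat.land (Nat.shiftRight k 6) 63
def dZ (k : ℕ) : ℕ := Nat.land (Nat.shiftRight k 12) 63
def dT (k : ℕ) : ℕ := Nat.land (Nat.shiftRight k 18) 63

/-- packed image of the vector under the matrix (up to a constant) -/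
def lin (k : ℕ) : ℕ :=
  Nat.add (Nat.add (Nat.mul 66 (dX k)) (Nat.mul 4161 (dY k)))
    (Nat.add (Nat.mul 266240 (dZ k)) (Nat.mul 270400 (dT k)))

/-- first functional of the image -/
def fA (k : ℕ) : ℕ := Nat.add (Nat.add (Nat.mul 26005 (dX k)) (Nat.mul 22288 (dY k)))
  (Nat.add (Nat.mul 15385 (dZ k)) (Nat.mul 28571 (dT k)))
/-- positive part of the second functional of the image -/
def fP (k : ℕ) : ℕ := Nat.add (Nat.add (Nat.mul 22652 (dX k)) (Nat.mul 6008 (dY k))) 173824
/-- negative part of the second functional of the image -/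
def fN (k : ℕ) : ℕ := Nat.add (Nat.mul 15050 (dZ k)) (Nat.mul 19042 (dT k))

/-- strict inequality test -/
def ltb (a b : ℕ) : Bool := not (Nat.ble b a)

/-- irrelevance test of a child -/
def irrT (A P N : ℕ) (x y z : Ent) : Bool :=
  or (ltb (Nat.add A (Nat.add x.u1 z.u1)) (Nat.add 2951968 (Nat.mul 2 y.w1)))
  (or (ltb (Nat.add 2951968 (Nat.mul 2 y.u1)) (Nat.add A (Nat.add x.w1 z.w1)))
  (or (ltb (Nat.add P (Nat.add x.u2 z.u2)) (Nat.add N (Nat.mul 2 y.w2)))
    (ltb (Nat.add N (Nat.mul 2 y.u2)) (Nat.add P (Nat.add x.w2 z.w2)))))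

/-- test of one child of a triple -/
noncomputable def tstA (k n : ℕ) (x y z : Ent) : Bool :=
  Nat.rec (irrT (fA k) (fP k) (fN k) x y z)
    (fun e _ => and (Nat.ble e 1000) (Nat.beq (Nat.add (key (Nat.succ e)) 9851204)
      (Nat.add (Nat.add (lin k) x.c0) (Nat.add y.c1 z.c2))))
    (ch n x.j y.j z.j)

/-- range test of a digit -/
def rg (d : ℕ) : Bool := and (Nat.ble 28 d) (Nat.ble d 36)

/-- range test of a key -/
noncomputable def chkK (i : ℕ) : Bool :=
  and (Nat.ble (key i) 1073741823) (and (rg (dX (key i))) (and (rg (dY (key i)))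
    (and (rg (dZ (key i))) (rg (dT (key i))))))

/-- test of all children of a triple -/
noncomputable def chkA (i : ℕ) : Bool :=
  allL (ent (lA (key i))) fun x => allL (ent (lB (key i))) fun y =>
    allL (ent (lC (key i))) fun z => tstA (key i) (chd i) x y z

/-- the adjacency list of the triple `i` in gap class `g` -/
noncomputable def row (g i : ℕ) : List ℕ :=
  cond (Nat.beq g 0) (rowT0.get i) (cond (Nat.beq g 1) (rowT1.get i)
    (cond (Nat.beq g 2) (rowT2.get i) (rowT3.get i)))

/-- bit set of the adjacency list, together with `0` -/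
noncomputable def mask (g i : ℕ) : ℕ :=
  Nat.lor 1 (orL (row g i) fun t => Nat.shiftLeft 1 t)

/-- bit sets of the children of `i`, as the second triple of a template -/
noncomputable def PM (i : ℕ) : ℕ :=
  orL (ent (lA (key i))) fun x => orL (ent (lB (key i))) fun y =>
    orL (ent (lC (key i))) fun z =>
      Nat.shiftLeft 1 (Nat.add (Nat.mul 1024 (Nat.add (Nat.mul 4 x.j) y.j))
        (ch (chd i) x.j y.j z.j))

/-- gap class of the child -/
def gs (g l p q : ℕ) : ℕ :=
  cond (Nat.beq g 0) (Nat.sub q p)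
    (cond (Nat.beq g 1) (cond (Nat.ble 3 (Nat.add (Nat.sub l p) q)) 3 (Nat.add (Nat.sub l p) q)) 3)

/-- length of the image of a letter -/
def lenh (a : ℕ) : ℕ :=
  cond (Nat.beq a 2) 2 (cond (Nat.beq a 3) 4 3)

/-- test of the second triples -/
noncomputable def tstB (g l n v : ℕ) (x y z : Ent) : Bool :=
  or (and (Nat.beq g 0) (ltb y.j x.j))
    (Nat.rec true (fun e _ => Nat.beq (Nat.land v (mask (gs g l x.j y.j) (Nat.succ e))) v)
      (ch n x.j y.j z.j))

/-- closure test of the row of the triple `i` in class `g` -/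
noncomputable def chkB (g i : ℕ) : Bool :=
  List.rec true (fun _ _ _ =>
    allL (ent (lB (key i))) fun y => allL (ent (lC (key i))) fun z =>
      allL (ent (lA (key i))) fun x =>
        tstB g (lenh (lA (key i))) (chd i)
          (Nat.land (Nat.shiftRight (orL (row g i) PM)
            (Nat.mul 1024 (Nat.add (Nat.mul 4 y.j) z.j)))
            (Nat.sub (Nat.shiftLeft 1 1024) 1)) x y z) (row g i)

end Pool.Agent.Work.MP235410
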