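import Pool.Agent.Work.MP_235410_co.Cert0

/-!
# Certificate data (generated)
-/

set_option autoImplicit false
set_option maxRecDepth 100000

namespace Pool.Agent.Work.MP235410

/-- packed triples -/
noncomputable def keyT : BT :=
(.nd (.nd (.nd (.nd (.nd (.nd (.nd (.nd (.nd (.nd (.lf 0)
(.lf 1032198176))
(.nd (.lf 210106400)
(.lf 58861600)))
(.nd (.nd (.lf 75896927)
(.lf 914229408))
(.nd (.lf 830076961)
(.lf 192808992))))
(.nd (.nd (.nd (.lf 545654752)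
(.lf 578685025))
(.nd (.lf 25303071)
(.lf 863901728)))
(.nd (.nd (.lf 411441119)
(.lf 243669087))
(.nd (.lf 696391711)
(.lf 260438049)))))
(.nd (.nd (.nd (.nd (.lf 8259681)
(.lf 42072098))
(.nd (.lf 746977248)
(.lf 327292961)))
(.nd (.nd (.lf 880670815)
(.lf 712906847))
(.nd (.lf 629282912)
(.lf 998123615))))
(.nd (.nd (.nd (.lf 813561888)
(.lf 108923039))
(.nd (.lf 294000609)
(.lf 394135649)))
(.nd (.nd (.lf 947783711)
(.lf 780531744))
(.nd (.lf 226891808)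
(.lf 1065486367))))))
(.nd (.nd (.nd (.nd (.nd (.lf 8255520)
(.lf 42076256))
(.nd (.lf 478812128)
(.lf 58853410)))
(.nd (.nd (.lf 612497439)
(.lf 176560096))
(.nd (.lf 92411999)
(.lf 461510625))))
(.nd (.nd (.nd (.lf 545392673)
(.lf 847382561))
(.nd (.lf 25565153)
(.lf 125696095)))
(.nd (.nd (.lf 679348319)
(.lf 512096224))
(.nd (.lf 964823009)
(.lf 797308895)))))
(.nd (.nd (.nd (.nd (.lf 276690913)
(.lf 310249569))
(.nd (.lf 1015420959)
(.lf 595724321)))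
(.nd (.nd (.lf 143005663)
(.lf 981076064))
(.nd (.lf 159524895)
(.lf 260442079))))
(.nd (.nd (.nd (.lf 813561953)
(.lf 377616417))
(.nd (.lf 562169889)
(.lf 930744481)))
(.nd (.nd (.lf 948045857)
(.lf 1048705057))
(.nd (.lf 763754464)
(.lf 0)))))))
(.nd (.nd (.nd (.nd (.nd (.nd (.lf 8783903)
(.lf 42076128))
(.nd (.lf 478808031)
(.lf 58853409)))
(.nd (.nd (.lf 343803999)
(.lf 176560159))
(.nd (.lf 830605282)
(.lf 461252639))))
(.nd (.nd (.nd (.lf 545396832)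
(.lf 847382496))
(.nd (.lf 25298976)
(.lf 863901793)))
(.nd (.nd (.lf 410916896)
(.lf 243398752))
(.nd (.lf 964565023)
(.lf 528877536)))))
(.nd (.nd (.nd (.nd (.lf 276957152)
(.lf 310511585))
(.nd (.lf 746977313)
(.lf 595724256)))
(.nd (.nd (.lf 880674976)
(.lf 713164833))
(.nd (.lf 897452129)
(.lf 998111201))))
(.nd (.nd (.nd (.lf 813561825)
(.lf 109185184))
(.nd (.lf 562173984)
(.lf 662829153)))
(.nd (.nd (.lf 948045792)
(.lf 1048971231))
(.nd (.lf 495589344)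
(.lf 1065224289))))))
(.nd (.nd (.nd (.nd (.nd (.lf 8521824)
(.lf 41814049))
(.nd (.lf 746715167)
(.lf 327022561)))
(.nd (.nd (.lf 612235360)
(.lf 444991392))
(.nd (.lf 360843296)
(.lf 729946144))))
(.nd (.nd (.nd (.lf 545392674)
(.lf 847382562))
(.nd (.lf 293734368)
(.lf 125700256)))
(.nd (.nd (.lf 679348256)
(.lf 780793823))
(.nd (.lf 226887711)
(.lf 797050976)))))
(.nd (.nd (.nd (.nd (.lf 276957217)
(.lf 578680928))
(.nd (.lf 1015150624)
(.lf 595724322)))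
(.nd (.nd (.lf 143005664)
(.lf 243922911))
(.nd (.lf 427956191)
(.lf 260171744))))
(.nd (.nd (.nd (.lf 75630686)
(.lf 646056096))
(.nd (.lf 830343136)
(.lf 193079327)))
(.nd (.nd (.lf 210372575)
(.lf 58595359))
(.nd (.lf 1032193951)
(.lf 0))))))))
(.nd (.nd (.nd (.nd (.nd (.nd (.nd (.lf 8783839)
(.lf 1032194081))
(.nd (.lf 210110497)
(.lf 58853345)))
(.nd (.nd (.lf 75630688)
(.lf 176298014))
(.nd (.lf 830347297)
(.lf 192817248))))
(.nd (.nd (.nd (.lf 545654816)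
(.lf 578943010))
(.nd (.lf 25561056)
(.lf 863897633)))
(.nd (.nd (.lf 411174816)
(.lf 243927008))
(.nd (.lf 696125472)
(.lf 528877535)))))
(.nd (.nd (.nd (.nd (.lf 276957151)
(.lf 310511584))
(.nd (.lf 746981408)
(.lf 327026722)))
(.nd (.nd (.lf 880670816)
(.lf 712902752))
(.nd (.lf 897714208)
(.lf 998119456))))
(.nd (.nd (.nd (.lf 813832224)
(.lf 108918880))
(.nd (.lf 293734434)
(.lf 662571104)))
(.nd (.nd (.lf 947787871)
(.lf 780527585))
(.nd (.lf 495323103)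
(.lf 1065752608))))))
(.nd (.nd (.nd (.nd (.nd (.lf 8783904)
(.lf 42072033))
(.nd (.lf 746981406)
(.lf 327288800)))
(.nd (.nd (.lf 612239519)
(.lf 176035936))
(.nd (.lf 92145760)
(.lf 729684063))))
(.nd (.nd (.nd (.lf 545130593)
(.lf 847124577))
(.nd (.lf 25303073)
(.lf 125696096)))
(.nd (.nd (.lf 679606240)
(.lf 512096225))
(.nd (.lf 226883551)
(.lf 797317215)))))
(.nd (.nd (.nd (.nd (.lf 277219297)
(.lf 310511650))
(.nd (.lf 1015146464)
(.lf 595466337)))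
(.nd (.nd (.lf 142477407)
(.lf 981338145))
(.nd (.lf 159516704)
(.lf 260446239))))
(.nd (.nd (.nd (.lf 813565986)
(.lf 645789792))
(.nd (.lf 562165794)
(.lf 193075167)))
(.nd (.nd (.lf 210110494)
(.lf 1048709217))
(.nd (.lf 763754465)
(.lf 0)))))))
(.nd (.nd (.nd (.nd (.nd (.nd (.lf 8517600)
(.lf 42076192))
(.nd (.lf 478812191)
(.lf 58591329)))
(.nd (.nd (.lf 344328224)
(.lf 176302175))
(.nd (.lf 830343266)
(.lf 461244448))))
(.nd (.nd (.nd (.lf 545654753)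
(.lf 847120480))
(.nd (.lf 25294817)
(.lf 863897698)))
(.nd (.nd (.lf 679872479)
(.lf 512096223))
(.nd (.lf 964827104)
(.lf 528873441)))))
(.nd (.nd (.nd (.nd (.lf 276690976)
(.lf 310507553))
(.nd (.lf 1015416799)
(.lf 595462240)))
(.nd (.nd (.lf 142743582)
(.lf 981346399))
(.nd (.lf 159520735)
(.lf 997857377))))
(.nd (.nd (.nd (.lf 813565985)
(.lf 377354336))
(.nd (.lf 562436065)
(.lf 931006560)))
(.nd (.nd (.lf 948049952)
(.lf 1048967136))
(.nd (.lf 763754463)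
(.lf 0))))))
(.nd (.nd (.nd (.nd (.nd (.lf 8259617)
(.lf 42072161))
(.nd (.lf 747247647)
(.lf 327022625)))
(.nd (.nd (.lf 612501664)
(.lf 444733472))
(.nd (.lf 629274656)
(.lf 729941985))))
(.nd (.nd (.nd (.lf 813828127)
(.lf 109180959))
(.nd (.lf 293468129)
(.lf 394397728)))
(.nd (.nd (.lf 679610401)
(.lf 780539999))
(.nd (.lf 226887648)
(.lf 797046881)))))
(.nd (.nd (.nd (.nd (.lf 545388575)
(.lf 578680865))
(.nd (.lf 1015412769)
(.lf 863897631)))
(.nd (.nd (.lf 411436959)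
(.lf 243664927))
(.nd (.lf 427956192)
(.lf 260175904))))
(.nd (.nd (.nd (.lf 75626591)
(.lf 914487328))
(.nd (.lf 830609440)
(.lf 192808928)))
(.nd (.nd (.lf 210110495)
(.lf 58591264))
(.nd (.lf 1031927776)
(.lf 0)))))))))
(.nd (.nd (.nd (.nd (.nd (.nd (.nd (.nd (.lf 8783775)
(.lf 1032194017))
(.nd (.lf 210372640)
(.lf 58857568)))
(.nd (.nd (.lf 75634847)
(.lf 914487393))
(.nd (.lf 830343201)
(.lf 192809056))))
(.nd (.nd (.nd (.lf 545130528)
(.lf 578938850))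
(.nd (.lf 25294816)
(.lf 863631393)))
(.nd (.nd (.lf 411179039)
(.lf 243660768))
(.nd (.lf 696387552)
(.lf 260180065)))))
(.nd (.nd (.nd (.nd (.lf 8259745)
(.lf 41814114))
(.nd (.lf 747243488)
(.lf 327022562)))
(.nd (.nd (.lf 880937055)
(.lf 713426912))
(.nd (.lf 897456223)
(.lf 998381536))))
(.nd (.nd (.nd (.lf 813828128)
(.lf 109176864))
(.nd (.lf 293738529)
(.lf 662829088)))
(.nd (.nd (.lf 948049951)
(.lf 780269664))
(.nd (.lf 495323039)
(.lf 1065220128))))))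
(.nd (.nd (.nd (.nd (.nd (.lf 8259616)
(.lf 42067937))
(.nd (.lf 478550048)
(.lf 327288736)))
(.nd (.nd (.lf 612497503)
(.lf 176293920))
(.nd (.lf 92407840)
(.lf 729683999))))
(.nd (.nd (.nd (.lf 545126497)
(.lf 846854241))
(.nd (.lf 25036833)
(.lf 125962335)))
(.nd (.nd (.lf 679614559)
(.lf 511834144))
(.nd (.lf 964565025)
(.lf 797046815)))))
(.nd (.nd (.nd (.nd (.lf 276695009)
(.lf 310507554))
(.nd (.lf 1015421023)
(.lf 595196001)))
(.nd (.nd (.lf 142743583)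
(.lf 981596129))
(.nd (.lf 159516640)
(.lf 260179999))))
(.nd (.nd (.nd (.lf 813828193)
(.lf 646047776))
(.nd (.lf 561907809)
(.lf 193075230)))
(.nd (.nd (.lf 210110430)
(.lf 1048971297))
(.nd (.lf 763492384)
(.lf 0)))))))
(.nd (.nd (.nd (.nd (.nd (.nd (.lf 8525919)
(.lf 42072096))
(.nd (.lf 478545951)
(.lf 58857505)))
(.nd (.nd (.lf 344061984)
(.lf 176035935))
(.nd (.lf 830605346)
(.lf 461244384))))
(.nd (.nd (.nd (.lf 545126369)
(.lf 847120416))
(.nd (.lf 25565216)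
(.lf 863631394)))
(.nd (.nd (.lf 411183136)
(.lf 243660833))
(.nd (.lf 964822944)
(.lf 528615456)))))
(.nd (.nd (.nd (.nd (.lf 276961248)
(.lf 310777825))
(.nd (.lf 1015154718)
(.lf 595462176)))
(.nd (.nd (.lf 143005662)
(.lf 981604383))
(.nd (.lf 159782815)
(.lf 998115361))))
(.nd (.nd (.nd (.lf 813299745)
(.lf 377358431))
(.nd (.lf 562169825)
(.lf 931006559)))
(.nd (.nd (.lf 948312032)
(.lf 1048971295))
(.nd (.lf 495323169)
(.lf 0))))))
(.nd (.nd (.nd (.nd (.nd (.lf 8517601)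
(.lf 42080289))
(.nd (.lf 746981407)
(.lf 327288801)))
(.nd (.nd (.lf 612501600)
(.lf 444995552))
(.nd (.lf 360843297)
(.lf 729684064))))
(.nd (.nd (.nd (.lf 813828063)
(.lf 846858338))
(.nd (.lf 293730209)
(.lf 394139743)))
(.nd (.nd (.lf 679614496)
(.lf 780535839))
(.nd (.lf 227153951)
(.lf 797308961)))))
(.nd (.nd (.nd (.nd (.lf 276695137)
(.lf 578942945))
(.nd (.lf 1015420960)
(.lf 595200098)))
(.nd (.nd (.lf 142743584)
(.lf 243398687))
(.nd (.lf 427952032)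
(.lf 260437984))))
(.nd (.nd (.nd (.lf 75892767)
(.lf 646051937))
(.nd (.lf 830347232)
(.lf 192817247)))
(.nd (.nd (.lf 209844255)
(.lf 58853344))
(.nd (.lf 1032198111)
(.lf 0))))))))
(.nd (.nd (.nd (.nd (.nd (.nd (.nd (.lf 8517663)
(.lf 42076191))
(.nd (.lf 478541791)
(.lf 58587169)))
(.nd (.nd (.lf 344061983)
(.lf 176293919))
(.nd (.lf 830347361)
(.lf 461510623))))
(.nd (.nd (.nd (.lf 545126496)
(.lf 578680930))
(.nd (.lf 25565152)
(.lf 863631457)))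
(.nd (.nd (.lf 411441120)
(.lf 243664928))
(.nd (.lf 696387553)
(.lf 528881695)))))
(.nd (.nd (.nd (.nd (.lf 277219232)
(.lf 310515744))
(.nd (.lf 746715232)
(.lf 327030818)))
(.nd (.nd (.lf 880937056)
(.lf 713422817))
(.nd (.lf 897456224)
(.lf 997857376))))
(.nd (.nd (.nd (.lf 813566048)
(.lf 109185120))
(.nd (.lf 562169824)
(.lf 662571168)))
(.nd (.nd (.lf 948054111)
(.lf 780531745))
(.nd (.lf 495318944)
(.lf 1065482273))))))
(.nd (.nd (.nd (.nd (.nd (.lf 8788000)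
(.lf 41809953))
(.nd (.lf 747239391)
(.lf 327026720)))
(.nd (.nd (.lf 612493344)
(.lf 444733407))
(.nd (.lf 92412000)
(.lf 729941984))))
(.nd (.nd (.nd (.lf 545130657)
(.lf 847116322))
(.nd (.lf 25298978)
(.lf 125962336)))
(.nd (.nd (.lf 679872480)
(.lf 512096289))
(.nd (.lf 227149791)
(.lf 797046816)))))
(.nd (.nd (.nd (.nd (.lf 276953121)
(.lf 578943008))
(.nd (.lf 1015412704)
(.lf 595458082)))
(.nd (.nd (.lf 142747743)
(.lf 243664926))
(.nd (.lf 159520800)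
(.lf 260446303))))
(.nd (.nd (.nd (.lf 813566050)
(.lf 646056032))
(.nd (.lf 562169890)
(.lf 192813087)))
(.nd (.nd (.lf 210102239)
(.lf 58591263))
(.nd (.lf 763754529)
(.lf 0)))))))
(.nd (.nd (.nd (.nd (.nd (.nd (.lf 8783840)
(.lf 42080288))
(.nd (.lf 478545888)
(.lf 58595425)))
(.nd (.nd (.lf 344066144)
(.lf 176293856))
(.nd (.lf 92407839)
(.lf 461514784))))
(.nd (.nd (.nd (.lf 545388577)
(.lf 847116321))
(.nd (.lf 25298913)
(.lf 125958175)))
(.nd (.nd (.lf 679614495)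
(.lf 512100383))
(.nd (.lf 964565024)
(.lf 528615457)))))
(.nd (.nd (.nd (.nd (.lf 276961312)
(.lf 310511649))
(.nd (.lf 1015154719)
(.lf 595458081)))
(.nd (.nd (.lf 142739423)
(.lf 981338144))
(.nd (.lf 159258655)
(.lf 260179998))))
(.nd (.nd (.nd (.lf 813570081)
(.lf 377620576))
(.nd (.lf 562165793)
(.lf 931002465)))
(.nd (.nd (.lf 947787872)
(.lf 1048971296))
(.nd (.lf 763758623)
(.lf 0))))))
(.nd (.nd (.nd (.nd (.nd (.lf 8525857)
(.lf 42076257))
(.nd (.lf 746985567)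
(.lf 327288865)))
(.nd (.nd (.lf 880932895)
(.lf 713164831))
(.nd (.lf 629016672)
(.lf 729942049))))
(.nd (.nd (.nd (.lf 813565920)
(.lf 109181023))
(.nd (.lf 293472225)
(.lf 394139744)))
(.nd (.nd (.lf 948045791)
(.lf 780793824))
(.nd (.lf 227153888)
(.lf 1065486303)))))
(.nd (.nd (.nd (.nd (.lf 545388512)
(.lf 578947105))
(.nd (.lf 1015154785)
(.lf 863635488)))
(.nd (.nd (.lf 411174879)
(.lf 243931167))
(.nd (.lf 427956193)
(.lf 260446240))))
(.nd (.nd (.nd (.lf 75892831)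
(.lf 914229344))
(.nd (.lf 830343137)
(.lf 193075168)))
(.nd (.nd (.lf 210376735)
(.lf 58595360))
(.nd (.lf 1032460256)
(.lf 0))))))))))
(.nd (.nd (.nd (.nd (.nd (.nd (.nd (.nd (.nd (.lf 8521758)
(.lf 1032189921))
(.nd (.lf 210110496)
(.lf 58591328)))
(.nd (.nd (.lf 75368607)
(.lf 914225249))
(.nd (.lf 830339105)
(.lf 193075232))))
(.nd (.nd (.nd (.lf 545388576)
(.lf 578947169))
(.nd (.lf 25560992)
(.lf 863901792)))
(.nd (.nd (.lf 410916895)
(.lf 243656672))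
(.nd (.lf 696649632)
(.lf 260442145)))))
(.nd (.nd (.nd (.nd (.lf 8521825)
(.lf 42076194))
(.nd (.lf 747239392)
(.lf 327030881)))
(.nd (.nd (.lf 880674911)
(.lf 713168991))
(.nd (.lf 629274657)
(.lf 998115296))))
(.nd (.nd (.nd (.lf 813565984)
(.lf 109189279))
(.nd (.lf 293472289)
(.lf 662571103)))
(.nd (.nd (.lf 947787807)
(.lf 780797984))
(.nd (.lf 226887713)
(.lf 1065482208))))))
(.nd (.nd (.nd (.nd (.nd (.lf 8517664)
(.lf 42080352))
(.nd (.lf 478545952)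
(.lf 58591330)))
(.nd (.nd (.lf 612759583)
(.lf 176031776))
(.nd (.lf 92403744)
(.lf 461248545))))
(.nd (.nd (.nd (.lf 545396769)
(.lf 847386657))
(.nd (.lf 25294881)
(.lf 125700191)))
(.nd (.nd (.lf 679352415)
(.lf 512362464))
(.nd (.lf 964827105)
(.lf 797312991)))))
(.nd (.nd (.nd (.nd (.lf 276953057)
(.lf 310507490))
(.nd (.lf 1015683103)
(.lf 595728417)))
(.nd (.nd (.lf 142739487)
(.lf 981342304))
(.nd (.lf 159516576)
(.lf 260175903))))
(.nd (.nd (.nd (.lf 813566049)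
(.lf 646051935))
(.nd (.lf 562173985)
(.lf 931006625)))
(.nd (.nd (.lf 210368478)
(.lf 1048967201))
(.nd (.lf 764020704)
(.lf 0)))))))
(.nd (.nd (.nd (.nd (.nd (.nd (.lf 8525855)
(.lf 42338272))
(.nd (.lf 478812127)
(.lf 58595361)))
(.nd (.nd (.lf 344070239)
(.lf 176031839))
(.nd (.lf 830343202)
(.lf 461506464))))
(.nd (.nd (.nd (.lf 545384417)
(.lf 847116320))
(.nd (.lf 25303072)
(.lf 863905889)))
(.nd (.nd (.lf 411179040)
(.lf 243664992))
(.nd (.lf 964569119)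
(.lf 529143776)))))
(.nd (.nd (.nd (.nd (.lf 277219296)
(.lf 310773729))
(.nd (.lf 1015416798)
(.lf 595458080)))
(.nd (.nd (.lf 880679072)
(.lf 981342239))
(.nd (.lf 159778719)
(.lf 998115297))))
(.nd (.nd (.nd (.lf 813828065)
(.lf 109181025))
(.nd (.lf 562165729)
(.lf 662571169)))
(.nd (.nd (.lf 948049888)
(.lf 1048705055))
(.nd (.lf 495323105)
(.lf 1065486433))))))
(.nd (.nd (.nd (.nd (.nd (.lf 8525920)
(.lf 42076193))
(.nd (.lf 746977311)
(.lf 327026657)))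
(.nd (.nd (.lf 612497504)
(.lf 444729312))
(.nd (.lf 361105440)
(.lf 729417824))))
(.nd (.nd (.nd (.lf 545130594)
(.lf 847116386))
(.nd (.lf 293738464)
(.lf 125704352)))
(.nd (.nd (.lf 679610400)
(.lf 780531743))
(.nd (.lf 226891807)
(.lf 797046817)))))
(.nd (.nd (.nd (.nd (.lf 276961313)
(.lf 578947168))
(.nd (.lf 1015416864)
(.lf 595458146)))
(.nd (.nd (.lf 142739488)
(.lf 243927007))
(.nd (.lf 427960287)
(.lf 260175840))))
(.nd (.nd (.nd (.lf 75626527)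
(.lf 646047841))
(.nd (.lf 830605280)
(.lf 192813151)))
(.nd (.nd (.lf 210376671)
(.lf 58591200))
(.nd (.lf 1032194015)
(.lf 0))))))))
(.nd (.nd (.nd (.nd (.nd (.nd (.nd (.lf 8525791)
(.lf 42072095))
(.nd (.lf 478545886)
(.lf 58325025)))
(.nd (.nd (.lf 75630752)
(.lf 176555999))
(.nd (.lf 830609441)
(.lf 193071137))))
(.nd (.nd (.nd (.lf 545396768)
(.lf 578947106))
(.nd (.lf 25303008)
(.lf 863901729)))
(.nd (.nd (.lf 411174880)
(.lf 243660832))
(.nd (.lf 696391712)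
(.lf 528881631)))))
(.nd (.nd (.nd (.nd (.lf 276961311)
(.lf 310511648))
(.nd (.lf 747243552)
(.lf 327288866)))
(.nd (.nd (.lf 880674912)
(.lf 713160673))
(.nd (.lf 897452128)
(.lf 998385696))))
(.nd (.nd (.nd (.lf 813836320)
(.lf 109181024))
(.nd (.lf 562165728)
(.lf 662833248)))
(.nd (.nd (.lf 947791967)
(.lf 780527649))
(.nd (.lf 495327199)
(.lf 1065490528))))))
(.nd (.nd (.nd (.nd (.nd (.lf 8525856)
(.lf 42338273))
(.nd (.lf 746977247)
(.lf 327030752)))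
(.nd (.nd (.lf 612505759)
(.lf 176293921))
(.nd (.lf 92407904)
(.lf 729688159))))
(.nd (.nd (.nd (.lf 545392737)
(.lf 847112162))
(.nd (.lf 25036897)
(.lf 125700192)))
(.nd (.nd (.lf 679610336)
(.lf 512358369))
(.nd (.lf 226887647)
(.lf 797308896)))))
(.nd (.nd (.nd (.nd (.lf 277223393)
(.lf 578947040))
(.nd (.lf 1015150560)
(.lf 595453922)))
(.nd (.nd (.lf 142743647)
(.lf 981600289))
(.nd (.lf 159258656)
(.lf 260708383))))
(.nd (.nd (.nd (.lf 813828130)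
(.lf 646051936))
(.nd (.lf 561907746)
(.lf 192808991)))
(.nd (.nd (.lf 210376734)
(.lf 58853343))
(.nd (.lf 764016609)
(.lf 0)))))))
(.nd (.nd (.nd (.nd (.nd (.nd (.lf 8521696)
(.lf 42338336))
(.nd (.lf 478541792)
(.lf 58853473)))
(.nd (.nd (.lf 343804000)
(.lf 176289760))
(.nd (.lf 92403743)
(.lf 461248544))))
(.nd (.nd (.nd (.lf 545126433)
(.lf 847116257))
(.nd (.lf 25036769)
(.lf 863639650)))
(.nd (.nd (.lf 679610399)
(.lf 512100319))
(.nd (.lf 964560928)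
(.lf 528877537)))))
(.nd (.nd (.nd (.nd (.lf 276957216)
(.lf 310249505))
(.nd (.lf 1015150623)
(.lf 595458017)))
(.nd (.nd (.lf 142747742)
(.lf 981600224))
(.nd (.lf 159782879)
(.lf 260442078))))
(.nd (.nd (.nd (.lf 813828129)
(.lf 377358432))
(.nd (.lf 561903649)
(.lf 931010720)))
(.nd (.nd (.lf 947783776)
(.lf 1048705056))
(.nd (.lf 763758559)
(.lf 0))))))
(.nd (.nd (.nd (.nd (.nd (.lf 8521761)
(.lf 41814113))
(.nd (.lf 746981471)
(.lf 327026721)))
(.nd (.nd (.lf 612497505)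
(.lf 444729313))
(.nd (.lf 629012576)
(.lf 729679905))))
(.nd (.nd (.nd (.lf 813570079)
(.lf 109443103))
(.nd (.lf 293730273)
(.lf 394135648)))
(.nd (.nd (.lf 948049950)
(.lf 780527584))
(.nd (.lf 227149792)
(.lf 797050977)))))
(.nd (.nd (.nd (.nd (.lf 545392671)
(.lf 578943009))
(.nd (.lf 1015416865)
(.lf 863897568)))
(.nd (.nd (.lf 411441055)
(.lf 243927071))
(.nd (.lf 427960352)
(.lf 260442144))))
(.nd (.nd (.nd (.lf 75630687)
(.lf 914225248))
(.nd (.lf 830339041)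
(.lf 193071072)))
(.nd (.nd (.lf 210372639)
(.lf 58853408))
(.nd (.lf 1032194016)
(.lf 0)))))))))
(.nd (.nd (.nd (.nd (.nd (.nd (.nd (.nd (.lf 8521695)
(.lf 1031931937))
(.nd (.lf 210110560)
(.lf 58587105)))
(.nd (.nd (.lf 75626592)
(.lf 914229409))
(.nd (.lf 830605345)
(.lf 192813152))))
(.nd (.nd (.nd (.lf 545392672)
(.lf 578680866))
(.nd (.lf 25298912)
(.lf 863635489)))
(.nd (.nd (.lf 411183135)
(.lf 243922912))
(.nd (.lf 696653792)
(.lf 528877471)))))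
(.nd (.nd (.nd (.nd (.lf 8521762)
(.lf 310507488))
(.nd (.lf 746977312)
(.lf 327288802)))
(.nd (.nd (.lf 880679071)
(.lf 713164832))
(.nd (.lf 897447968)
(.lf 997853216))))
(.nd (.nd (.nd (.lf 813570080)
(.lf 109180960))
(.nd (.lf 293734370)
(.lf 662567008)))
(.nd (.nd (.lf 948054047)
(.lf 780535904))
(.nd (.lf 495585183)
(.lf 1065486368))))))
(.nd (.nd (.nd (.nd (.nd (.lf 8521760)
(.lf 41809889))
(.nd (.lf 478545953)
(.lf 327026656)))
(.nd (.nd (.lf 612501599)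
(.lf 176298016))
(.nd (.lf 92669984)
(.lf 729946143))))
(.nd (.nd (.nd (.lf 545388641)
(.lf 847120481))
(.nd (.lf 25298977)
(.lf 125704351)))
(.nd (.nd (.lf 679618655)
(.lf 512100384))
(.nd (.lf 226887646)
(.lf 797313055)))))
(.nd (.nd (.nd (.nd (.lf 276957153)
(.lf 310249506))
(.nd (.lf 1015425119)
(.lf 595462241)))
(.nd (.nd (.lf 143005727)
(.lf 981600225))
(.nd (.lf 159782880)
(.lf 260442143))))
(.nd (.nd (.nd (.lf 813570145)
(.lf 646314016))
(.nd (.lf 562165730)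
(.lf 193071071)))
(.nd (.nd (.lf 210372574)
(.lf 1048705121))
(.nd (.lf 763758624)
(.lf 0)))))))
(.nd (.nd (.nd (.nd (.nd (.nd (.lf 8788063)
(.lf 41814048))
(.nd (.lf 478550047)
(.lf 58587233)))
(.nd (.nd (.lf 344066080)
(.lf 176298079))
(.nd (.lf 830347298)
(.lf 461510624))))
(.nd (.nd (.nd (.lf 545388513)
(.lf 847382560))
(.nd (.lf 25032673)
(.lf 863897634)))
(.nd (.nd (.lf 679614494)
(.lf 512358303))
(.nd (.lf 964560864)
(.lf 528881696)))))
(.nd (.nd (.nd (.nd (.lf 277223392)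
(.lf 310245409))
(.nd (.lf 1015412703)
(.lf 595724320)))
(.nd (.nd (.lf 142739486)
(.lf 981342303))
(.nd (.lf 159516639)
(.lf 998119457))))
(.nd (.nd (.nd (.lf 813561889)
(.lf 377616416))
(.nd (.lf 562431969)
(.lf 930740320)))
(.nd (.nd (.lf 947783712)
(.lf 1048975455))
(.nd (.lf 764016543)
(.lf 0))))))
(.nd (.nd (.nd (.nd (.nd (.lf 8517665)
(.lf 41810017))
(.nd (.lf 747243551)
(.lf 326760481)))
(.nd (.nd (.lf 612239520)
(.lf 444467232))
(.nd (.lf 629016671)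
(.lf 729937889))))
(.nd (.nd (.nd (.lf 813565983)
(.lf 847120482))
(.nd (.lf 293996449)
(.lf 394131488)))
(.nd (.nd (.lf 679352416)
(.lf 780535903))
(.nd (.lf 226883552)
(.lf 797313057)))))
(.nd (.nd (.nd (.nd (.lf 276957218)
(.lf 579209185))
(.nd (.lf 1015154784)
(.lf 595462242)))
(.nd (.nd (.lf 142739552)
(.lf 243660831))
(.nd (.lf 428218272)
(.lf 260442080))))
(.nd (.nd (.nd (.lf 75364447)
(.lf 914229343))
(.nd (.lf 830343200)
(.lf 193079391)))
(.nd (.nd (.lf 210106399)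
(.lf 58587168))
(.nd (.lf 1032198175)
(.lf 0))))))))
(.nd (.nd (.nd (.nd (.nd (.nd (.nd (.lf 8521759)
(.lf 42072032))
(.nd (.lf 478545887)
(.lf 58591265)))
(.nd (.nd (.lf 344066079)
(.lf 176298015))
(.nd (.lf 830339042)
(.lf 461248543))))
(.nd (.nd (.nd (.lf 545392736)
(.lf 578685026))
(.nd (.lf 25032736)
(.lf 863635553)))
(.nd (.nd (.lf 411174944)
(.lf 243927072))
(.nd (.lf 964827103)
(.lf 528611296)))))
(.nd (.nd (.nd (.nd (.lf 276953056)
(.lf 310507489))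
(.nd (.lf 746981472)
(.lf 327026786)))
(.nd (.nd (.lf 880941152)
(.lf 713160737))
(.nd (.lf 897718368)
(.lf 998123616))))
(.nd (.nd (.nd (.lf 813832288)
(.lf 108923040))
(.nd (.lf 562169888)
(.lf 662567009)))
(.nd (.nd (.lf 947783648)
(.lf 1048967135))
(.nd (.lf 495323104)
(.lf 1065486369))))))
(.nd (.nd (.nd (.nd (.nd (.lf 8255584)
(.lf 42072097))
(.nd (.lf 747243487)
(.lf 327292960)))
(.nd (.nd (.lf 612497440)
(.lf 444733471))
(.nd (.lf 360581152)
(.lf 729679904))))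
(.nd (.nd (.nd (.lf 545388578)
(.lf 847120418))
(.nd (.lf 293734304)
(.lf 125966432)))
(.nd (.nd (.lf 679876576)
(.lf 512100385))
(.nd (.lf 227153887)
(.lf 797313056)))))
(.nd (.nd (.nd (.nd (.lf 276695073)
(.lf 578947104))
(.nd (.lf 1015416800)
(.lf 595462178)))
(.nd (.nd (.lf 142739424)
(.lf 243660767))
(.nd (.lf 159524896)
(.lf 260450399))))
(.nd (.nd (.nd (.lf 75630622)
(.lf 645789856))
(.nd (.lf 830605216)
(.lf 193075231)))
(.nd (.nd (.lf 210106335)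
(.lf 58853407))
(.nd (.lf 763758625)
(.lf 0)))))))
(.nd (.nd (.nd (.nd (.nd (.nd (.lf 8787936)
(.lf 41810016))
(.nd (.lf 478808032)
(.lf 58591266)))
(.nd (.nd (.lf 344070240)
(.lf 176556000))
(.nd (.lf 92145759)
(.lf 461506529))))
(.nd (.nd (.nd (.lf 545130529)
(.lf 847120417))
(.nd (.lf 25561057)
(.lf 125962271)))
(.nd (.nd (.lf 679876639)
(.lf 512104479))
(.nd (.lf 964831264)
(.lf 528877601)))))
(.nd (.nd (.nd (.nd (.lf 277223456)
(.lf 310515745))
(.nd (.lf 1015416863)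
(.lf 595462177)))
(.nd (.nd (.lf 143001567)
(.lf 981604384))
(.nd (.lf 159520799)
(.lf 260437983))))
(.nd (.nd (.nd (.lf 813832225)
(.lf 377624672))
(.nd (.lf 561907745)
(.lf 931006561)))
(.nd (.nd (.lf 947791968)
(.lf 1048709216))
(.nd (.lf 763762719)
(.lf 0))))))
(.nd (.nd (.nd (.nd (.nd (.lf 8517729)
(.lf 41814177))
(.nd (.lf 746973152)
(.lf 327030817)))
(.nd (.nd (.lf 880936991)
(.lf 713168927))
(.nd (.lf 629278816)
(.lf 998119455))))
(.nd (.nd (.nd (.lf 813828064)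
(.lf 109185119))
(.nd (.lf 293738465)
(.lf 394401888)))
(.nd (.nd (.lf 948049887)
(.lf 780265504))
(.nd (.lf 226887712)
(.lf 1065748447)))))
(.nd (.nd (.nd (.nd (.lf 545392608)
(.lf 578680929))
(.nd (.lf 25298911)
(.lf 863897632)))
(.nd (.nd (.lf 411178975)
(.lf 243664991))
(.nd (.lf 696391647)
(.lf 260180064))))
(.nd (.nd (.nd (.lf 75634783)
(.lf 914491488))
(.nd (.lf 830605281)
(.lf 193337312)))
(.nd (.nd (.lf 210106336)
(.lf 58857504))
(.nd (.lf 1031931936)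
(.lf 0)))))))))))

end Pool.Agent.Work.MP235410
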