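import Mathlib

/-!
# Definitions for the solution of MP_235410_co (avoiding long abelian cubes over two letters)

The infinite binary word is obtained from the fixed point of the morphism
`0 → 001, 1 → 021, 2 → 23, 3 → 2321` by replacing each letter by a long block of zeros and
ones; the block of the letter `1` also depends on the parities of the numbers of letters `2`
and `3` met before.
-/

set_option autoImplicit false

namespace Pool.Agent.Work.MP235410

/-- integer vectors of length four -/
@[ext] structure V where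
  x : ℤ
  y : ℤ
  z : ℤ
  t : ℤ
deriving DecidableEq

/-- the base morphism -/
def h : Fin 4 → List (Fin 4)
  | 0 => [0, 0, 1]
  | 1 => [0, 2, 1]
  | 2 => [2, 3]
  | 3 => [2, 3, 2, 1]

/-- letter counts of a word -/
def cv (l : List (Fin 4)) : V := ⟨l.count 0, l.count 1, l.count 2, l.count 3⟩

/-- action of the incidence matrix of `h` on letter counts -/
def mulM (D : V) : V :=
  ⟨2 * D.x + D.y, D.x + D.y + D.t, D.y + D.z + 2 * D.t, D.z + D.t⟩

/-- letter counts of the prefix of length `j` of `h a` -/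
def psi (a : Fin 4) (j : ℕ) : V := cv ((h a).take j)

/-- the letter at position `j` of `h a` -/
def ltr (a : Fin 4) (j : ℕ) : Fin 4 := (h a).getD j 0

/-- `D + p - 2 q + r` -/
def comb (D p q r : V) : V :=
  ⟨D.x + p.x - 2 * q.x + r.x, D.y + p.y - 2 * q.y + r.y,
   D.z + p.z - 2 * q.z + r.z, D.t + p.t - 2 * q.t + r.t⟩

/-- A template: gap class (`min 3` of the distance between the first two positions), four letters
and the two second differences of the prefix counts. -/
structure Q where
  g : ℕ
  a : Fin 4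
  b : Fin 4
  c : Fin 4
  d : Fin 4
  D : V
  E : V

/-- the gap class of a child -/
def gstep (g l j0 j1 : ℕ) : ℕ :=
  if g = 0 then j1 - j0 else if g = 1 then min 3 (l - j0 + j1) else 3

/-- the child of a template -/
def child (q : Q) (j0 j1 j2 j3 : ℕ) : Q :=
  ⟨gstep q.g (h q.a).length j0 j1, ltr q.a j0, ltr q.b j1, ltr q.c j2, ltr q.d j3,
   comb (mulM q.D) (psi q.a j0) (psi q.b j1) (psi q.c j2),
   comb (mulM q.E) (psi q.b j1) (psi q.c j2) (psi q.d j3)⟩

/-- the templates realised in the base word -/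
inductive Reach : Q → Prop
  | root : Reach ⟨0, 0, 0, 0, 0, ⟨0, 0, 0, 0⟩, ⟨0, 0, 0, 0⟩⟩
  | step (q : Q) (j0 j1 j2 j3 : ℕ) (hq : Reach q) (h0 : j0 < (h q.a).length)
      (h1 : j1 < (h q.b).length) (h2 : j2 < (h q.c).length) (h3 : j3 < (h q.d).length)
      (hg : q.g = 0 → j0 ≤ j1) : Reach (child q j0 j1 j2 j3)

/-- The runs of the block of the letter `a`, when `P` letters `2` and `R` letters `3` occur
before (`false` stands for the binary letter `0`, `true` for `1`). -/
def runs (a : Fin 4) (P R : ℕ) : List (Bool × ℕ) :=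
  match a with
  | 0 => [(true, 370), (false, 5033), (true, 55)]
  | 1 => [(false, 990), (true, 12 + 3 * ((P + R) % 2)), (false, 186),
      (true, 483 - 3 * ((P + R) % 2) + 3 * (P % 2)), (false, 1897), (true, 1111 - 3 * (P % 2))]
  | 2 => [(false, 289), (true, 2886), (false, 54)]
  | 3 => [(false, 297), (true, 4538), (false, 1170)]

/-- the block of the letter `a` -/
def blk (a : Fin 4) (P R : ℕ) : List Bool :=
  (runs a P R).flatMap fun r => List.replicate r.2 r.1

/-- coding of a word over four letters -/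
def code : ℕ → ℕ → List (Fin 4) → List Bool
  | _, _, [] => []
  | P, R, a :: l =>
    blk a P R ++ code (if a = 2 then P + 1 else P) (if a = 3 then R + 1 else R) l

/-- iterates of the morphism -/
def U : ℕ → List (Fin 4)
  | 0 => [0]
  | n + 1 => (U n).flatMap h

/-- the infinite binary word -/
def w (n : ℕ) : Bool := (code 0 0 (U n)).getD n false

/-- A piece of the lattice path of a block: direction (`false`: horizontal, `true`: vertical),
starting point and length. -/
structure Pc where
  d : Bool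
  x : ℤ
  y : ℤ
  l : ℤ

/-- the pieces of the lattice path with given runs, starting at `(x, y)` -/
def pcs : ℤ → ℤ → List (Bool × ℕ) → List Pc
  | _, _, [] => []
  | x, y, (b, n) :: r =>
    ⟨b, x, y, n⟩ :: pcs (if b then x else x + n) (if b then y + n else y) r

/-- `(x, y)` is a lattice point on the path of the block of `a` (its last point excluded) -/
def Pt (a : Fin 4) (P R : ℕ) (x y : ℤ) : Prop :=
  ∃ pc ∈ pcs 0 0 (runs a P R), ∃ s : ℤ, 0 ≤ s ∧ s < pc.l ∧
    x = (if pc.d then pc.x else pc.x + s) ∧ y = (if pc.d then pc.y + s else pc.y)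

/-- number of zeros of the coded word -/
def tx (D : V) : ℤ := 5033 * D.x + 3073 * D.y + 343 * D.z + 1467 * D.t

/-- number of ones of the coded word -/
def ty (D : V) : ℤ := 425 * D.x + 1606 * D.y + 2886 * D.z + 4538 * D.t

/-- a template with a solution of the cube equations -/
def Sol (q : Q) : Prop :=
  ∃ P0 P1 P2 P3 R0 R1 R2 R3 : ℕ, ∃ x0 y0 x1 y1 x2 y2 x3 y3 : ℤ,
    (P2 : ℤ) = q.D.z + 2 * P1 - P0 ∧ (P3 : ℤ) = q.E.z + 2 * P2 - P1 ∧
    (R2 : ℤ) = q.D.t + 2 * R1 - R0 ∧ (R3 : ℤ) = q.E.t + 2 * R2 - R1 ∧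
    Pt q.a P0 R0 x0 y0 ∧ Pt q.b P1 R1 x1 y1 ∧ Pt q.c P2 R2 x2 y2 ∧ Pt q.d P3 R3 x3 y3 ∧
    tx q.D + x0 - 2 * x1 + x2 = 0 ∧ ty q.D + y0 - 2 * y1 + y2 = 0 ∧
    tx q.E + x1 - 2 * x2 + x3 = 0 ∧ ty q.E + y1 - 2 * y2 + y3 = 0

end Pool.Agent.Work.MP235410
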