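import Pool.Agent.Work.MP_235410_co.Cert1

/-!
# Kernel evaluation: children of the triples
-/

set_option autoImplicit false
set_option maxRecDepth 100000

namespace Pool.Agent.Work.MP235410

theorem kK : allN 1001 (fun i => chkK (Nat.succ i)) = true := by decide +kernel

theorem kA : allN 1001 (fun i => chkA (Nat.succ i)) = true := by decide +kernel

end Pool.Agent.Work.MP235410
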