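import Pool.Agent.Work.MP_235410_co.Defs

/-!
# Relevance of templates and its inheritance
-/

set_option autoImplicit false

namespace Pool.Agent.Work.MP235410

/-- approximate left eigenvector for the largest eigenvalue -/
def F1 (D : V) : ℤ := 9102 * D.x + 7801 * D.y + 5385 * D.z + 10000 * D.t
/-- approximate left eigenvector for the second eigenvalue -/
def F2 (D : V) : ℤ := 10000 * D.x + 2652 * D.y - 6644 * D.z - 8406 * D.t
/-- real part of the contracting left eigenvector -/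
def F3 (D : V) : ℤ := 1000 * D.x - 2061 * D.y + 1036 * D.z - 629 * D.t
/-- imaginary part of the contracting left eigenvector -/
def F4 (D : V) : ℤ := 388 * D.y - 1212 * D.z + 1689 * D.t

def lo1 : Fin 4 → ℤ
  | 0 => -25 | 1 => -25 | 2 => -25 | 3 => -25
def hi1 : Fin 4 → ℤ
  | 0 => 9128 | 1 => 7827 | 2 => 5406 | 3 => 10033
def lo2 : Fin 4 → ℤ
  | 0 => -974 | 1 => -435 | 2 => -7798 | 3 => -11008
def hi2 : Fin 4 → ℤ
  | 0 => 11274 | 1 => 5527 | 2 => 662 | 3 => 680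

/-- irrelevant triples: no solution below them -/
def Irr (a b c : Fin 4) (D : V) : Prop :=
  F1 D + hi1 a + hi1 c - 2 * lo1 b < 0 ∨ 0 < F1 D + lo1 a + lo1 c - 2 * hi1 b ∨
  F2 D + hi2 a + hi2 c - 2 * lo2 b < 0 ∨ 0 < F2 D + lo2 a + lo2 c - 2 * hi2 b

/-- the invariant cone around the expanding plane -/
def Cone (D : V) : Prop :=
  (1000 * F3 D ≤ 7500000 + |F1 D| + |F2 D| ∧ -(1000 * F3 D) ≤ 7500000 + |F1 D| + |F2 D|) ∧
  (1000 * F4 D ≤ 7000000 + |F1 D| + |F2 D| ∧ -(1000 * F4 D) ≤ 7000000 + |F1 D| + |F2 D|)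

theorem psi_bounds : ∀ a : Fin 4, ∀ j < (h a).length,
    (0 ≤ F1 (psi a j) ∧ F1 (psi a j) ≤ 20770) ∧ (-21694 ≤ F2 (psi a j) ∧ F2 (psi a j) ≤ 20000) ∧
    (0 ≤ F3 (psi a j) ∧ F3 (psi a j) ≤ 2036) ∧ (-1212 ≤ F4 (psi a j) ∧ F4 (psi a j) ≤ 477) := by
  decide

theorem ineq1 : ∀ a : Fin 4, ∀ j < (h a).length,
    10000 * (F1 (psi a j) + hi1 (ltr a j)) + 100000 ≤ 28571 * hi1 a ∧
    28571 * lo1 a + 100000 ≤ 10000 * (F1 (psi a j) + lo1 (ltr a j)) := by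
  decide

theorem ineq2 : ∀ a : Fin 4, ∀ j < (h a).length,
    10000 * (F2 (psi a j) + hi2 (ltr a j)) + 100000 ≤ 22652 * hi2 a ∧
    22652 * lo2 a + 100000 ≤ 10000 * (F2 (psi a j) + lo2 (ltr a j)) := by
  decide

theorem bounds_lohi : ∀ a : Fin 4, (-25 ≤ lo1 a ∧ lo1 a ≤ 0) ∧ (0 ≤ hi1 a ∧ hi1 a ≤ 10033) ∧
    (-11008 ≤ lo2 a ∧ lo2 a ≤ 0) ∧ (0 ≤ hi2 a ∧ hi2 a ≤ 11274) := by
  decide

theorem cone_zero : Cone ⟨0, 0, 0, 0⟩ := by
  unfold Cone F1 F2 F3 F4; norm_num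

theorem abs_cases' (a : ℤ) : (0 ≤ a ∧ |a| = a) ∨ (a ≤ 0 ∧ |a| = -a) := by
  rcases le_total 0 a with h | h
  · exact Or.inl ⟨h, abs_of_nonneg h⟩
  · exact Or.inr ⟨h, abs_of_nonpos h⟩

theorem cone_core (x y z t f1 f2 f3 f4 A1 A2 B1 B2 : ℤ)
    (hf1 : -41540 ≤ f1) (hf1' : f1 ≤ 41540) (hf2 : -83388 ≤ f2) (hf2' : f2 ≤ 83388)
    (hf3 : -4072 ≤ f3) (hf3' : f3 ≤ 4072) (hf4 : -3378 ≤ f4) (hf4' : f4 ≤ 3378)
    (a1 : 9102 * x + 7801 * y + 5385 * z + 10000 * t ≤ A1)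
    (a1' : -(9102 * x + 7801 * y + 5385 * z + 10000 * t) ≤ A1)
    (ha1 : A1 = 9102 * x + 7801 * y + 5385 * z + 10000 * t ∨
      A1 = -(9102 * x + 7801 * y + 5385 * z + 10000 * t))
    (a2 : 10000 * x + 2652 * y - 6644 * z - 8406 * t ≤ A2)
    (a2' : -(10000 * x + 2652 * y - 6644 * z - 8406 * t) ≤ A2)
    (ha2 : A2 = 10000 * x + 2652 * y - 6644 * z - 8406 * t ∨
      A2 = -(10000 * x + 2652 * y - 6644 * z - 8406 * t))
    (b1 : 9102 * (2 * x + y) + 7801 * (x + y + t) + 5385 * (y + z + 2 * t) + 10000 * (z + t) + f1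
      ≤ B1)
    (b1' : -(9102 * (2 * x + y) + 7801 * (x + y + t) + 5385 * (y + z + 2 * t) + 10000 * (z + t)
      + f1) ≤ B1)
    (b2 : 10000 * (2 * x + y) + 2652 * (x + y + t) - 6644 * (y + z + 2 * t) - 8406 * (z + t) + f2
      ≤ B2)
    (b2' : -(10000 * (2 * x + y) + 2652 * (x + y + t) - 6644 * (y + z + 2 * t) - 8406 * (z + t)
      + f2) ≤ B2)
    (c3 : 1000 * (1000 * x - 2061 * y + 1036 * z - 629 * t) ≤ 7500000 + A1 + A2)
    (c3' : -(1000 * (1000 * x - 2061 * y + 1036 * z - 629 * t)) ≤ 7500000 + A1 + A2)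
    (c4 : 1000 * (388 * y - 1212 * z + 1689 * t) ≤ 7000000 + A1 + A2)
    (c4' : -(1000 * (388 * y - 1212 * z + 1689 * t)) ≤ 7000000 + A1 + A2) :
    (1000 * (1000 * (2 * x + y) - 2061 * (x + y + t) + 1036 * (y + z + 2 * t) - 629 * (z + t)
      + f3) ≤ 7500000 + B1 + B2 ∧
    -(1000 * (1000 * (2 * x + y) - 2061 * (x + y + t) + 1036 * (y + z + 2 * t) - 629 * (z + t)
      + f3)) ≤ 7500000 + B1 + B2) ∧
    (1000 * (388 * (x + y + t) - 1212 * (y + z + 2 * t) + 1689 * (z + t) + f4)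
      ≤ 7000000 + B1 + B2 ∧
    -(1000 * (388 * (x + y + t) - 1212 * (y + z + 2 * t) + 1689 * (z + t) + f4))
      ≤ 7000000 + B1 + B2) := by
  rcases ha1 with ha1 | ha1 <;> rcases ha2 with ha2 | ha2 <;> subst ha1 <;> subst ha2 <;>
  refine ⟨⟨?_, ?_⟩, ?_, ?_⟩ <;> linarith

theorem F1_comb (D p q r : V) : F1 (comb D p q r) = F1 D + (F1 p - 2 * F1 q + F1 r) := by
  simp only [F1, comb]; ring
theorem F2_comb (D p q r : V) : F2 (comb D p q r) = F2 D + (F2 p - 2 * F2 q + F2 r) := by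
  simp only [F2, comb]; ring
theorem F3_comb (D p q r : V) : F3 (comb D p q r) = F3 D + (F3 p - 2 * F3 q + F3 r) := by
  simp only [F3, comb]; ring
theorem F4_comb (D p q r : V) : F4 (comb D p q r) = F4 D + (F4 p - 2 * F4 q + F4 r) := by
  simp only [F4, comb]; ring

theorem abs_or (a : ℤ) : |a| = a ∨ |a| = -a := abs_choice a

theorem cone_step {D : V} (hD : Cone D) {a b c : Fin 4} {i j k : ℕ} (hi : i < (h a).length)
    (hj : j < (h b).length) (hk : k < (h c).length) :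
    Cone (comb (mulM D) (psi a i) (psi b j) (psi c k)) := by
  obtain ⟨⟨p1, p1'⟩, ⟨p2, p2'⟩, ⟨p3, p3'⟩, ⟨p4, p4'⟩⟩ := psi_bounds a i hi
  obtain ⟨⟨q1, q1'⟩, ⟨q2, q2'⟩, ⟨q3, q3'⟩, ⟨q4, q4'⟩⟩ := psi_bounds b j hj
  obtain ⟨⟨r1, r1'⟩, ⟨r2, r2'⟩, ⟨r3, r3'⟩, ⟨r4, r4'⟩⟩ := psi_bounds c k hk
  obtain ⟨⟨c1, c2⟩, c3, c4⟩ := hD
  have l1 := le_abs_self (F1 (comb (mulM D) (psi a i) (psi b j) (psi c k)))
  have l1' := neg_le_abs (F1 (comb (mulM D) (psi a i) (psi b j) (psi c k)))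
  have l2 := le_abs_self (F2 (comb (mulM D) (psi a i) (psi b j) (psi c k)))
  have l2' := neg_le_abs (F2 (comb (mulM D) (psi a i) (psi b j) (psi c k)))
  have k1 := le_abs_self (F1 D)
  have k1' := neg_le_abs (F1 D)
  have k2 := le_abs_self (F2 D)
  have k2' := neg_le_abs (F2 D)
  have m1 := abs_or (F1 D)
  have m2 := abs_or (F2 D)
  unfold Cone
  generalize |F1 (comb (mulM D) (psi a i) (psi b j) (psi c k))| = B1 at *
  generalize |F2 (comb (mulM D) (psi a i) (psi b j) (psi c k))| = B2 at *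
  generalize |F1 D| = A1 at *
  generalize |F2 D| = A2 at *
  rw [F1_comb] at l1 l1'
  rw [F2_comb] at l2 l2'
  rw [F3_comb, F4_comb]
  obtain ⟨f1, hf1⟩ : ∃ f1, F1 (psi a i) - 2 * F1 (psi b j) + F1 (psi c k) = f1 := ⟨_, rfl⟩
  obtain ⟨f2, hf2⟩ : ∃ f1, F2 (psi a i) - 2 * F2 (psi b j) + F2 (psi c k) = f1 := ⟨_, rfl⟩
  obtain ⟨f3, hf3⟩ : ∃ f1, F3 (psi a i) - 2 * F3 (psi b j) + F3 (psi c k) = f1 := ⟨_, rfl⟩
  obtain ⟨f4, hf4⟩ : ∃ f1, F4 (psi a i) - 2 * F4 (psi b j) + F4 (psi c k) = f1 := ⟨_, rfl⟩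
  rw [hf1] at l1 l1'
  rw [hf2] at l2 l2'
  rw [hf3, hf4]
  simp only [F1, F2, F3, F4, mulM] at l1 l1' l2 l2' k1 k1' k2 k2' m1 m2 c1 c2 c3 c4 ⊢
  exact cone_core D.x D.y D.z D.t f1 f2 f3 f4 A1 A2 B1 B2 (by linarith) (by linarith)
    (by linarith) (by linarith) (by linarith) (by linarith) (by linarith) (by linarith)
    k1 k1' m1 k2 k2' m2 l1 l1' l2 l2' c1 c2 c3 c4

/-- in the bounded region the eigenvector equations hold up to a small error -/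
theorem err_core (x y z t A1 A2 : ℤ) (h1 : A1 ≤ 60000) (h2 : A2 ≤ 60000)
    (a1 : 9102 * x + 7801 * y + 5385 * z + 10000 * t ≤ A1)
    (a1' : -(9102 * x + 7801 * y + 5385 * z + 10000 * t) ≤ A1)
    (a2 : 10000 * x + 2652 * y - 6644 * z - 8406 * t ≤ A2)
    (a2' : -(10000 * x + 2652 * y - 6644 * z - 8406 * t) ≤ A2)
    (c3 : 1000 * (1000 * x - 2061 * y + 1036 * z - 629 * t) ≤ 7500000 + A1 + A2)
    (c3' : -(1000 * (1000 * x - 2061 * y + 1036 * z - 629 * t)) ≤ 7500000 + A1 + A2)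
    (c4 : 1000 * (388 * y - 1212 * z + 1689 * t) ≤ 7000000 + A1 + A2)
    (c4' : -(1000 * (388 * y - 1212 * z + 1689 * t)) ≤ 7000000 + A1 + A2) :
    (10000 * (9102 * (2 * x + y) + 7801 * (x + y + t) + 5385 * (y + z + 2 * t)
        + 10000 * (z + t)) - 28571 * (9102 * x + 7801 * y + 5385 * z + 10000 * t) ≤ 399999 ∧
      -399999 ≤ 10000 * (9102 * (2 * x + y) + 7801 * (x + y + t) + 5385 * (y + z + 2 * t)
        + 10000 * (z + t)) - 28571 * (9102 * x + 7801 * y + 5385 * z + 10000 * t)) ∧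
    (10000 * (10000 * (2 * x + y) + 2652 * (x + y + t) - 6644 * (y + z + 2 * t)
        - 8406 * (z + t)) - 22652 * (10000 * x + 2652 * y - 6644 * z - 8406 * t) ≤ 399999 ∧
      -399999 ≤ 10000 * (10000 * (2 * x + y) + 2652 * (x + y + t) - 6644 * (y + z + 2 * t)
        - 8406 * (z + t)) - 22652 * (10000 * x + 2652 * y - 6644 * z - 8406 * t)) := by
  refine ⟨⟨?_, ?_⟩, ?_, ?_⟩ <;> linarith

theorem err_le {D : V} (hD : Cone D) (h1 : |F1 D| ≤ 60000) (h2 : |F2 D| ≤ 60000) :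
    (10000 * F1 (mulM D) - 28571 * F1 D ≤ 399999 ∧
      -399999 ≤ 10000 * F1 (mulM D) - 28571 * F1 D) ∧
    (10000 * F2 (mulM D) - 22652 * F2 D ≤ 399999 ∧
      -399999 ≤ 10000 * F2 (mulM D) - 22652 * F2 D) := by
  obtain ⟨⟨c1, c2⟩, c3, c4⟩ := hD
  have k1 := le_abs_self (F1 D)
  have k1' := neg_le_abs (F1 D)
  have k2 := le_abs_self (F2 D)
  have k2' := neg_le_abs (F2 D)
  generalize |F1 D| = A1 at *
  generalize |F2 D| = A2 at *
  simp only [F1, F2, F3, F4, mulM] at *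
  exact err_core D.x D.y D.z D.t A1 A2 h1 h2 k1 k1' k2 k2' c1 c2 c3 c4

theorem irr_step {D : V} (hD : Cone D) {a b c : Fin 4} {i j k : ℕ} (hi : i < (h a).length)
    (hj : j < (h b).length) (hk : k < (h c).length) (hI : Irr a b c D) :
    Irr (ltr a i) (ltr b j) (ltr c k) (comb (mulM D) (psi a i) (psi b j) (psi c k)) := by
  unfold Irr
  rw [F1_comb, F2_comb]
  by_cases hb : |F1 D| ≤ 60000 ∧ |F2 D| ≤ 60000
  · obtain ⟨⟨e1, e1'⟩, e2, e2'⟩ := err_le hD hb.1 hb.2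
    obtain ⟨a1, a1'⟩ := ineq1 a i hi
    obtain ⟨b1, b1'⟩ := ineq1 b j hj
    obtain ⟨c1, c1'⟩ := ineq1 c k hk
    obtain ⟨a2, a2'⟩ := ineq2 a i hi
    obtain ⟨b2, b2'⟩ := ineq2 b j hj
    obtain ⟨c2, c2'⟩ := ineq2 c k hk
    rcases hI with hI | hI | hI | hI
    · left; linarith
    · right; left; linarith
    · right; right; left; linarith
    · right; right; right; linarith
  · obtain ⟨⟨p1, p1'⟩, ⟨p2, p2'⟩, ⟨p3, p3'⟩, ⟨p4, p4'⟩⟩ := psi_bounds a i hi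
    obtain ⟨⟨q1, q1'⟩, ⟨q2, q2'⟩, ⟨q3, q3'⟩, ⟨q4, q4'⟩⟩ := psi_bounds b j hj
    obtain ⟨⟨r1, r1'⟩, ⟨r2, r2'⟩, ⟨r3, r3'⟩, ⟨r4, r4'⟩⟩ := psi_bounds c k hk
    obtain ⟨⟨u1, u1'⟩, ⟨u2, u2'⟩, ⟨u3, u3'⟩, ⟨u4, u4'⟩⟩ := bounds_lohi (ltr a i)
    obtain ⟨⟨v1, v1'⟩, ⟨v2, v2'⟩, ⟨v3, v3'⟩, ⟨v4, v4'⟩⟩ := bounds_lohi (ltr b j)
    obtain ⟨⟨w1, w1'⟩, ⟨w2, w2'⟩, ⟨w3, w3'⟩, ⟨w4, w4'⟩⟩ := bounds_lohi (ltr c k)
    clear hI
    obtain ⟨⟨c1, c2⟩, c3, c4⟩ := hD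
    have k1 := le_abs_self (F1 D)
    have k1' := neg_le_abs (F1 D)
    have k2 := le_abs_self (F2 D)
    have k2' := neg_le_abs (F2 D)
    have m1 := abs_or (F1 D)
    have m2 := abs_or (F2 D)
    rw [not_and_or, not_le, not_le] at hb
    have hb' : (60000 < |F1 D| ∧ |F2 D| ≤ |F1 D|) ∨ (60000 < |F2 D| ∧ |F1 D| ≤ |F2 D|) := by
      rcases le_total (|F1 D|) (|F2 D|) with hh | hh <;> rcases hb with hb | hb
      · right; exact ⟨by linarith, hh⟩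
      · right; exact ⟨hb, hh⟩
      · left; exact ⟨hb, hh⟩
      · left; exact ⟨by linarith, hh⟩
    clear hb
    generalize |F1 D| = A1 at *
    generalize |F2 D| = A2 at *
    have key1 : ∀ x y z t : ℤ, D.x = x → D.y = y → D.z = z → D.t = t → 
      (60000 < A1 ∧ A2 ≤ A1 → (F1 D = A1 → 10000 * F1 (mulM D) > 22000 * A1) ∧
        (F1 D = - A1 → 10000 * F1 (mulM D) < - (22000 * A1))) ∧
      (60000 < A2 ∧ A1 ≤ A2 → (F2 D = A2 → 10000 * F2 (mulM D) > 22000 * A2) ∧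
        (F2 D = - A2 → 10000 * F2 (mulM D) < - (22000 * A2))) := by
      intro x y z t hx hy hz ht
      simp only [F1, F2, F3, F4, mulM, hx, hy, hz, ht] at *
      clear m1 m2 hb'
      clear p1 p1' p2 p2' p3 p3' p4 p4' q1 q1' q2 q2' q3 q3' q4 q4' r1 r1' r2 r2' r3 r3' r4 r4'
      clear u1 u1' u2 u2' u3 u3' u4 u4' v1 v1' v2 v2' v3 v3' v4 v4' w1 w1' w2 w2' w3 w3' w4 w4'
      refine ⟨?_, ?_⟩ <;> rintro ⟨g1, g2⟩ <;> refine ⟨?_, ?_⟩ <;> intro g3 <;> linarith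
    obtain ⟨key1, key2⟩ := key1 _ _ _ _ rfl rfl rfl rfl
    rcases hb' with hb | hb
    · obtain ⟨g1, g2⟩ := key1 hb
      rcases m1 with m1 | m1
      · right; left
        have := g1 m1.symm
        linarith
      · left
        have := g2 (by linarith)
        linarith
    · obtain ⟨g1, g2⟩ := key2 hb
      rcases m2 with m2 | m2
      · right; right; right
        have := g1 m2.symm
        linarith
      · right; right; left
        have := g2 (by linarith)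
        linarith

end Pool.Agent.Work.MP235410
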