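import Pool.Agent.Work.MP_235410_co.Rel

/-!
# A solution of the cube equations forces relevance
-/

set_option autoImplicit false

namespace Pool.Agent.Work.MP235410

theorem pt_bounds {a : Fin 4} {P R : ℕ} {x y : ℤ} (hp : Pt a P R x y) :
    (0 ≤ x ∧ x ≤ 5033 ∧ 0 ≤ y ∧ y ≤ 4538) ∧
    (10000 * lo1 a + 240000 ≤ 16679 * x + 16660 * y ∧
      16679 * x + 16660 * y ≤ 10000 * hi1 a - 240000) ∧
    (10000 * lo2 a + 240000 ≤ 22034 * x - 25644 * y ∧
      22034 * x - 25644 * y ≤ 10000 * hi2 a - 240000) := by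
  obtain ⟨pc, hpc, s, h0, h1, hx, hy⟩ := hp
  have hP : P % 2 < 2 := Nat.mod_lt _ (by norm_num)
  have hR : (P + R) % 2 < 2 := Nat.mod_lt _ (by norm_num)
  generalize hPP : P % 2 = p at *
  generalize hRR : (P + R) % 2 = r at *
  fin_cases a <;> simp only [runs, pcs, hPP, hRR] at hpc <;>
    simp only [Fin.mk_zero, Fin.zero_eta, Fin.mk_one, Fin.reduceFinMk, Fin.isValue, lo1, hi1,
      lo2, hi2, List.mem_cons, List.not_mem_nil, or_false, ite_true, ite_false,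
      Bool.false_eq_true] at hpc ⊢
  · rcases hpc with rfl | rfl | rfl <;> simp at h1 hx hy <;> subst hx <;> subst hy <;> omega
  · rcases hpc with rfl | rfl | rfl | rfl | rfl | rfl <;> simp at h1 hx hy <;> subst hx <;>
      subst hy <;> interval_cases p <;> interval_cases r <;> simp at h1 ⊢ <;> omega
  · rcases hpc with rfl | rfl | rfl <;> simp at h1 hx hy <;> subst hx <;> subst hy <;> omega
  · rcases hpc with rfl | rfl | rfl <;> simp at h1 hx hy <;> subst hx <;> subst hy <;> omega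

theorem sol_core (x y z t A1 A2 : ℤ)
    (a1 : 9102 * x + 7801 * y + 5385 * z + 10000 * t = A1 ∨
      -(9102 * x + 7801 * y + 5385 * z + 10000 * t) = A1)
    (a2 : 10000 * x + 2652 * y - 6644 * z - 8406 * t = A2 ∨
      -(10000 * x + 2652 * y - 6644 * z - 8406 * t) = A2)
    (c3 : 1000 * (1000 * x - 2061 * y + 1036 * z - 629 * t) ≤ 7500000 + A1 + A2)
    (c3' : -(1000 * (1000 * x - 2061 * y + 1036 * z - 629 * t)) ≤ 7500000 + A1 + A2)
    (c4 : 1000 * (388 * y - 1212 * z + 1689 * t) ≤ 7000000 + A1 + A2)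
    (c4' : -(1000 * (388 * y - 1212 * z + 1689 * t)) ≤ 7000000 + A1 + A2)
    (u1 : 5033 * x + 3073 * y + 343 * z + 1467 * t ≤ 10066)
    (u1' : -10066 ≤ 5033 * x + 3073 * y + 343 * z + 1467 * t)
    (u2 : 425 * x + 1606 * y + 2886 * z + 4538 * t ≤ 9076)
    (u2' : -9076 ≤ 425 * x + 1606 * y + 2886 * z + 4538 * t) :
    (10000 * (9102 * x + 7801 * y + 5385 * z + 10000 * t)
        - 16679 * (5033 * x + 3073 * y + 343 * z + 1467 * t)
        - 16660 * (425 * x + 1606 * y + 2886 * z + 4538 * t) ≤ 959999 ∧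
      -959999 ≤ 10000 * (9102 * x + 7801 * y + 5385 * z + 10000 * t)
        - 16679 * (5033 * x + 3073 * y + 343 * z + 1467 * t)
        - 16660 * (425 * x + 1606 * y + 2886 * z + 4538 * t)) ∧
    (10000 * (10000 * x + 2652 * y - 6644 * z - 8406 * t)
        - 22034 * (5033 * x + 3073 * y + 343 * z + 1467 * t)
        + 25644 * (425 * x + 1606 * y + 2886 * z + 4538 * t) ≤ 959999 ∧
      -959999 ≤ 10000 * (10000 * x + 2652 * y - 6644 * z - 8406 * t)
        - 22034 * (5033 * x + 3073 * y + 343 * z + 1467 * t)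
        + 25644 * (425 * x + 1606 * y + 2886 * z + 4538 * t)) := by
  rcases a1 with a1 | a1 <;> rcases a2 with a2 | a2 <;> subst a1 <;> subst a2 <;>
  refine ⟨⟨?_, ?_⟩, ?_, ?_⟩ <;> linarith

theorem sol_not_irr {D : V} (hD : Cone D) {a b c : Fin 4} {P0 P1 P2 R0 R1 R2 : ℕ}
    {x0 y0 x1 y1 x2 y2 : ℤ} (h0 : Pt a P0 R0 x0 y0) (h1 : Pt b P1 R1 x1 y1)
    (h2 : Pt c P2 R2 x2 y2) (hx : tx D + x0 - 2 * x1 + x2 = 0)
    (hy : ty D + y0 - 2 * y1 + y2 = 0) : ¬ Irr a b c D := by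
  obtain ⟨⟨a1, a2, a3, a4⟩, ⟨a5, a6⟩, a7, a8⟩ := pt_bounds h0
  obtain ⟨⟨b1, b2, b3, b4⟩, ⟨b5, b6⟩, b7, b8⟩ := pt_bounds h1
  obtain ⟨⟨c1, c2, c3, c4⟩, ⟨c5, c6⟩, c7, c8⟩ := pt_bounds h2
  obtain ⟨⟨e1, e2⟩, e3, e4⟩ := hD
  have m1 : F1 D = |F1 D| ∨ -F1 D = |F1 D| := by
    rcases abs_or (F1 D) with h | h
    · exact Or.inl h.symm
    · exact Or.inr h.symm
  have m2 : F2 D = |F2 D| ∨ -F2 D = |F2 D| := by
    rcases abs_or (F2 D) with h | h
    · exact Or.inl h.symm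
    · exact Or.inr h.symm
  obtain ⟨⟨g1, g1'⟩, g2, g2'⟩ := sol_core D.x D.y D.z D.t |F1 D| |F2 D| m1 m2 e1 e2 e3 e4
    (by simp only [tx] at hx; linarith) (by simp only [tx] at hx; linarith)
    (by simp only [ty] at hy; linarith) (by simp only [ty] at hy; linarith)
  rintro (hI | hI | hI | hI) <;> simp only [tx, ty, F1, F2] at hI hx hy <;> linarith

end Pool.Agent.Work.MP235410
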