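import Pool.Agent.Work.MP_235410_co.Cert1
import Pool.Agent.Work.MP_235410_co.RelSol

/-!
# Soundness of the closure check
-/

set_option autoImplicit false

namespace Pool.Agent.Work.MP235410

theorem allL_iff {α : Type} (l : List α) (f : α → Bool) :
    allL l f = true ↔ ∀ x ∈ l, f x = true := by
  induction l with
  | nil => simp [allL]
  | cons a l ih =>
    have : allL (a :: l) f = (f a && allL l f) := rfl
    rw [this, Bool.and_eq_true, ih]
    simp

theorem allN_spec (n : ℕ) (f : ℕ → Bool) (hn : allN n f = true) : ∀ k < n, f k = true := by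
  induction n with
  | zero => intro k hk; omega
  | succ n ih =>
    have h2 : allN (n + 1) f = (f n && allN n f) := rfl
    rw [h2, Bool.and_eq_true] at hn
    intro k hk
    rcases Nat.lt_succ_iff_lt_or_eq.mp hk with hk | hk
    · exact ih hn.2 k hk
    · rw [hk]; exact hn.1

theorem orL_bit {α : Type} (l : List α) (f : α → ℕ) (m : ℕ) :
    (orL l f).testBit m = true ↔ ∃ x ∈ l, (f x).testBit m = true := by
  induction l with
  | nil => simp [orL]
  | cons a l ih =>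
    have h2 : orL (a :: l) f = (f a ||| orL l f) := rfl
    rw [h2, Nat.testBit_or, Bool.or_eq_true, ih]
    simp

theorem dX_eq (k : ℕ) : dX k = k % 64 := Nat.and_two_pow_sub_one_eq_mod k 6
theorem dY_eq (k : ℕ) : dY k = k / 64 % 64 := by
  have h1 : dY k = (k >>> 6) &&& (2 ^ 6 - 1) := rfl
  rw [h1, Nat.and_two_pow_sub_one_eq_mod, Nat.shiftRight_eq_div_pow]
theorem dZ_eq (k : ℕ) : dZ k = k / 4096 % 64 := by
  have h1 : dZ k = (k >>> 12) &&& (2 ^ 6 - 1) := rfl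
  rw [h1, Nat.and_two_pow_sub_one_eq_mod, Nat.shiftRight_eq_div_pow]
theorem dT_eq (k : ℕ) : dT k = k / 262144 % 64 := by
  have h1 : dT k = (k >>> 18) &&& (2 ^ 6 - 1) := rfl
  rw [h1, Nat.and_two_pow_sub_one_eq_mod, Nat.shiftRight_eq_div_pow]
theorem lA_eq (k : ℕ) : lA k = k / 16777216 % 4 := by
  have h1 : lA k = (k >>> 24) &&& (2 ^ 2 - 1) := rfl
  rw [h1, Nat.and_two_pow_sub_one_eq_mod, Nat.shiftRight_eq_div_pow]
theorem lB_eq (k : ℕ) : lB k = k / 67108864 % 4 := by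
  have h1 : lB k = (k >>> 26) &&& (2 ^ 2 - 1) := rfl
  rw [h1, Nat.and_two_pow_sub_one_eq_mod, Nat.shiftRight_eq_div_pow]
theorem lC_eq (k : ℕ) : lC k = k / 268435456 % 4 := by
  have h1 : lC k = (k >>> 28) &&& (2 ^ 2 - 1) := rfl
  rw [h1, Nat.and_two_pow_sub_one_eq_mod, Nat.shiftRight_eq_div_pow]

theorem ch_lt (n p q r : ℕ) : ch n p q r < 1024 := by
  have := Nat.and_two_pow_sub_one_eq_mod
    (n >>> (10 * (16 * p + (4 * q + r)))) 10
  have h2 : ch n p q r = (n >>> (10 * (16 * p + (4 * q + r)))) % 2 ^ 10 := this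
  rw [h2]
  exact Nat.mod_lt _ (by norm_num)

/-- uniqueness of the packed representation -/
theorem uniq (k : ℕ) (d0 d1 d2 d3 A B C : ℕ) (h0 : d0 < 64) (h1 : d1 < 64)
    (h2 : d2 < 64) (h3 : d3 < 64) (hA : A < 4) (hB : B < 4) (hC : C < 4)
    (hh : k = d0 + 64 * d1 + 4096 * d2 + 262144 * d3 + 16777216 * A + 67108864 * B
      + 268435456 * C) :
    dX k = d0 ∧ dY k = d1 ∧ dZ k = d2 ∧ dT k = d3 ∧ lA k = A ∧ lB k = B ∧ lC k = C := by
  rw [dX_eq, dY_eq, dZ_eq, dT_eq, lA_eq, lB_eq, lC_eq]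
  refine ⟨?_, ?_, ?_, ?_, ?_, ?_, ?_⟩ <;> omega

theorem decomp (k : ℕ) (hk : k < 1073741824) :
    k = dX k + 64 * dY k + 4096 * dZ k + 262144 * dT k + 16777216 * lA k + 67108864 * lB k
      + 268435456 * lC k := by
  rw [dX_eq, dY_eq, dZ_eq, dT_eq, lA_eq, lB_eq, lC_eq]
  omega

/-- decoded vector -/
def decD (k : ℕ) : V := ⟨(dX k : ℤ) - 32, (dY k : ℤ) - 32, (dZ k : ℤ) - 32, (dT k : ℤ) - 32⟩

/-- the index `i` stands for the triple -/
structure IsT (i : ℕ) (a b c : Fin 4) (D : V) : Prop where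
  ha : lA (key i) = a.val
  hb : lB (key i) = b.val
  hc : lC (key i) = c.val
  hD : decD (key i) = D
  h1 : 1 ≤ i
  h2 : i ≤ 1001

/-- an entry describes the letter `j` of the image of `a` -/
def EntOK (a : Fin 4) (j : ℕ) (x : Ent) : Prop :=
  x.j = j ∧
  (x.c0 : ℤ) = (psi a j).x + 64 * (psi a j).y + 4096 * (psi a j).z + 262144 * (psi a j).t
    + 16777216 * (ltr a j).val ∧
  (x.c1 : ℤ) = (4 - 2 * (psi a j).x) + 64 * (4 - 2 * (psi a j).y) + 4096 * (4 - 2 * (psi a j).z)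
    + 262144 * (4 - 2 * (psi a j).t) + 67108864 * (ltr a j).val ∧
  (x.c2 : ℤ) = (psi a j).x + 64 * (psi a j).y + 4096 * (psi a j).z + 262144 * (psi a j).t
    + 268435456 * (ltr a j).val ∧
  ((x.u1 : ℤ) = F1 (psi a j) + hi1 (ltr a j) + 100000 ∧
  (x.w1 : ℤ) = F1 (psi a j) + lo1 (ltr a j) + 100000 ∧
  (x.u2 : ℤ) = F2 (psi a j) + hi2 (ltr a j) + 100000 ∧
  (x.w2 : ℤ) = F2 (psi a j) + lo2 (ltr a j) + 100000) ∧
  (0 ≤ (psi a j).x ∧ (psi a j).x ≤ 2) ∧ (0 ≤ (psi a j).y ∧ (psi a j).y ≤ 2) ∧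
  (0 ≤ (psi a j).z ∧ (psi a j).z ≤ 2) ∧ (0 ≤ (psi a j).t ∧ (psi a j).t ≤ 2)

instance (a : Fin 4) (j : ℕ) (x : Ent) : Decidable (EntOK a j x) := by
  unfold EntOK; infer_instance

theorem ent_spec : ∀ a : Fin 4, ∀ j < (h a).length, ∃ x ∈ ent a.val, EntOK a j x := by
  decide

/-- the kernel evaluations needed for the closure -/
structure Chk : Prop where
  hK : allN 1001 (fun i => chkK (Nat.succ i)) = true
  hA : allN 1001 (fun i => chkA (Nat.succ i)) = true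
  hB : ∀ g ≤ 3, allN 1001 (fun i => chkB g (Nat.succ i)) = true

theorem rg_spec {d : ℕ} (hd : rg d = true) : 28 ≤ d ∧ d ≤ 36 := by
  unfold rg at hd
  rw [Bool.and_eq_true, Nat.ble_eq, Nat.ble_eq] at hd
  exact hd

theorem key_spec (hc : Chk) {i : ℕ} (h1 : 1 ≤ i) (h2 : i ≤ 1001) :
    key i < 1073741824 ∧ (28 ≤ dX (key i) ∧ dX (key i) ≤ 36) ∧
    (28 ≤ dY (key i) ∧ dY (key i) ≤ 36) ∧ (28 ≤ dZ (key i) ∧ dZ (key i) ≤ 36) ∧
    (28 ≤ dT (key i) ∧ dT (key i) ≤ 36) := by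
  have := allN_spec _ _ hc.hK (i - 1) (by omega)
  rw [Nat.succ_eq_add_one, Nat.sub_add_cancel h1] at this
  unfold chkK at this
  simp only [Bool.and_eq_true, Nat.ble_eq] at this
  obtain ⟨g1, g2, g3, g4, g5⟩ := this
  exact ⟨by omega, rg_spec g2, rg_spec g3, rg_spec g4, rg_spec g5⟩

theorem lin_eq (k : ℕ) : lin k = 66 * dX k + 4161 * dY k + (266240 * dZ k + 270400 * dT k) := rfl
theorem fA_eq (k : ℕ) : fA k = 26005 * dX k + 22288 * dY k + (15385 * dZ k + 28571 * dT k) := rfl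
theorem fP_eq (k : ℕ) : fP k = 22652 * dX k + 6008 * dY k + 173824 := rfl
theorem fN_eq (k : ℕ) : fN k = 15050 * dZ k + 19042 * dT k := rfl

theorem ltb_eq (a b : ℕ) : ltb a b = true ↔ a < b := by
  unfold ltb
  rw [Bool.not_eq_true', ← Bool.not_eq_true, Nat.ble_eq]
  omega

theorem childA (hc : Chk) {i : ℕ} {a b c : Fin 4} {D : V} (hT : IsT i a b c D) {p q r : ℕ}
    (hp : p < (h a).length) (hq : q < (h b).length) (hr : r < (h c).length) :
    (ch (chd i) p q r = 0 ∧ Irr (ltr a p) (ltr b q) (ltr c r)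
      (comb (mulM D) (psi a p) (psi b q) (psi c r))) ∨
    (ch (chd i) p q r ≠ 0 ∧ IsT (ch (chd i) p q r) (ltr a p) (ltr b q) (ltr c r)
      (comb (mulM D) (psi a p) (psi b q) (psi c r))) := by
  obtain ⟨hla, hlb, hlc, hD, h1, h2⟩ := hT
  obtain ⟨hk, ⟨x1, x2⟩, ⟨y1, y2⟩, ⟨z1, z2⟩, t1, t2⟩ := key_spec hc h1 h2
  have hA := allN_spec _ _ hc.hA (i - 1) (by omega)
  rw [Nat.succ_eq_add_one, Nat.sub_add_cancel h1] at hA
  obtain ⟨X, hX, X1, X2, X3, X4, ⟨X5, X6, X7, X8⟩, X9, X10, X11, X12⟩ := ent_spec a p hp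
  obtain ⟨Y, hY, Y1, Y2, Y3, Y4, ⟨Y5, Y6, Y7, Y8⟩, Y9, Y10, Y11, Y12⟩ := ent_spec b q hq
  obtain ⟨Z, hZ, Z1, Z2, Z3, Z4, ⟨Z5, Z6, Z7, Z8⟩, Z9, Z10, Z11, Z12⟩ := ent_spec c r hr
  unfold chkA at hA
  rw [hla, hlb, hlc, allL_iff] at hA
  have hA := hA X hX
  rw [allL_iff] at hA
  have hA := hA Y hY
  rw [allL_iff] at hA
  have hA := hA Z hZ
  unfold tstA at hA
  rw [X1, Y1, Z1] at hA
  generalize hk' : key i = k at *
  have Dx : D.x = (dX k : ℤ) - 32 := by rw [← hD]; rfl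
  have Dy : D.y = (dY k : ℤ) - 32 := by rw [← hD]; rfl
  have Dz : D.z = (dZ k : ℤ) - 32 := by rw [← hD]; rfl
  have Dt : D.t = (dT k : ℤ) - 32 := by rw [← hD]; rfl
  rcases hc0 : ch (chd i) p q r with _ | e
  · left
    refine ⟨rfl, ?_⟩
    rw [hc0] at hA
    have hA : irrT (fA k) (fP k) (fN k) X Y Z = true := hA
    unfold irrT at hA
    simp only [Bool.or_eq_true, ltb_eq, Nat.add_eq, Nat.mul_eq, fA_eq, fP_eq, fN_eq] at hA
    unfold Irr
    rw [F1_comb, F2_comb]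
    have e1 : F1 (mulM D) = 26005 * D.x + 22288 * D.y + 15385 * D.z + 28571 * D.t := by
      simp only [F1, mulM]; ring
    have e2 : F2 (mulM D) = 22652 * D.x + 6008 * D.y - 15050 * D.z - 19042 * D.t := by
      simp only [F2, mulM]; ring
    rw [e1, e2, Dx, Dy, Dz, Dt]
    rcases hA with hA | hA | hA | hA
    · left; omega
    · right; left; omega
    · right; right; left; omega
    · right; right; right; omega
  · right
    refine ⟨by omega, ?_⟩
    rw [hc0] at hA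
    have hA : (Nat.ble e 1000 && Nat.beq (key (e + 1) + 9851204)
      (lin k + X.c0 + (Y.c1 + Z.c2))) = true := hA
    rw [Bool.and_eq_true, Nat.ble_eq, Nat.beq_eq, lin_eq] at hA
    obtain ⟨he, hA⟩ := hA
    have hA' : (key (e + 1) : ℤ) + 9851204 = 66 * dX k + 4161 * dY k +
      (266240 * dZ k + 270400 * dT k) + X.c0 + (Y.c1 + Z.c2) := by exact_mod_cast hA
    set E := comb (mulM D) (psi a p) (psi b q) (psi c r) with hE
    have Ex : E.x = 2 * D.x + D.y + (psi a p).x - 2 * (psi b q).x + (psi c r).x := rfl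
    have Ey : E.y = D.x + D.y + D.t + (psi a p).y - 2 * (psi b q).y + (psi c r).y := rfl
    have Ez : E.z = D.y + D.z + 2 * D.t + (psi a p).z - 2 * (psi b q).z + (psi c r).z := rfl
    have Et : E.t = D.z + D.t + (psi a p).t - 2 * (psi b q).t + (psi c r).t := rfl
    have hu := uniq (key (e + 1)) (E.x + 32).toNat (E.y + 32).toNat (E.z + 32).toNat
      (E.t + 32).toNat (ltr a p).val (ltr b q).val (ltr c r).val (by omega) (by omega) (by omega)
      (by omega) (ltr a p).isLt (ltr b q).isLt (ltr c r).isLt (by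
        zify
        rw [Int.toNat_of_nonneg (by omega), Int.toNat_of_nonneg (by omega),
          Int.toNat_of_nonneg (by omega), Int.toNat_of_nonneg (by omega)]
        linarith)
    obtain ⟨u1, u2, u3, u4, u5, u6, u7⟩ := hu
    refine ⟨u5, u6, u7, ?_, by omega, by omega⟩
    unfold decD
    rw [u1, u2, u3, u4, Int.toNat_of_nonneg (by omega), Int.toNat_of_nonneg (by omega),
          Int.toNat_of_nonneg (by omega), Int.toNat_of_nonneg (by omega)]
    ext <;> simp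

end Pool.Agent.Work.MP235410
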