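import Pool.Agent.Work.MP_235410_co.Sound1

/-!
# Soundness of the closure check, second part
-/

set_option autoImplicit false

namespace Pool.Agent.Work.MP235410

theorem shl_bit (t m : ℕ) : (Nat.shiftLeft 1 t).testBit m = true ↔ t = m := by
  have h1 : Nat.shiftLeft 1 t = 2 ^ t := Nat.one_shiftLeft t
  rw [h1, Nat.testBit_two_pow]
  simp

theorem mask_bit {g i m : ℕ} (hm : (mask g i).testBit m = true) (h0 : m ≠ 0) :
    m ∈ row g i := by
  have h1 : mask g i = 1 ||| orL (row g i) fun t => Nat.shiftLeft 1 t := rfl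
  rw [h1, Nat.testBit_or, Bool.or_eq_true] at hm
  rcases hm with hm | hm
  · rw [Nat.testBit_one_eq_true_iff_self_eq_zero] at hm
    exact absurd hm h0
  · rw [orL_bit] at hm
    obtain ⟨t, ht, htm⟩ := hm
    rw [shl_bit] at htm
    rw [← htm]; exact ht

theorem PM_bit (i : ℕ) {x y z : Ent} (hx : x ∈ ent (lA (key i))) (hy : y ∈ ent (lB (key i)))
    (hz : z ∈ ent (lC (key i))) :
    (PM i).testBit (1024 * (4 * x.j + y.j) + ch (chd i) x.j y.j z.j) = true := by
  unfold PM
  rw [orL_bit]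
  refine ⟨x, hx, ?_⟩
  rw [orL_bit]
  refine ⟨y, hy, ?_⟩
  rw [orL_bit]
  refine ⟨z, hz, ?_⟩
  rw [shl_bit]
  rfl

theorem gs_eq (g l p q : ℕ) : gs g l p q = gstep g l p q := by
  unfold gs gstep
  by_cases h0 : g = 0
  · subst h0
    simp
  · have h0' : Nat.beq g 0 = false := by
      rw [← Bool.not_eq_true, Nat.beq_eq]; exact h0
    rw [h0', if_neg h0]
    by_cases h1 : g = 1
    · subst h1
      have h1' : Nat.beq 1 1 = true := rfl
      rw [h1', if_pos rfl]
      simp only [cond_true, cond_false, Nat.add_eq, Nat.sub_eq]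
      by_cases h2 : 3 ≤ l - p + q
      · have h2' : Nat.ble 3 (l - p + q) = true := by rw [Nat.ble_eq]; exact h2
        rw [h2', cond_true, min_eq_left h2]
      · have h2' : Nat.ble 3 (l - p + q) = false := by
          rw [← Bool.not_eq_true, Nat.ble_eq]; exact h2
        rw [h2', cond_false, min_eq_right (by omega)]
    · have h1' : Nat.beq g 1 = false := by
        rw [← Bool.not_eq_true, Nat.beq_eq]; exact h1
      rw [h1', if_neg h1]
      rfl

theorem lenh_eq : ∀ a : Fin 4, lenh a.val = (h a).length := by decide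

theorem childB (hc : Chk) {g i1 i2 : ℕ} (hg3 : g ≤ 3) (hi : i2 ∈ row g i1) {a b c d : Fin 4}
    {D E : V} (hT1 : IsT i1 a b c D) (hT2 : IsT i2 b c d E) {p q r s : ℕ}
    (hp : p < (h a).length) (hq : q < (h b).length) (hr : r < (h c).length)
    (hs : s < (h d).length) (hg : g = 0 → p ≤ q) :
    ch (chd i1) p q r = 0 ∨ ch (chd i2) q r s = 0 ∨
      ch (chd i2) q r s ∈ row (gstep g (h a).length p q) (ch (chd i1) p q r) := by
  obtain ⟨X, hX, X1, -⟩ := ent_spec a p hp
  obtain ⟨Y, hY, Y1, -⟩ := ent_spec b q hq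
  obtain ⟨Z, hZ, Z1, -⟩ := ent_spec c r hr
  obtain ⟨W, hW, W1, -⟩ := ent_spec d s hs
  have hB := allN_spec _ _ (hc.hB g hg3) (i1 - 1) (by have := hT1.h1; have := hT1.h2; omega)
  rw [Nat.succ_eq_add_one, Nat.sub_add_cancel hT1.h1] at hB
  have hPM := PM_bit i2 (x := Y) (y := Z) (z := W) (by rw [hT2.ha]; exact hY)
    (by rw [hT2.hb]; exact hZ) (by rw [hT2.hc]; exact hW)
  rw [Y1, Z1, W1] at hPM
  have hU : (orL (row g i1) PM).testBit (1024 * (4 * q + r) + ch (chd i2) q r s) = true := by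
    rw [orL_bit]; exact ⟨i2, hi, hPM⟩
  obtain ⟨t, l, hl⟩ : ∃ t l, row g i1 = t :: l := by
    rcases hrow : row g i1 with _ | ⟨t, l⟩
    · rw [hrow] at hi; simp at hi
    · exact ⟨t, l, rfl⟩
  have hB' : (allL (ent (lB (key i1))) fun y => allL (ent (lC (key i1))) fun z =>
      allL (ent (lA (key i1))) fun x =>
        tstB g (lenh (lA (key i1))) (chd i1)
          (Nat.land (Nat.shiftRight (orL (row g i1) PM)
            (Nat.mul 1024 (Nat.add (Nat.mul 4 y.j) z.j)))
            (Nat.sub (Nat.shiftLeft 1 1024) 1)) x y z) = true := by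
    unfold chkB at hB
    rw [hl] at hB ⊢
    exact hB
  rw [hT1.ha, hT1.hb, hT1.hc, allL_iff] at hB'
  have hB' := hB' Y hY
  rw [allL_iff] at hB'
  have hB' := hB' Z hZ
  rw [allL_iff] at hB'
  have hB' := hB' X hX
  unfold tstB at hB'
  rw [X1, Y1, Z1, Bool.or_eq_true, Bool.and_eq_true, Nat.beq_eq, ltb_eq] at hB'
  rcases hB' with hB' | hB'
  · have := hg hB'.1
    omega
  rcases hc0 : ch (chd i1) p q r with _ | e
  · left; rfl
  right
  by_cases h0 : ch (chd i2) q r s = 0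
  · left; exact h0
  right
  rw [hc0] at hB'
  set u := (orL (row g i1) PM >>> (1024 * (4 * q + r))) &&& (2 ^ 1024 - 1) with hu
  have hu' : Nat.land (Nat.shiftRight (orL (row g i1) PM)
            (Nat.mul 1024 (Nat.add (Nat.mul 4 q) r)))
            (Nat.sub (Nat.shiftLeft 1 1024) 1) = u := by
    rw [hu]
    have : Nat.sub (Nat.shiftLeft 1 1024) 1 = 2 ^ 1024 - 1 := by decide +kernel
    rw [this]
    rfl
  rw [hu'] at hB'
  have hB' : Nat.beq (u &&& mask (gs g (lenh a.val) p q) (e + 1)) u = true := hB'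
  rw [Nat.beq_eq, gs_eq, lenh_eq] at hB'
  apply mask_bit _ h0
  have hub : u.testBit (ch (chd i2) q r s) = true := by
    rw [hu, Nat.testBit_and, Nat.testBit_shiftRight, hU, Nat.testBit_two_pow_sub_one]
    simpa using ch_lt _ _ _ _
  rw [← hB', Nat.testBit_and, Bool.and_eq_true] at hub
  exact hub.2

/-- the template is described by the certificate -/
def InC (q : Q) : Prop :=
  q.g ≤ 3 ∧ ∃ i1 i2 : ℕ, i2 ∈ row q.g i1 ∧ IsT i1 q.a q.b q.c q.D ∧ IsT i2 q.b q.c q.d q.E

theorem gstep_le (g l p q : ℕ) (hq : q ≤ 3) : gstep g l p q ≤ 3 := by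
  unfold gstep
  split_ifs
  · omega
  · exact min_le_left _ _
  · exact le_refl _

theorem len_le : ∀ a : Fin 4, (h a).length ≤ 4 := by decide

theorem isT_root : IsT 19 0 0 0 ⟨0, 0, 0, 0⟩ ∧ 19 ∈ row 0 19 := by
  refine ⟨⟨?_, ?_, ?_, ?_, by norm_num, by norm_num⟩, ?_⟩ <;> decide +kernel

theorem closure (hc : Chk) {q : Q} (hq : Reach q) :
    Cone q.D ∧ Cone q.E ∧ (InC q ∨ Irr q.a q.b q.c q.D ∨ Irr q.b q.c q.d q.E) := by
  induction hq with
  | root =>
    refine ⟨cone_zero, cone_zero, Or.inl ⟨by norm_num, 19, 19, ?_, ?_, ?_⟩⟩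
    · exact isT_root.2
    · exact isT_root.1
    · exact isT_root.1
  | step q j0 j1 j2 j3 hq h0 h1 h2 h3 hg ih =>
    obtain ⟨hD, hE, ih⟩ := ih
    refine ⟨cone_step hD h0 h1 h2, cone_step hE h1 h2 h3, ?_⟩
    rcases ih with ih | ih | ih
    · obtain ⟨hg3, i1, i2, hi, hT1, hT2⟩ := ih
      rcases childA hc hT1 h0 h1 h2 with ⟨-, hI⟩ | ⟨hn1, hI1⟩
      · right; left; exact hI
      rcases childA hc hT2 h1 h2 h3 with ⟨-, hI⟩ | ⟨hn2, hI2⟩
      · right; right; exact hI
      left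
      refine ⟨gstep_le _ _ _ _ (by have := len_le q.b; omega), _, _, ?_, hI1, hI2⟩
      rcases childB hc hg3 hi hT1 hT2 h0 h1 h2 h3 hg with h | h | h
      · exact absurd h hn1
      · exact absurd h hn2
      · exact h
    · right; left; exact irr_step hD h0 h1 h2 ih
    · right; right; exact irr_step hE h1 h2 h3 ih

end Pool.Agent.Work.MP235410
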